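import Pool.Agent.H.MP_0e6b5f_nt.Eng.Defs

/-!
# The extension generated by the fixed points and the roots of the leading coefficient and of the Jacobian
-/

namespace Pool.Agent.H.MP_0e6b5f_nt.Eng

open Pool.Agent.H.MP_0e6b5f_nt.Dom
open Polynomial NumberField Module

/-- The roots of a polynomial of degree `n` lie in an extension of degree at most `n!`. -/
theorem extField_roots.{u} {Ω : Type u} [Field Ω] [IsAlgClosed Ω] (n : ℕ) :
    ∀ (F : Type u) [Field F] [Algebra F Ω] (p : F[X]), p ≠ 0 → p.natDegree = n →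
      ∃ L : IntermediateField F Ω, FiniteDimensional F L ∧ finrank F L ≤ n.factorial ∧
        ∀ r : Ω, aeval r p = 0 → r ∈ L := by
  induction n with
  | zero =>
    intro F _ _ p hp hn
    refine ⟨⊥, inferInstance, by simp, ?_⟩
    intro r hr
    exfalso
    rw [natDegree_eq_zero] at hn
    obtain ⟨x, rfl⟩ := hn
    rw [aeval_C] at hr
    apply hp
    rw [FaithfulSMul.algebraMap_eq_zero_iff] at hr
    rw [hr, C_0]
  | succ n ih =>
    intro F _ _ p hp hn
    have hdeg : (p.map (algebraMap F Ω)).degree ≠ 0 := by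
      rw [degree_map, degree_eq_natDegree hp, hn]
      exact_mod_cast Nat.succ_ne_zero n
    obtain ⟨r, hr⟩ := IsAlgClosed.exists_root _ hdeg
    have hr' : aeval r p = 0 := by
      rw [IsRoot.def, eval_map_algebraMap] at hr
      exact hr
    have hint : IsIntegral F r := by
      rw [← isAlgebraic_iff_isIntegral]
      exact ⟨p, hp, hr'⟩
    set L₁ := IntermediateField.adjoin F {r} with hL₁
    have hfd : FiniteDimensional F L₁ := IntermediateField.adjoin.finiteDimensional hint
    have hfr : finrank F L₁ ≤ n + 1 := by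
      rw [IntermediateField.adjoin.finrank hint, ← hn]
      exact natDegree_le_of_dvd (minpoly.dvd F r hr') hp
    have hrL : r ∈ L₁ := IntermediateField.mem_adjoin_simple_self F r
    set r₁ : L₁ := ⟨r, hrL⟩ with hr₁
    have hroot : (p.map (algebraMap F L₁)).IsRoot r₁ := by
      rw [IsRoot.def, eval_map_algebraMap]
      apply Subtype.ext
      have h1 : ((aeval r₁ p : L₁) : Ω) = aeval r p := by
        exact (aeval_algebraMap_apply Ω r₁ p).symm
      rw [h1, hr']
      rfl
    obtain ⟨q, hq⟩ := dvd_iff_isRoot.2 hroot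
    have hpm : p.map (algebraMap F L₁) ≠ 0 := by
      rw [Ne, Polynomial.map_eq_zero]
      exact hp
    have hq0 : q ≠ 0 := by
      rintro rfl
      rw [mul_zero] at hq
      exact hpm hq
    have hqn : q.natDegree = n := by
      have h1 : (p.map (algebraMap F L₁)).natDegree = n + 1 := by rw [natDegree_map, hn]
      rw [hq, natDegree_mul (X_sub_C_ne_zero _) hq0, natDegree_X_sub_C] at h1
      omega
    obtain ⟨L₂, hfd₂, hfr₂, hroots₂⟩ := ih L₁ q hq0 hqn
    refine ⟨L₂.restrictScalars F, ?_, ?_, ?_⟩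
    · exact FiniteDimensional.trans F L₁ L₂
    · have h1 : finrank F L₁ * finrank L₁ L₂ = finrank F L₂ := finrank_mul_finrank F L₁ L₂
      have h2 : finrank F (L₂.restrictScalars F) = finrank F L₂ := rfl
      rw [h2, ← h1, Nat.factorial_succ]
      exact Nat.mul_le_mul hfr hfr₂
    · intro s hs
      rw [IntermediateField.mem_restrictScalars]
      have h1 : aeval s (p.map (algebraMap F L₁)) = 0 := by
        rw [aeval_map_algebraMap]
        exact hs
      rw [hq, map_mul, mul_eq_zero] at h1
      rcases h1 with h1 | h1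
      · rw [map_sub, aeval_X, aeval_C, sub_eq_zero] at h1
        rw [h1]
        exact L₂.algebraMap_mem r₁
      · exact hroots₂ s h1

/-- An extension of degree at most `(3d)!` over which all the fixed points are rational, together
with a root of the leading coefficient and a root of the Jacobian. -/
theorem exists_ext {K : Type*} [Field K] {d : ℕ} (hd : 2 ≤ d) (F : K[X])
    (hF : F.natDegree = d) (δ : K) :
    ∃ (L : IntermediateField K (AlgebraicClosure K)) (_ : FiniteDimensional K L)
      (c μ : L) (ζ : Fin d → L), finrank K L ≤ (3 * d).factorial ∧ c ≠ 0 ∧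
      μ ^ (d - 1) = algebraMap K L δ ∧
      F.map (algebraMap K L) = fixPoly c (algebraMap K L δ) ζ := by
  classical
  set Ω := AlgebraicClosure K with hΩ
  set a := F.leadingCoeff with ha
  have hF0 : F ≠ 0 := by
    rintro rfl
    rw [natDegree_zero] at hF
    omega
  have ha0 : a ≠ 0 := leadingCoeff_ne_zero.2 hF0
  set G : K[X] := F - C (1 + δ) * X with hG
  have hlt : (C (1 + δ) * X : K[X]).natDegree < F.natDegree := by
    rw [hF]
    exact lt_of_le_of_lt ((natDegree_C_mul_le _ _).trans natDegree_X_le) (by omega)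
  have hGd : G.natDegree = d := by
    rw [hG, natDegree_sub_eq_left_of_natDegree_lt hlt, hF]
  have hGl : G.leadingCoeff = a := by
    rw [hG, leadingCoeff_sub_of_degree_lt (degree_lt_degree hlt)]
  have hG0 : G ≠ 0 := by
    rw [← leadingCoeff_ne_zero, hGl]
    exact ha0
  have hd1 : d - 1 ≠ 0 := by omega
  have hA : ∀ x : K, (X ^ (d - 1) - C x : K[X]) ≠ 0 := fun x => X_pow_sub_C_ne_zero (by omega) x
  set p : K[X] := G * (X ^ (d - 1) - C a) * (X ^ (d - 1) - C δ) with hp
  have hp0 : p ≠ 0 := mul_ne_zero (mul_ne_zero hG0 (hA a)) (hA δ)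
  have hpn : p.natDegree ≤ 3 * d := by
    rw [hp, natDegree_mul (mul_ne_zero hG0 (hA a)) (hA δ), natDegree_mul hG0 (hA a), hGd,
      natDegree_X_pow_sub_C, natDegree_X_pow_sub_C]
    omega
  obtain ⟨L, hfd, hfr, hroots⟩ := extField_roots (Ω := Ω) p.natDegree K p hp0 rfl
  have hex : ∀ x : K, ∃ y : Ω, y ^ (d - 1) = algebraMap K Ω x := fun x =>
    IsAlgClosed.exists_pow_nat_eq _ (by omega)
  obtain ⟨c₀, hc₀⟩ := hex a
  obtain ⟨μ₀, hμ₀⟩ := hex δ
  have hcL : c₀ ∈ L := by
    apply hroots
    rw [hp, map_mul, map_mul]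
    have : aeval c₀ (X ^ (d - 1) - C a : K[X]) = 0 := by
      rw [map_sub, map_pow, aeval_X, aeval_C, hc₀, sub_self]
    rw [this, mul_zero, zero_mul]
  have hμL : μ₀ ∈ L := by
    apply hroots
    rw [hp, map_mul]
    have : aeval μ₀ (X ^ (d - 1) - C δ : K[X]) = 0 := by
      rw [map_sub, map_pow, aeval_X, aeval_C, hμ₀, sub_self]
    rw [this, mul_zero]
  -- the roots of G
  have hsplit : (G.map (algebraMap K Ω)).Splits := IsAlgClosed.splits _
  have hcard : (G.map (algebraMap K Ω)).roots.card = d := by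
    rw [← hGd, ← natDegree_map (algebraMap K Ω)]
    exact (splits_iff_card_roots.1 hsplit)
  obtain ⟨l, hl⟩ : ∃ l : List Ω, (l : Multiset Ω) = (G.map (algebraMap K Ω)).roots :=
    ⟨_, Multiset.coe_toList _⟩
  have hll : l.length = d := by
    rw [← hcard, ← hl, Multiset.coe_card]
  have hlL : ∀ x ∈ l, x ∈ L := by
    intro x hx
    have hx' : x ∈ (G.map (algebraMap K Ω)).roots := by
      rw [← hl]
      exact hx
    rw [mem_roots', IsRoot.def, eval_map_algebraMap] at hx'
    apply hroots
    rw [hp, map_mul, map_mul, hx'.2, zero_mul, zero_mul]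
  set ζ₀ : Fin d → Ω := fun i => l.get (i.cast hll.symm) with hζ₀
  have hζL : ∀ i, ζ₀ i ∈ L := fun i => hlL _ (List.get_mem l _)
  have hprod : ∏ i, (X - C (ζ₀ i)) = ((G.map (algebraMap K Ω)).roots.map
      (fun x => X - C x)).prod := by
    rw [← hl, Multiset.map_coe, Multiset.prod_coe]
    subst hll
    rw [← List.prod_ofFn]
    congr 1
    apply List.ext_get
    · simp
    · intro i h1 h2
      simp [hζ₀]
  have hGmap : G.map (algebraMap K Ω) = C (algebraMap K Ω a) * ∏ i, (X - C (ζ₀ i)) := by
    rw [hprod]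
    have h1 := hsplit.eq_prod_roots
    rw [leadingCoeff_map, hGl] at h1
    exact h1
  refine ⟨L, hfd, ⟨c₀, hcL⟩, ⟨μ₀, hμL⟩, fun i => ⟨ζ₀ i, hζL i⟩, ?_, ?_, ?_, ?_⟩
  · exact hfr.trans (Nat.factorial_le hpn)
  · intro h
    have h1 : c₀ = 0 := congrArg Subtype.val h
    rw [h1, zero_pow hd1] at hc₀
    apply ha0
    have h2 := hc₀.symm
    rw [FaithfulSMul.algebraMap_eq_zero_iff] at h2
    exact h2
  · apply Subtype.ext
    exact hμ₀
  · apply map_injective (algebraMap L Ω) (algebraMap L Ω).injective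
    rw [Polynomial.map_map, ← IsScalarTower.algebraMap_eq K L Ω]
    have h1 : F = G + C (1 + δ) * X := by rw [hG]; ring
    have h2 : F.map (algebraMap K Ω) = C (algebraMap K Ω a) * ∏ i, (X - C (ζ₀ i)) +
        C (1 + algebraMap K Ω δ) * X := by
      rw [h1, Polynomial.map_add, hGmap]
      simp
    rw [h2]
    unfold fixPoly
    have h3 : (algebraMap L Ω) (1 + algebraMap K L δ) = 1 + algebraMap K Ω δ := by
      rw [map_add, map_one]
      rfl
    have h4 : (algebraMap L Ω) ((⟨c₀, hcL⟩ : L) ^ (d - 1)) = algebraMap K Ω a := by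
      rw [map_pow, ← hc₀]
      rfl
    have h5 : ∀ i, (algebraMap L Ω) (⟨ζ₀ i, hζL i⟩ : L) = ζ₀ i := fun i => rfl
    simp only [Polynomial.map_add, Polynomial.map_mul, map_C, map_X, Polynomial.map_prod,
      Polynomial.map_sub, h4, h5]
    erw [h3]
    ring

end Pool.Agent.H.MP_0e6b5f_nt.Eng
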