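import Pool.Agent.H.MP_0e6b5f_nt.Eng.Defs
import Pool.Agent.H.MP_0e6b5f_nt.DefsBad

/-!
# Good reduction and the fixed points
-/

namespace Pool.Agent.H.MP_0e6b5f_nt.Eng

open Pool.Agent.H.MP_0e6b5f_nt.Dom
open Polynomial NumberField Module

/-- Bad places are finitely many. -/
theorem naiveBad_finite {K : Type*} [Field K] [NumberField K] {F : K[X]} (hF : F ≠ 0) {δ : K}
    (hδ : δ ≠ 0) : (naiveBad F δ).Finite := by
  classical
  have key : ∀ x : K, x ≠ 0 → {v : FinitePlace K | v.val x ≠ 1}.Finite := by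
    intro x hx
    exact FinitePlace.hasFiniteMulSupport hx
  have h1 : (⋃ i ∈ F.support, {v : FinitePlace K | v.val (F.coeff i) ≠ 1}).Finite :=
    F.support.finite_toSet.biUnion fun i hi => key _ (mem_support_iff.1 hi)
  refine (h1.union (key δ hδ)).subset ?_
  intro v hv
  by_contra hcon
  apply hv
  have h2 : ∀ i ∈ F.support, v.val (F.coeff i) = 1 := by
    intro i hi
    by_contra h3
    exact hcon (Or.inl (Set.mem_biUnion hi h3))
  have h3 : v.val δ = 1 := by
    by_contra h3
    exact hcon (Or.inr h3)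
  refine ⟨?_, fun i => ?_⟩
  · rw [h3, max_self]
    exact h2 _ (natDegree_mem_support_of_nonzero hF)
  · rw [h3, max_self]
    by_cases hi : i ∈ F.support
    · exact (h2 i hi).le
    · rw [notMem_support_iff.1 hi, map_zero]
      exact zero_le_one

theorem goodRoots_sum_le {K : Type*} [Field K] {v : AbsoluteValue K ℝ} (hv : IsNonarchimedean v)
    {ι : Type*} (s : Finset ι) (f : ι → K) {B : ℝ} (hB : 0 ≤ B) (h : ∀ i ∈ s, v (f i) ≤ B) :
    v (∑ i ∈ s, f i) ≤ B := by
  classical
  induction s using Finset.induction_on with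
  | empty => simpa using hB
  | insert a s ha ih =>
    rw [Finset.sum_insert ha]
    exact (hv _ _).trans (max_le (h a (Finset.mem_insert_self a s))
      (ih fun i hi => h i (Finset.mem_insert_of_mem hi)))

/-- At a place of good reduction the fixed points are integral. -/
theorem fixed_le_one {K : Type*} [Field K] {F : K[X]} {δ : K} (hF : 2 ≤ F.natDegree)
    (v : AbsoluteValue K ℝ) (hv : IsNonarchimedean v) (h : GoodAt v F δ) {x : K}
    (hx : F.eval x - δ * x = x) : v x ≤ 1 := by
  obtain ⟨h1, h2⟩ := h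
  set M : ℝ := max 1 (v δ) with hM
  have hM1 : 1 ≤ M := le_max_left _ _
  have hM0 : 0 < M := by linarith
  set d := F.natDegree with hd
  by_contra hcon
  have hgt : 1 < v x := not_le.1 hcon
  have h1δ : v (1 + δ) ≤ M := by
    refine (hv 1 δ).trans ?_
    rw [map_one]
  have e0 : F.eval x = (1 + δ) * x := by linear_combination hx
  rw [eval_eq_sum_range, ← hd, Finset.sum_range_succ] at e0
  have hlc : F.coeff d = F.leadingCoeff := rfl
  have e1 : v (F.coeff d * x ^ d) = v ((1 + δ) * x - ∑ k ∈ Finset.range d, F.coeff k * x ^ k) := by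
    congr 1
    rw [← e0]; ring
  have hxd : v x ≤ v x ^ (d - 1) := by
    calc v x = v x ^ 1 := (pow_one _).symm
      _ ≤ v x ^ (d - 1) := pow_le_pow_right₀ hgt.le (by omega)
  have e2 : v ((1 + δ) * x - ∑ k ∈ Finset.range d, F.coeff k * x ^ k) ≤ M * v x ^ (d - 1) := by
    rw [sub_eq_add_neg]
    refine (hv _ _).trans (max_le ?_ ?_)
    · rw [map_mul]
      exact mul_le_mul h1δ hxd (v.nonneg _) hM0.le
    · rw [v.map_neg]
      refine goodRoots_sum_le hv _ _ (by positivity) fun k hk => ?_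
      rw [map_mul, map_pow]
      have hk' : k ≤ d - 1 := by
        have := Finset.mem_range.1 hk
        omega
      exact mul_le_mul (h2 k) (pow_le_pow_right₀ hgt.le hk') (by positivity) hM0.le
  rw [← e1, map_mul, hlc, h1, map_pow] at e2
  have e3 : v x ^ (d - 1) < v x ^ d := pow_lt_pow_right₀ hgt (by omega)
  have e4 : M * v x ^ (d - 1) < M * v x ^ d := mul_lt_mul_of_pos_left e3 hM0
  linarith

/-- Good reduction in the given coordinates excludes fixed points that are far apart. -/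
theorem not_far {K : Type*} [Field K] {F : K[X]} {δ : K} (hF : 2 ≤ F.natDegree)
    (v : AbsoluteValue K ℝ) (hv : IsNonarchimedean v) (h : GoodAt v F δ) :
    ¬ FixedPointsFar v F δ := by
  rintro ⟨x, y, hx, hy, hfar⟩
  have h1 := fixed_le_one hF v hv h hx
  have h2 := fixed_le_one hF v hv h hy
  have h3 : v (x - y) ≤ 1 := by
    rw [sub_eq_add_neg]
    refine (hv _ _).trans (max_le h1 ?_)
    rw [v.map_neg]
    exact h2
  have h4 : v (x - y) ^ (F.natDegree - 1) ≤ 1 := pow_le_one₀ (v.nonneg _) h3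
  have h5 : v F.leadingCoeff * v (x - y) ^ (F.natDegree - 1) ≤ v F.leadingCoeff * 1 :=
    mul_le_mul_of_nonneg_left h4 (v.nonneg _)
  rw [mul_one, h.1] at h5
  rw [h.1] at hfar
  linarith

/-- A large normalised diameter gives two fixed points that are far apart. -/
theorem far_of_rho {K : Type*} [Field K] {d : ℕ} (hd : 2 ≤ d) {c δ μ : K} (hc : c ≠ 0)
    (ζ : Fin d → K) (hμ : μ ^ (d - 1) = δ) (v : AbsoluteValue K ℝ)
    (h : 1 < rho (fun i => c * ζ i) μ v) : FixedPointsFar v (fixPoly c δ ζ) δ := by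
  have hne : Nonempty (Fin d × Fin d) := ⟨(⟨0, by omega⟩, ⟨0, by omega⟩)⟩
  obtain ⟨p, hp⟩ := exists_eq_ciSup_of_finite
    (f := fun p : Fin d × Fin d => v (c * ζ p.1 - c * ζ p.2))
  have hm0 : 0 < max 1 (v μ) := lt_of_lt_of_le one_pos (le_max_left _ _)
  have hfixed : ∀ i, (fixPoly c δ ζ).eval (ζ i) - δ * ζ i = ζ i := by
    intro i
    rw [fixPoly_eval, Finset.prod_eq_zero (Finset.mem_univ i) (sub_self _)]
    ring
  set P : K[X] := C (c ^ (d - 1)) * ∏ i, (X - C (ζ i)) with hP
  have hcd : c ^ (d - 1) ≠ 0 := pow_ne_zero _ hc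
  have hPd : P.natDegree = d := by
    rw [hP, natDegree_C_mul hcd, natDegree_prod_of_monic _ _ (fun i _ => monic_X_sub_C _)]
    simp
  have hPl : P.leadingCoeff = c ^ (d - 1) := by
    rw [hP, leadingCoeff_mul, leadingCoeff_C,
      (monic_prod_of_monic _ _ (fun i _ => monic_X_sub_C (ζ i))).leadingCoeff, mul_one]
  have hP0 : P ≠ 0 := by
    intro h0
    rw [h0, leadingCoeff_zero] at hPl
    exact hcd hPl.symm
  have hfix : fixPoly c δ ζ = C (1 + δ) * X + P := rfl
  have hlt : (C (1 + δ) * X : K[X]).degree < P.degree := by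
    calc (C (1 + δ) * X).degree ≤ 1 := degree_C_mul_X_le _
      _ < (d : WithBot ℕ) := by exact_mod_cast (by omega : 1 < d)
      _ = P.degree := by rw [degree_eq_natDegree hP0, hPd]
  have hlead : (fixPoly c δ ζ).leadingCoeff = c ^ (d - 1) := by
    rw [hfix, leadingCoeff_add_of_degree_lt hlt, hPl]
  have hnd : (fixPoly c δ ζ).natDegree = d := by
    rw [hfix, natDegree_add_eq_right_of_degree_lt hlt, hPd]
  refine ⟨ζ p.1, ζ p.2, hfixed _, hfixed _, ?_⟩
  rw [hnd, hlead, map_pow, ← mul_pow, ← map_mul]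
  rw [rho, ← hp, one_lt_div hm0] at h
  have e1 : c * (ζ p.1 - ζ p.2) = c * ζ p.1 - c * ζ p.2 := by ring
  rw [e1]
  have hMm : max 1 (v δ) = (max 1 (v μ)) ^ (d - 1) := by
    rw [← hμ, map_pow]
    rcases le_total (v μ) 1 with h3 | h3
    · rw [max_eq_left h3, one_pow, max_eq_left (pow_le_one₀ (v.nonneg _) h3)]
    · rw [max_eq_right h3, max_eq_right (one_le_pow₀ h3)]
  rw [hMm]
  exact pow_lt_pow_left₀ h hm0.le (by omega)

end Pool.Agent.H.MP_0e6b5f_nt.Eng
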