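import Pool.Agent.H.MP_0e6b5f_nt.Eng.Defs

/-!
# Finite places of an extension
-/

namespace Pool.Agent.H.MP_0e6b5f_nt.Eng

open NumberField Module IsDedekindDomain HeightOneSpectrum Ideal

/-- Every finite place of L lies above a finite place of K. -/
theorem exists_place_under {K : Type*} [Field K] [NumberField K] {L : Type*} [Field L]
    [NumberField L] [Algebra K L] (w : FinitePlace L) :
    ∃ (v : FinitePlace K) (k : ℕ), 1 ≤ k ∧ ∀ x : K, w (algebraMap K L x) = v x ^ k := by
  set P : HeightOneSpectrum (𝓞 L) := w.maximalIdeal with hP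
  have hPmax : P.asIdeal.IsMaximal := P.isMaximal
  set v : HeightOneSpectrum (𝓞 K) :=
    ⟨P.asIdeal.under (𝓞 K), inferInstance, Ideal.under_ne_bot (𝓞 K) P.ne_bot⟩ with hv
  have hPlies : P.asIdeal.LiesOver v.asIdeal := ⟨rfl⟩
  have hvmax : v.asIdeal.IsMaximal := v.isMaximal
  set f := P.asIdeal.inertiaDeg (𝓞 K) with hf
  set e := v.asIdeal.ramificationIdx' P.asIdeal with he
  have hnorm : absNorm P.asIdeal = absNorm v.asIdeal ^ f := by
    rw [← Ideal.absNorm_relNorm (𝓞 K) (𝓞 L), Ideal.relNorm_eq_pow_of_isMaximal P.asIdeal v.asIdeal,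
      map_pow]
  have hf1 : 1 ≤ f := by
    rcases Nat.eq_zero_or_pos f with h | h
    · exfalso
      rw [h, pow_zero] at hnorm
      have := one_lt_absNorm P
      omega
    · exact h
  have he1 : 1 ≤ e := Nat.one_le_iff_ne_zero.mpr
    (Ideal.IsDedekindDomain.ramificationIdx'_ne_zero_of_liesOver P.asIdeal v.ne_bot)
  refine ⟨FinitePlace.mk v, e * f, Nat.mul_le_mul he1 hf1, fun x => ?_⟩
  have h1 : w (algebraMap K L x) = ‖FinitePlace.embedding P (algebraMap K L x)‖ :=
    (FinitePlace.norm_embedding_eq w (algebraMap K L x)).symm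
  rw [h1, FinitePlace.mk_apply, FinitePlace.norm_embedding', FinitePlace.norm_embedding',
    ← valuation_liesOver L v P x]
  have h2 : ∀ z : WithZero (Multiplicative ℤ),
      WithZeroMulInt.toNNReal (absNorm_ne_zero P) z =
        (WithZeroMulInt.toNNReal (absNorm_ne_zero v) z) ^ f := by
    intro z
    by_cases hz : z = 0
    · rw [hz, map_zero, map_zero, zero_pow (by omega)]
    · rw [WithZeroMulInt.toNNReal_neg_apply _ hz, WithZeroMulInt.toNNReal_neg_apply _ hz, hnorm]
      push_cast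
      rw [← zpow_natCast, ← zpow_natCast, ← zpow_mul, ← zpow_mul, mul_comm]
  rw [map_pow, h2, ← pow_mul, mul_comm f e]
  push_cast
  rfl

theorem mem_maximalIdeal_iff {K : Type*} [Field K] [NumberField K] (v : FinitePlace K)
    (x : 𝓞 K) : x ∈ v.maximalIdeal.asIdeal ↔ v (algebraMap (𝓞 K) K x) < 1 := by
  rw [← FinitePlace.norm_lt_one_iff_mem K, FinitePlace.norm_embedding_eq]

theorem liesOver_of_pow {K : Type*} [Field K] [NumberField K] {L : Type*} [Field L]
    [NumberField L] [Algebra K L] (w : FinitePlace L) (v : FinitePlace K) (k : ℕ) (hk : 1 ≤ k)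
    (h : ∀ x : K, w (algebraMap K L x) = v x ^ k) :
    w.maximalIdeal.asIdeal.LiesOver v.maximalIdeal.asIdeal := by
  constructor
  ext x
  rw [Ideal.mem_under, mem_maximalIdeal_iff, mem_maximalIdeal_iff,
    ← IsScalarTower.algebraMap_apply (𝓞 K) (𝓞 L) L, IsScalarTower.algebraMap_apply (𝓞 K) K L, h]
  have h0 : 0 ≤ v (algebraMap (𝓞 K) K x) := by
    have := apply_nonneg v.1 (algebraMap (𝓞 K) K x)
    exact this
  exact (pow_lt_one_iff_of_nonneg h0 (by omega)).symm

theorem card_primesOver_le {K : Type*} [Field K] [NumberField K] (L : Type*) [Field L]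
    [NumberField L] [Algebra K L] (v : HeightOneSpectrum (𝓞 K)) :
    (IsDedekindDomain.primesOverFinset v.asIdeal (𝓞 L)).card ≤ finrank K L := by
  have hvmax : v.asIdeal.IsMaximal := v.isMaximal
  rw [← Ideal.sum_ramification_inertia (𝓞 L) K L v.ne_bot, Finset.card_eq_sum_ones]
  refine Finset.sum_le_sum fun P hP => ?_
  have hP' := (IsDedekindDomain.mem_primesOverFinset_iff v.ne_bot _).mp hP
  have hPp : P.IsPrime := hP'.1
  have hPl : P.LiesOver v.asIdeal := hP'.2
  have h0 : P ≠ ⊥ := Ideal.ne_bot_of_liesOver_of_ne_bot v.ne_bot P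
  have hPm : P.IsMaximal := hPp.isMaximal h0
  have he1 : v.asIdeal.ramificationIdx' P ≠ 0 :=
    Ideal.IsDedekindDomain.ramificationIdx'_ne_zero_of_liesOver P v.ne_bot
  have hf1 : v.asIdeal.inertiaDeg' P ≠ 0 := Ideal.inertiaDeg'_ne_zero v.asIdeal P
  exact Nat.one_le_iff_ne_zero.mpr (Nat.mul_ne_zero he1 hf1)

/-- The number of finite places of L above a finite set of places of K. -/
theorem places_above {K : Type*} [Field K] [NumberField K] (L : Type*) [Field L] [NumberField L]
    [Algebra K L] (B : Set (FinitePlace K)) (hB : B.Finite) (B' : Set (FinitePlace L))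
    (h : ∀ w ∈ B', ∃ v ∈ B, ∃ k, 1 ≤ k ∧ ∀ x : K, w (algebraMap K L x) = v x ^ k) :
    B'.Finite ∧ B'.ncard ≤ finrank K L * B.ncard := by
  classical
  let f : FinitePlace L → Ideal (𝓞 L) := fun w => w.maximalIdeal.asIdeal
  have hf : Function.Injective f := fun a b hab =>
    FinitePlace.maximalIdeal_injective (HeightOneSpectrum.ext hab)
  let U : Finset (Ideal (𝓞 L)) := hB.toFinset.biUnion
    fun v => IsDedekindDomain.primesOverFinset v.maximalIdeal.asIdeal (𝓞 L)
  have hsub : f '' B' ⊆ (U : Set (Ideal (𝓞 L))) := by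
    rintro _ ⟨w, hw, rfl⟩
    obtain ⟨v, hv, k, hk, hkx⟩ := h w hw
    have hl := liesOver_of_pow w v k hk hkx
    simp only [U, Finset.coe_biUnion, Set.mem_iUnion, Finset.mem_coe]
    refine ⟨v, hB.mem_toFinset.mpr hv, ?_⟩
    exact (IsDedekindDomain.mem_primesOverFinset_iff v.maximalIdeal.ne_bot _).mpr
      ⟨w.maximalIdeal.isPrime, hl⟩
  have hfin : (f '' B').Finite := U.finite_toSet.subset hsub
  refine ⟨hfin.of_finite_image hf.injOn, ?_⟩
  rw [← Set.ncard_image_of_injective B' hf]
  refine (Set.ncard_le_ncard hsub U.finite_toSet).trans ?_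
  rw [Set.ncard_coe_finset]
  refine Finset.card_biUnion_le.trans ?_
  refine (Finset.sum_le_sum fun v _ => card_primesOver_le L v.maximalIdeal).trans ?_
  rw [Finset.sum_const, smul_eq_mul, mul_comm, Set.ncard_eq_toFinset_card B hB]

end Pool.Agent.H.MP_0e6b5f_nt.Eng
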