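import Pool.Agent.H.MP_0e6b5f_nt.Eng.Asm
import Pool.Agent.H.MP_0e6b5f_nt.Eng.Places
import Pool.Agent.H.MP_0e6b5f_nt.Eng.GoodRoots
import Pool.Agent.H.MP_0e6b5f_nt.Eng.ExtField

/-!
# The bound for all Henon maps
-/

namespace Pool.Agent.H.MP_0e6b5f_nt.Eng

open Pool.Agent.H.MP_0e6b5f_nt.Dom
open NumberField Module Polynomial
open Height Height.AdmissibleAbsValues Function Real

theorem goodAt_of_pow {K L : Type*} [Field K] [Field L] [Algebra K L] (F : K[X]) (δ : K)
    (v : AbsoluteValue K ℝ) (w : AbsoluteValue L ℝ) {k : ℕ}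
    (h : ∀ x : K, w (algebraMap K L x) = v x ^ k) (hg : GoodAt v F δ) :
    GoodAt w (F.map (algebraMap K L)) (algebraMap K L δ) := by
  have h1 : max 1 (w (algebraMap K L δ)) = (max 1 (v δ)) ^ k := by
    rw [h]
    rcases le_total 1 (v δ) with h1 | h1
    · rw [max_eq_right h1, max_eq_right (one_le_pow₀ h1)]
    · rw [max_eq_left h1, max_eq_left (pow_le_one₀ (v.nonneg _) h1), one_pow]
  constructor
  · rw [leadingCoeff_map, h, hg.1, h1]
  · intro i
    rw [coeff_map, h, h1]
    exact pow_le_pow_left₀ (v.nonneg _) (hg.2 i) k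

theorem hen_map {K L : Type*} [Field K] [Field L] [Algebra K L] (F : K[X]) (δ : K) (n : ℕ)
    (P : K × K) :
    (hen (F.map (algebraMap K L)) (algebraMap K L δ))^[n]
      (algebraMap K L P.1, algebraMap K L P.2) =
      (algebraMap K L ((hen F δ)^[n] P).1, algebraMap K L ((hen F δ)^[n] P).2) := by
  induction n with
  | zero => rfl
  | succ n ih =>
    rw [iterate_succ_apply', iterate_succ_apply', ih]
    simp only [hen, Prod.mk.injEq, true_and]
    rw [eval_map_algebraMap, aeval_algebraMap_apply_eq_algebraMap_eval, map_sub, map_mul]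

/-- The bound for all Henon maps of degree `d` over number fields of degree `D`. -/
theorem main_bound (D d : ℕ) (hd : 2 ≤ d) : ∃ C : ℝ, ∀ (K : Type*) [Field K] [NumberField K],
    finrank ℚ K = D → ∀ (F : K[X]) (δ : K), F.natDegree = d → δ ≠ 0 →
      (badPlaces F δ).Finite ∧ (perRat F δ).Finite ∧
      ((perRat F δ).ncard : ℝ) ≤ C * ((1 + (badPlaces F δ).ncard + logHeight₁ δ) *
        (1 + log (1 + (badPlaces F δ).ncard + logHeight₁ δ))) ^ 4 := by
  classical
  choose Cf hCf0 hCf using fun N : ℕ => asm N d hd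
  refine ⟨∑ n ∈ Finset.range ((3 * d).factorial + 1), Cf (D * n) * (n * (1 + log n)) ^ 4, ?_⟩
  intro K _ _ hK F δ hF hδ
  have hF0 : F ≠ 0 := by
    rintro rfl
    rw [natDegree_zero] at hF
    omega
  have hbf : (badPlaces F δ).Finite := by
    refine (naiveBad_finite hF0 hδ).subset ?_
    rintro v ⟨L, hL, w, k, hk, hvk, hfar⟩
    intro hg
    refine not_far (by rw [natDegree_map]; omega) w.val ?_
      (goodAt_of_pow F δ v.val w.val hvk hg) hfar
    exact isNonarchimedean w.val w.isFinitePlace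
  refine ⟨hbf, ?_⟩
  set s := (badPlaces F δ).ncard with hs
  set h := logHeight₁ δ with hh
  set Y : ℝ := 1 + s + h with hY
  have hh0 : 0 ≤ h := zero_le_logHeight₁ δ
  have hs0 : (0 : ℝ) ≤ s := Nat.cast_nonneg s
  have hY1 : 1 ≤ Y := by rw [hY]; linarith
  have hlogY : 0 ≤ log Y := log_nonneg hY1
  apply finite_of_finset_card_le
  intro T hT
  obtain ⟨L, hL, c, μ, ζ, hn, hc, hμ, hFL⟩ := exists_ext hd F hF δ
  have hfdL : FiniteDimensional ℚ L := FiniteDimensional.trans ℚ K L
  have hnf : NumberField L := { to_charZero := inferInstance, to_finiteDimensional := hfdL }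
  set n := finrank K L with hndef
  have hn1 : 1 ≤ n := Module.finrank_pos
  have hdeg : finrank ℚ L = D * n := by
    rw [← Module.finrank_mul_finrank ℚ K L, hK]
  have hδL : algebraMap K L δ ≠ 0 := (_root_.map_ne_zero _).mpr hδ
  -- bad places of the extension
  have hbad : {v : FinitePlace L | 1 < rho (fun i => c * ζ i) μ v.val}.ncard ≤ n * s := by
    refine (places_above (K := K) L (badPlaces F δ) hbf _ ?_).2
    intro w hw
    obtain ⟨v, k, hk, hvk⟩ := exists_place_under (K := K) w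
    refine ⟨v, ⟨L, hnf, w, k, hk, hvk, ?_⟩, k, hk, hvk⟩
    rw [hFL]
    exact far_of_rho hd hc ζ hμ w.val hw
  -- the points in the extension
  set T' : Finset (L × L) := T.image (fun P => (algebraMap K L P.1, algebraMap K L P.2)) with hT'
  have hinj : Function.Injective (fun P : K × K => (algebraMap K L P.1, algebraMap K L P.2)) := by
    intro P Q hPQ
    rw [Prod.mk.injEq] at hPQ
    exact Prod.ext ((algebraMap K L).injective hPQ.1) ((algebraMap K L).injective hPQ.2)
  have hcard : T'.card = T.card := Finset.card_image_of_injective _ hinj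
  have hper : ∀ P ∈ T', ∃ n, 1 ≤ n ∧
      (hen (fixPoly c (algebraMap K L δ) ζ) (algebraMap K L δ))^[n] P = P := by
    intro P hP
    rw [hT', Finset.mem_image] at hP
    obtain ⟨Q, hQ, rfl⟩ := hP
    obtain ⟨k, hk, hQk⟩ := hT Q hQ
    refine ⟨k, hk, ?_⟩
    have hQk' : (hen F δ)^[k] Q = Q := hQk
    rw [← hFL, hen_map, hQk']
  have h1 := hCf (D * n) L hdeg c (algebraMap K L δ) μ ζ hc hδL hμ (n * s) hbad T' hper
  rw [hcard] at h1
  have hlogL : logHeight₁ (algebraMap K L δ) = n * h := by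
    rw [logHeight₁, mulHeight₁_ext, log_pow]
    rfl
  rw [hlogL] at h1
  have hn1' : (1 : ℝ) ≤ n := by exact_mod_cast hn1
  have hZ : 1 + ((n * s : ℕ) : ℝ) + n * h ≤ n * Y := by
    rw [hY]; push_cast; nlinarith
  have hZ1 : 1 ≤ 1 + ((n * s : ℕ) : ℝ) + n * h := by
    push_cast
    have : 0 ≤ (n : ℝ) * s + n * h := by positivity
    linarith
  have h2 := scale4 hn1' hY1 hZ1 hZ
  have h3 : Cf (D * n) * (n * (1 + log n)) ^ 4 ≤
      ∑ n ∈ Finset.range ((3 * d).factorial + 1), Cf (D * n) * (n * (1 + log n)) ^ 4 := by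
    refine Finset.single_le_sum (f := fun n : ℕ => Cf (D * n) * ((n : ℝ) * (1 + log n)) ^ 4)
      (fun i _ => ?_) (Finset.mem_range.mpr (by omega))
    exact mul_nonneg (hCf0 _) (by positivity)
  calc (T.card : ℝ) ≤ Cf (D * n) * ((1 + ((n * s : ℕ) : ℝ) + n * h) *
        (1 + log (1 + ((n * s : ℕ) : ℝ) + n * h))) ^ 4 := h1
    _ ≤ Cf (D * n) * ((n * (1 + log n)) ^ 4 * (Y * (1 + log Y)) ^ 4) :=
        mul_le_mul_of_nonneg_left h2 (hCf0 _)
    _ = Cf (D * n) * (n * (1 + log n)) ^ 4 * (Y * (1 + log Y)) ^ 4 := by ring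
    _ ≤ _ := mul_le_mul_of_nonneg_right h3 (by positivity)

end Pool.Agent.H.MP_0e6b5f_nt.Eng
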