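import Mathlib

/-!
# Sums over lattice points of a triangle
-/

namespace Pool.Agent.H.MP_0e6b5f_nt.Eng

/-- `2 g max(t,0) ≤ max(t+g,0)^2 - max(t,0)^2`. -/
theorem pos_step {g t : ℝ} (hg : 0 < g) :
    2 * g * max t 0 ≤ (max (t + g) 0) ^ 2 - (max t 0) ^ 2 := by
  rcases le_total t 0 with h | h
  · rw [max_eq_right h]
    nlinarith [sq_nonneg (max (t + g) 0)]
  · rw [max_eq_left h, max_eq_left (by linarith)]
    nlinarith

theorem pos_step3 {g t : ℝ} (hg : 0 < g) :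
    3 * g * (max t 0) ^ 2 ≤ (max (t + g) 0) ^ 3 - (max t 0) ^ 3 := by
  rcases le_total t 0 with h | h
  · rw [max_eq_right h]
    have : 0 ≤ (max (t + g) 0) ^ 3 := pow_nonneg (le_max_right _ _) 3
    nlinarith
  · rw [max_eq_left h, max_eq_left (by linarith)]
    have h1 : 0 ≤ g ^ 2 * t := by positivity
    have h2 : 0 ≤ g ^ 3 := by positivity
    nlinarith

theorem neg_step {g t : ℝ} (hg : 0 < g) :
    (max t 0) ^ 2 - (max (t - g) 0) ^ 2 ≤ 2 * g * max t 0 := by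
  rcases le_total t 0 with h | h
  · rw [max_eq_right h, max_eq_right (by linarith)]
    simp
  · rw [max_eq_left h]
    rcases le_total t g with h2 | h2
    · rw [max_eq_right (by linarith)]; nlinarith
    · rw [max_eq_left (by linarith)]; nlinarith [sq_nonneg g]

theorem neg_step3 {g t : ℝ} (hg : 0 < g) :
    (max t 0) ^ 3 - (max (t - g) 0) ^ 3 ≤ 3 * g * (max t 0) ^ 2 := by
  rcases le_total t 0 with h | h
  · rw [max_eq_right h, max_eq_right (by linarith)]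
    simp
  · rw [max_eq_left h]
    rcases le_total t g with h2 | h2
    · rw [max_eq_right (by linarith)]
      have h3 : 0 ≤ t ^ 2 := by positivity
      nlinarith [mul_le_mul_of_nonneg_left h2 h3, mul_nonneg hg.le h3]
    · rw [max_eq_left (by linarith)]
      have h3 : 0 ≤ g ^ 2 * (t - g) := mul_nonneg (by positivity) (by linarith)
      have h4 : 0 ≤ g ^ 2 * t := by positivity
      nlinarith

theorem sum_pos_le {g : ℝ} (hg : 0 < g) (U : ℝ) (n : ℕ) :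
    ∑ a ∈ Finset.range n, max (U - g * a) 0 ≤ (max (U + g) 0) ^ 2 / (2 * g) := by
  have key : ∀ n : ℕ, 2 * g * ∑ a ∈ Finset.range n, max (U - g * a) 0 ≤
      (max (U + g) 0) ^ 2 - (max (U + g - g * n) 0) ^ 2 := by
    intro n
    induction n with
    | zero => simp
    | succ n ih =>
      rw [Finset.sum_range_succ, mul_add]
      have h1 := pos_step (t := U - g * n) hg
      have e1 : U - g * (n : ℝ) + g = U + g - g * n := by ring
      have e2 : U + g - g * ((n + 1 : ℕ) : ℝ) = U - g * n := by push_cast; ring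
      rw [e1] at h1
      rw [e2]
      linarith
  rw [le_div_iff₀ (by positivity)]
  have h1 := key n
  nlinarith [sq_nonneg (max (U + g - g * (n : ℝ)) 0)]

theorem sum_sq_le {g : ℝ} (hg : 0 < g) (U : ℝ) (n : ℕ) :
    ∑ a ∈ Finset.range n, (max (U - g * a) 0) ^ 2 ≤ (max (U + g) 0) ^ 3 / (3 * g) := by
  have key : ∀ n : ℕ, 3 * g * ∑ a ∈ Finset.range n, (max (U - g * a) 0) ^ 2 ≤
      (max (U + g) 0) ^ 3 - (max (U + g - g * n) 0) ^ 3 := by
    intro n
    induction n with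
    | zero => simp
    | succ n ih =>
      rw [Finset.sum_range_succ, mul_add]
      have h1 := pos_step3 (t := U - g * n) hg
      have e1 : U - g * (n : ℝ) + g = U + g - g * n := by ring
      have e2 : U + g - g * ((n + 1 : ℕ) : ℝ) = U - g * n := by push_cast; ring
      rw [e1] at h1
      rw [e2]
      linarith
  rw [le_div_iff₀ (by positivity)]
  have h1 := key n
  have h2 : 0 ≤ (max (U + g - g * (n : ℝ)) 0) ^ 3 := pow_nonneg (le_max_right _ _) 3
  nlinarith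

/-- Upper bound for the lattice sum. -/
theorem lattice_upper {a₁ a₂ T : ℝ} (h1 : 0 < a₁) (h2 : 0 < a₂) (hT : 0 ≤ T)
    (s : Finset (ℕ × ℕ)) :
    ∑ p ∈ s, max (T - (a₁ * p.1 + a₂ * p.2)) 0 ≤ (T + a₁ + a₂) ^ 3 / (6 * a₁ * a₂) := by
  obtain ⟨n, hn⟩ : ∃ n, s ⊆ Finset.range n ×ˢ Finset.range n := by
    refine ⟨s.sup (fun p => p.1 + p.2) + 1, fun p hp => ?_⟩
    have h3 : p.1 + p.2 ≤ s.sup (fun p => p.1 + p.2) := Finset.le_sup (f := fun p => p.1 + p.2) hp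
    rw [Finset.mem_product, Finset.mem_range, Finset.mem_range]
    omega
  refine (Finset.sum_le_sum_of_subset_of_nonneg hn (fun _ _ _ => le_max_right _ _)).trans ?_
  rw [Finset.sum_product_right]
  have h3 : ∀ y ∈ Finset.range n, ∑ x ∈ Finset.range n, max (T - (a₁ * (x : ℝ) + a₂ * y)) 0 ≤
      (max ((T + a₁) - a₂ * y) 0) ^ 2 / (2 * a₁) := by
    intro y _
    have := sum_pos_le h1 (T - a₂ * y) n
    have e1 : T - a₂ * (y : ℝ) + a₁ = (T + a₁) - a₂ * y := by ring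
    rw [e1] at this
    refine le_trans (le_of_eq (Finset.sum_congr rfl (fun x _ => ?_))) this
    congr 1
    ring
  refine (Finset.sum_le_sum h3).trans ?_
  rw [← Finset.sum_div, div_le_iff₀ (by positivity)]
  refine (sum_sq_le h2 (T + a₁) n).trans ?_
  rw [max_eq_left (by linarith)]
  apply le_of_eq
  field_simp
  ring

theorem sum_pos_ge {g : ℝ} (hg : 0 < g) (U : ℝ) (n : ℕ) (hn : U ≤ g * n) :
    (max U 0) ^ 2 / (2 * g) ≤ ∑ a ∈ Finset.range n, max (U - g * a) 0 := by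
  have key : ∀ n : ℕ, (max U 0) ^ 2 - (max (U - g * n) 0) ^ 2 ≤
      2 * g * ∑ a ∈ Finset.range n, max (U - g * a) 0 := by
    intro n
    induction n with
    | zero => simp
    | succ n ih =>
      rw [Finset.sum_range_succ, mul_add]
      have h1 := neg_step (t := U - g * n) hg
      have e2 : U - g * ((n + 1 : ℕ) : ℝ) = U - g * n - g := by push_cast; ring
      rw [e2]
      linarith
  rw [div_le_iff₀ (by positivity)]
  have h1 := key n
  rw [max_eq_right (by linarith : U - g * (n : ℝ) ≤ 0)] at h1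
  nlinarith

theorem sum_sq_ge {g : ℝ} (hg : 0 < g) (U : ℝ) (n : ℕ) (hn : U ≤ g * n) :
    (max U 0) ^ 3 / (3 * g) ≤ ∑ a ∈ Finset.range n, (max (U - g * a) 0) ^ 2 := by
  have key : ∀ n : ℕ, (max U 0) ^ 3 - (max (U - g * n) 0) ^ 3 ≤
      3 * g * ∑ a ∈ Finset.range n, (max (U - g * a) 0) ^ 2 := by
    intro n
    induction n with
    | zero => simp
    | succ n ih =>
      rw [Finset.sum_range_succ, mul_add]
      have h1 := neg_step3 (t := U - g * n) hg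
      have e2 : U - g * ((n + 1 : ℕ) : ℝ) = U - g * n - g := by push_cast; ring
      rw [e2]
      linarith
  rw [div_le_iff₀ (by positivity)]
  have h1 := key n
  rw [max_eq_right (by linarith : U - g * (n : ℝ) ≤ 0)] at h1
  nlinarith

/-- Lower bound for the lattice sum. -/
theorem lattice_lower {b₁ b₂ T : ℝ} (h1 : 0 < b₁) (h2 : 0 < b₂) (hT : 0 ≤ T)
    (S : Finset (ℕ × ℕ)) (hS : ∀ p : ℕ × ℕ, p ∈ S ↔ b₁ * p.1 + b₂ * p.2 ≤ T) :
    T ^ 3 / (6 * b₁ * b₂) ≤ ∑ p ∈ S, (T - (b₁ * p.1 + b₂ * p.2)) := by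
  obtain ⟨n, hn, hn1, hn2⟩ : ∃ n : ℕ, S ⊆ Finset.range n ×ˢ Finset.range n ∧ T ≤ b₁ * n ∧
      T ≤ b₂ * n := by
    refine ⟨(S.sup (fun p => p.1 + p.2) + 1) + (⌈T / b₁⌉₊ + ⌈T / b₂⌉₊), fun p hp => ?_, ?_, ?_⟩
    · have h3 : p.1 + p.2 ≤ S.sup (fun p => p.1 + p.2) :=
        Finset.le_sup (f := fun p => p.1 + p.2) hp
      rw [Finset.mem_product, Finset.mem_range, Finset.mem_range]
      omega
    · have h3 := Nat.le_ceil (T / b₁)
      rw [div_le_iff₀ h1] at h3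
      push_cast
      have h4 : (0 : ℝ) ≤ (S.sup (fun p => p.1 + p.2) : ℕ) := Nat.cast_nonneg _
      have h5 : (0 : ℝ) ≤ (⌈T / b₂⌉₊ : ℕ) := Nat.cast_nonneg _
      nlinarith
    · have h3 := Nat.le_ceil (T / b₂)
      rw [div_le_iff₀ h2] at h3
      push_cast
      have h4 : (0 : ℝ) ≤ (S.sup (fun p => p.1 + p.2) : ℕ) := Nat.cast_nonneg _
      have h5 : (0 : ℝ) ≤ (⌈T / b₁⌉₊ : ℕ) := Nat.cast_nonneg _
      nlinarith
  have hsum : ∑ p ∈ S, (T - (b₁ * p.1 + b₂ * p.2)) =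
      ∑ p ∈ Finset.range n ×ˢ Finset.range n, max (T - (b₁ * (p.1 : ℝ) + b₂ * p.2)) 0 := by
    rw [← Finset.sum_subset hn]
    · refine Finset.sum_congr rfl (fun p hp => ?_)
      rw [max_eq_left]
      have := (hS p).mp hp
      linarith
    · intro p _ hp
      rw [hS, not_le] at hp
      exact max_eq_right (by linarith)
  rw [hsum, Finset.sum_product_right]
  have h3 : ∀ y ∈ Finset.range n, (max (T - b₂ * y) 0) ^ 2 / (2 * b₁) ≤
      ∑ x ∈ Finset.range n, max (T - (b₁ * (x : ℝ) + b₂ * y)) 0 := by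
    intro y _
    have hy : (0 : ℝ) ≤ b₂ * y := by positivity
    have := sum_pos_ge h1 (T - b₂ * y) n (by linarith)
    refine this.trans (le_of_eq (Finset.sum_congr rfl (fun x _ => ?_)))
    congr 1
    ring
  refine le_trans ?_ (Finset.sum_le_sum h3)
  rw [← Finset.sum_div, le_div_iff₀ (by positivity)]
  refine le_trans ?_ (sum_sq_ge h2 T n hn2)
  rw [max_eq_left hT]
  apply le_of_eq
  field_simp
  ring

/-- The weights of an index triangle compared with the weights of any other family of distinct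
indices of the same size. -/
theorem gap {b₁ b₂ a₁ a₂ T : ℝ} (hb1 : 0 < b₁) (hb2 : 0 < b₂) (ha1 : 0 < a₁) (ha2 : 0 < a₂)
    (hT : 0 ≤ T) (S : Finset (ℕ × ℕ)) (hS : ∀ p : ℕ × ℕ, p ∈ S ↔ b₁ * p.1 + b₂ * p.2 ≤ T)
    {ι : Type*} [Fintype ι] (e : ι ≃ S) (τ : ι → ℕ × ℕ) (hτ : Function.Injective τ) :
    ∑ i, (b₁ * ((e i).1.1 : ℝ) + b₂ * ((e i).1.2 : ℝ)) -
      ∑ i, (a₁ * ((τ i).1 : ℝ) + a₂ * ((τ i).2 : ℝ)) ≤
      (T + a₁ + a₂) ^ 3 / (6 * a₁ * a₂) - T ^ 3 / (6 * b₁ * b₂) := by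
  classical
  have h1 := lattice_lower hb1 hb2 hT S hS
  have h2 := lattice_upper ha1 ha2 hT (Finset.univ.image τ)
  rw [Finset.sum_image (fun _ _ _ _ h => hτ h)] at h2
  have h3 : ∑ p ∈ S, (T - (b₁ * (p.1 : ℝ) + b₂ * p.2)) =
      ∑ i, (T - (b₁ * ((e i).1.1 : ℝ) + b₂ * ((e i).1.2 : ℝ))) := by
    rw [← Finset.sum_coe_sort S]
    exact (Equiv.sum_comp e (fun p : S => T - (b₁ * (p.1.1 : ℝ) + b₂ * p.1.2))).symm
  rw [h3, Finset.sum_sub_distrib] at h1
  have h4 : ∑ i, (T - (a₁ * ((τ i).1 : ℝ) + a₂ * ((τ i).2 : ℝ))) ≤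
      ∑ i, max (T - (a₁ * ((τ i).1 : ℝ) + a₂ * ((τ i).2 : ℝ))) 0 :=
    Finset.sum_le_sum (fun i _ => le_max_left _ _)
  rw [Finset.sum_sub_distrib] at h4
  linarith

/-- The index triangle. -/
noncomputable def idx (b₁ b₂ T : ℝ) : Finset (ℕ × ℕ) :=
  (Finset.range (⌊T / b₁⌋₊ + 1) ×ˢ Finset.range (⌊T / b₂⌋₊ + 1)).filter
    (fun p => b₁ * (p.1 : ℝ) + b₂ * p.2 ≤ T)

theorem mem_idx {b₁ b₂ T : ℝ} (h1 : 0 < b₁) (h2 : 0 < b₂) (p : ℕ × ℕ) :
    p ∈ idx b₁ b₂ T ↔ b₁ * p.1 + b₂ * p.2 ≤ T := by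
  rw [idx, Finset.mem_filter, Finset.mem_product, Finset.mem_range, Finset.mem_range]
  refine ⟨fun h => h.2, fun h => ⟨⟨?_, ?_⟩, h⟩⟩
  · apply Nat.lt_succ_of_le
    apply Nat.le_floor
    rw [le_div_iff₀ h1]
    have : 0 ≤ b₂ * (p.2 : ℝ) := by positivity
    linarith
  · apply Nat.lt_succ_of_le
    apply Nat.le_floor
    rw [le_div_iff₀ h2]
    have : 0 ≤ b₁ * (p.1 : ℝ) := by positivity
    linarith

theorem card_idx_le {b₁ b₂ T : ℝ} (h1 : 0 < b₁) (h2 : 0 < b₂) (hT : 0 ≤ T) :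
    ((idx b₁ b₂ T).card : ℝ) ≤ (T / b₁ + 1) * (T / b₂ + 1) := by
  have h3 : (idx b₁ b₂ T).card ≤ (⌊T / b₁⌋₊ + 1) * (⌊T / b₂⌋₊ + 1) := by
    refine (Finset.card_filter_le _ _).trans ?_
    rw [Finset.card_product, Finset.card_range, Finset.card_range]
  have h4 : ((idx b₁ b₂ T).card : ℝ) ≤ ((⌊T / b₁⌋₊ : ℝ) + 1) * ((⌊T / b₂⌋₊ : ℝ) + 1) := by
    exact_mod_cast h3
  refine h4.trans (mul_le_mul ?_ ?_ (by positivity) (by positivity))
  · have := Nat.floor_le (div_nonneg hT h1.le); linarith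
  · have := Nat.floor_le (div_nonneg hT h2.le); linarith

end Pool.Agent.H.MP_0e6b5f_nt.Eng
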