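import Pool.Agent.H.MP_0e6b5f_nt.Eng.Defs

/-!
# Norms on polynomials in two variables and interpolation determinants
-/

namespace Pool.Agent.H.MP_0e6b5f_nt.Eng

open Pool.Agent.H.MP_0e6b5f_nt.Dom
open Polynomial

variable {K : Type*} [Field K]

/-- The determinant is multilinear in the rows. -/
private theorem norm_det_expand {n : ℕ} {κ : Type*} [DecidableEq κ] (A : Finset κ)
    (β : Fin n → κ → K) (m : κ → Fin n → K) :
    (Matrix.of (fun i j => ∑ a ∈ A, β i a * m a j)).det =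
      ∑ r ∈ Fintype.piFinset (fun _ : Fin n => A),
        (∏ i, β i (r i)) * (Matrix.of (fun i j => m (r i) j)).det := by
  have h := (Matrix.detRowAlternating (R := K) (n := Fin n)).toMultilinearMap.map_sum_finset
    (fun (i : Fin n) (a : κ) => β i a • m a) (fun _ => A)
  have hl : (Matrix.of (fun i j => ∑ a ∈ A, β i a * m a j)).det =
      (Matrix.detRowAlternating (R := K) (n := Fin n)).toMultilinearMap
        (fun i => ∑ a ∈ A, β i a • m a) := by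
    show _ = Matrix.det _
    congr 1
    ext i j
    simp [Matrix.of_apply, Finset.sum_apply]
  rw [hl, h]
  refine Finset.sum_congr rfl fun r _ => ?_
  rw [MultilinearMap.map_smul_univ, smul_eq_mul]
  rfl

private theorem norm_term_zero {n : ℕ} {κ : Type*} (m : κ → Fin n → K) {r : Fin n → κ}
    (hr : ¬ Function.Injective r) : (Matrix.of (fun i j => m (r i) j)).det = 0 := by
  have hr' : ∃ a b, r a = r b ∧ a ≠ b := by
    by_contra hcon
    push Not at hcon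
    exact hr (fun a b hab => hcon a b hab)
  obtain ⟨i, j, hij, hne⟩ := hr'
  refine Matrix.det_zero_of_row_eq hne ?_
  ext k
  simp [Matrix.of_apply, hij]

private theorem norm_prod_le {n : ℕ} {κ : Type*} {A : Finset κ} {w ρ : κ → ℝ}
    (hρ : ∀ a ∈ A, 0 < ρ a) {G : ℝ}
    (hG : ∀ τ : Fin n → κ, Function.Injective τ → (∀ i, τ i ∈ A) →
      ∏ i, (w (τ i) / ρ (τ i)) ≤ G) {r : Fin n → κ} (hr : Function.Injective r)
    (hA : ∀ i, r i ∈ A) : ∏ i, w (r i) ≤ (∏ i, ρ (r i)) * G := by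
  have h0 : 0 < ∏ i, ρ (r i) := Finset.prod_pos fun i _ => hρ _ (hA i)
  have h1 : ∏ i, w (r i) = (∏ i, ρ (r i)) * ∏ i, (w (r i) / ρ (r i)) := by
    rw [← Finset.prod_mul_distrib]
    refine Finset.prod_congr rfl fun i _ => ?_
    rw [mul_div_cancel₀ _ (hρ _ (hA i)).ne']
  rw [h1]
  exact mul_le_mul_of_nonneg_left (hG r hr hA) h0.le

/-- Expansion of an interpolation determinant at an archimedean place. -/
theorem det_expand_arch (v : AbsoluteValue K ℝ) {n : ℕ} {κ : Type*} (A : Finset κ)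
    (β : Fin n → κ → K) (m : κ → Fin n → K) (w ρ : κ → ℝ) (hρ : ∀ a ∈ A, 0 < ρ a)
    (hw : ∀ a ∈ A, ∀ j, v (m a j) ≤ w a) {G : ℝ} (hG0 : 0 ≤ G)
    (hG : ∀ τ : Fin n → κ, Function.Injective τ → (∀ i, τ i ∈ A) →
      ∏ i, (w (τ i) / ρ (τ i)) ≤ G) :
    v (Matrix.of (fun i j => ∑ a ∈ A, β i a * m a j)).det ≤
      (n.factorial : ℝ) * ((∏ i, ∑ a ∈ A, v (β i a) * ρ a) * G) := by
  classical
  rw [norm_det_expand]
  refine (v.sum_le _ _).trans ?_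
  rw [Finset.prod_univ_sum, ← mul_assoc, Finset.mul_sum, Finset.sum_mul]
  refine Finset.sum_le_sum fun r hr => ?_
  have hA : ∀ i, r i ∈ A := fun i => Fintype.mem_piFinset.1 hr i
  rw [v.map_mul, map_prod, Finset.prod_mul_distrib]
  have hb0 : 0 ≤ ∏ i, v (β i (r i)) := Finset.prod_nonneg fun _ _ => v.nonneg _
  have hr0 : 0 ≤ ∏ i, ρ (r i) := Finset.prod_nonneg fun i _ => (hρ _ (hA i)).le
  by_cases hinj : Function.Injective r
  · have h1 : v (Matrix.of (fun i j => m (r i) j)).det ≤ (n.factorial : ℝ) * ∏ k, w (r k) :=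
      det_le_arch v _ _ (fun k P => hw _ (hA k) P)
    have h2 := norm_prod_le hρ hG hinj hA
    have h3 := h1.trans (mul_le_mul_of_nonneg_left h2 (Nat.cast_nonneg _))
    refine (mul_le_mul_of_nonneg_left h3 hb0).trans (le_of_eq ?_)
    ring
  · rw [norm_term_zero m hinj, v.map_zero, mul_zero]
    positivity

/-- Expansion of an interpolation determinant at a nonarchimedean place. -/
theorem det_expand_nonarch (v : AbsoluteValue K ℝ) (hv : IsNonarchimedean v) {n : ℕ} {κ : Type*}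
    (A : Finset κ) (β : Fin n → κ → K) (m : κ → Fin n → K) (w ρ : κ → ℝ) (hρ : ∀ a ∈ A, 0 < ρ a)
    (hw : ∀ a ∈ A, ∀ j, v (m a j) ≤ w a) {G : ℝ} (hG0 : 0 ≤ G)
    (hG : ∀ τ : Fin n → κ, Function.Injective τ → (∀ i, τ i ∈ A) →
      ∏ i, (w (τ i) / ρ (τ i)) ≤ G) (N : Fin n → ℝ) (hN : ∀ i, 0 ≤ N i)
    (hβ : ∀ i, ∀ a ∈ A, v (β i a) * ρ a ≤ N i) :
    v (Matrix.of (fun i j => ∑ a ∈ A, β i a * m a j)).det ≤ (∏ i, N i) * G := by
  classical
  rw [norm_det_expand]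
  have hR : 0 ≤ (∏ i, N i) * G := mul_nonneg (Finset.prod_nonneg fun i _ => hN i) hG0
  rcases (Fintype.piFinset (fun _ : Fin n => A)).eq_empty_or_nonempty with he | hne
  · rw [he, Finset.sum_empty, v.map_zero]
    exact hR
  obtain ⟨r, hr, h⟩ := IsNonarchimedean.finset_image_add_of_nonempty hv
    (fun r : Fin n → κ => (∏ i, β i (r i)) * (Matrix.of (fun i j => m (r i) j)).det) hne
  refine h.trans ?_
  have hA : ∀ i, r i ∈ A := fun i => Fintype.mem_piFinset.1 hr i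
  rw [v.map_mul, map_prod]
  by_cases hinj : Function.Injective r
  · have h1 : v (Matrix.of (fun i j => m (r i) j)).det ≤ ∏ k, w (r k) :=
      det_le_nonarch v hv _ _ (fun k P => hw _ (hA k) P)
    have h2 := norm_prod_le hρ hG hinj hA
    have hb0 : 0 ≤ ∏ i, v (β i (r i)) := Finset.prod_nonneg fun _ _ => v.nonneg _
    calc (∏ i, v (β i (r i))) * v (Matrix.of (fun i j => m (r i) j)).det
        ≤ (∏ i, v (β i (r i))) * ((∏ i, ρ (r i)) * G) :=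
          mul_le_mul_of_nonneg_left (h1.trans h2) hb0
      _ = (∏ i, (v (β i (r i)) * ρ (r i))) * G := by rw [Finset.prod_mul_distrib]; ring
      _ ≤ (∏ i, N i) * G := by
        refine mul_le_mul_of_nonneg_right ?_ hG0
        exact Finset.prod_le_prod (fun i _ => mul_nonneg (v.nonneg _) (hρ _ (hA i)).le)
          (fun i _ => hβ i _ (hA i))
  · rw [norm_term_zero m hinj, v.map_zero, mul_zero]
    exact hR

/-- The weight of an exponent. -/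
private noncomputable def norm_wt (ρ₁ ρ₂ : ℝ) (a : Fin 2 →₀ ℕ) : ℝ := ρ₁ ^ (a 0) * ρ₂ ^ (a 1)

private theorem norm_wt_pos {ρ₁ ρ₂ : ℝ} (h1 : 0 < ρ₁) (h2 : 0 < ρ₂) (a : Fin 2 →₀ ℕ) :
    0 < norm_wt ρ₁ ρ₂ a := mul_pos (pow_pos h1 _) (pow_pos h2 _)

private theorem norm_wt_add (ρ₁ ρ₂ : ℝ) (a b : Fin 2 →₀ ℕ) :
    norm_wt ρ₁ ρ₂ (a + b) = norm_wt ρ₁ ρ₂ a * norm_wt ρ₁ ρ₂ b := by
  simp only [norm_wt, Finsupp.add_apply, pow_add]
  ring

private theorem norm_eval (p : MvPolynomial (Fin 2) K) (A : Finset (Fin 2 →₀ ℕ))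
    (hA : p.support ⊆ A) (x y : K) :
    MvPolynomial.eval ![x, y] p = ∑ a ∈ A, p.coeff a * (x ^ (a 0) * y ^ (a 1)) := by
  rw [MvPolynomial.eval_eq']
  simp only [Fin.prod_univ_two, Matrix.cons_val_zero, Matrix.cons_val_one]
  refine Finset.sum_subset hA fun a _ ha => ?_
  rw [MvPolynomial.notMem_support_iff.1 ha, zero_mul]

/-- The hypotheses of the expansion for polynomials in two variables. -/
private theorem norm_hw (v : AbsoluteValue K ℝ) {n : ℕ} {x y : Fin n → K} {r₁ r₂ : ℝ}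
    (hx : ∀ j, v (x j) ≤ r₁) (hy : ∀ j, v (y j) ≤ r₂) (a : Fin 2 →₀ ℕ) (j : Fin n) :
    v (x j ^ (a 0) * y j ^ (a 1)) ≤ r₁ ^ (a 0) * r₂ ^ (a 1) := by
  have h1 : 0 ≤ r₁ := (v.nonneg _).trans (hx j)
  rw [v.map_mul, v.map_pow, v.map_pow]
  exact mul_le_mul (pow_le_pow_left₀ (v.nonneg _) (hx j) _)
    (pow_le_pow_left₀ (v.nonneg _) (hy j) _) (pow_nonneg (v.nonneg _) _) (pow_nonneg h1 _)

private theorem norm_hG {n : ℕ} {r₁ r₂ ρ₁ ρ₂ G : ℝ}
    (hG : ∀ τ : Fin n → ℕ × ℕ, Function.Injective τ →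
      ∏ i, ((r₁ / ρ₁) ^ (τ i).1 * (r₂ / ρ₂) ^ (τ i).2) ≤ G)
    (τ : Fin n → (Fin 2 →₀ ℕ)) (hτ : Function.Injective τ) :
    ∏ i, (r₁ ^ (τ i 0) * r₂ ^ (τ i 1) / norm_wt ρ₁ ρ₂ (τ i)) ≤ G := by
  have h := hG (fun i => (τ i 0, τ i 1)) (by
    intro i j hij
    simp only [Prod.mk.injEq] at hij
    apply hτ
    ext k
    fin_cases k
    · exact hij.1
    · exact hij.2)
  refine le_trans (le_of_eq ?_) h
  refine Finset.prod_congr rfl fun i _ => ?_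
  simp only [norm_wt, div_pow]
  rw [div_mul_div_comm]

/-- The l1 norm. -/
private noncomputable def norm_l1 (v : AbsoluteValue K ℝ) (ρ₁ ρ₂ : ℝ)
    (p : MvPolynomial (Fin 2) K) : ℝ :=
  ∑ a ∈ p.support, v (p.coeff a) * norm_wt ρ₁ ρ₂ a

private theorem norm_l1_eq (v : AbsoluteValue K ℝ) (ρ₁ ρ₂ : ℝ) (p : MvPolynomial (Fin 2) K)
    {A : Finset (Fin 2 →₀ ℕ)} (hA : p.support ⊆ A) :
    norm_l1 v ρ₁ ρ₂ p = ∑ a ∈ A, v (p.coeff a) * norm_wt ρ₁ ρ₂ a := by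
  refine Finset.sum_subset hA fun a _ ha => ?_
  rw [MvPolynomial.notMem_support_iff.1 ha, v.map_zero, zero_mul]

private theorem norm_l1_nonneg (v : AbsoluteValue K ℝ) {ρ₁ ρ₂ : ℝ} (h1 : 0 < ρ₁) (h2 : 0 < ρ₂)
    (p : MvPolynomial (Fin 2) K) : 0 ≤ norm_l1 v ρ₁ ρ₂ p :=
  Finset.sum_nonneg fun a _ => mul_nonneg (v.nonneg _) (norm_wt_pos h1 h2 a).le

private theorem norm_l1_add (v : AbsoluteValue K ℝ) {ρ₁ ρ₂ : ℝ} (h1 : 0 < ρ₁) (h2 : 0 < ρ₂)
    (p q : MvPolynomial (Fin 2) K) :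
    norm_l1 v ρ₁ ρ₂ (p + q) ≤ norm_l1 v ρ₁ ρ₂ p + norm_l1 v ρ₁ ρ₂ q := by
  classical
  rw [norm_l1_eq v ρ₁ ρ₂ (p + q) MvPolynomial.support_add,
    norm_l1_eq v ρ₁ ρ₂ p Finset.subset_union_left,
    norm_l1_eq v ρ₁ ρ₂ q Finset.subset_union_right, ← Finset.sum_add_distrib]
  refine Finset.sum_le_sum fun a _ => ?_
  rw [MvPolynomial.coeff_add, ← add_mul]
  exact mul_le_mul_of_nonneg_right (v.add_le _ _) (norm_wt_pos h1 h2 a).le

private theorem norm_l1_zero (v : AbsoluteValue K ℝ) (ρ₁ ρ₂ : ℝ) :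
    norm_l1 v ρ₁ ρ₂ (0 : MvPolynomial (Fin 2) K) = 0 := by
  simp [norm_l1]

private theorem norm_l1_sum (v : AbsoluteValue K ℝ) {ρ₁ ρ₂ : ℝ} (h1 : 0 < ρ₁) (h2 : 0 < ρ₂)
    {α : Type*} (s : Finset α) (f : α → MvPolynomial (Fin 2) K) :
    norm_l1 v ρ₁ ρ₂ (∑ i ∈ s, f i) ≤ ∑ i ∈ s, norm_l1 v ρ₁ ρ₂ (f i) := by
  classical
  induction s using Finset.induction_on with
  | empty => simp [norm_l1_zero]
  | insert a s ha ih =>
    rw [Finset.sum_insert ha, Finset.sum_insert ha]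
    exact (norm_l1_add v h1 h2 _ _).trans (by gcongr)

private theorem norm_l1_monomial (v : AbsoluteValue K ℝ) (ρ₁ ρ₂ : ℝ) (a : Fin 2 →₀ ℕ) (c : K) :
    norm_l1 v ρ₁ ρ₂ (MvPolynomial.monomial a c) = v c * norm_wt ρ₁ ρ₂ a := by
  classical
  rw [norm_l1_eq v ρ₁ ρ₂ _ MvPolynomial.support_monomial_subset, Finset.sum_singleton,
    MvPolynomial.coeff_monomial, if_pos rfl]

private theorem norm_l1_mul (v : AbsoluteValue K ℝ) {ρ₁ ρ₂ : ℝ} (h1 : 0 < ρ₁) (h2 : 0 < ρ₂)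
    (p q : MvPolynomial (Fin 2) K) :
    norm_l1 v ρ₁ ρ₂ (p * q) ≤ norm_l1 v ρ₁ ρ₂ p * norm_l1 v ρ₁ ρ₂ q := by
  have h : p * q = ∑ a ∈ p.support, ∑ b ∈ q.support,
      MvPolynomial.monomial (a + b) (p.coeff a * q.coeff b) := by
    conv_lhs => rw [p.as_sum, q.as_sum, Finset.sum_mul_sum]
    refine Finset.sum_congr rfl fun a _ => Finset.sum_congr rfl fun b _ => ?_
    rw [MvPolynomial.monomial_mul]
  rw [h]
  refine (norm_l1_sum v h1 h2 _ _).trans ?_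
  rw [norm_l1, norm_l1, Finset.sum_mul_sum]
  refine Finset.sum_le_sum fun a _ => (norm_l1_sum v h1 h2 _ _).trans (le_of_eq ?_)
  refine Finset.sum_congr rfl fun b _ => ?_
  rw [norm_l1_monomial, norm_wt_add, v.map_mul]
  ring

/-- The l1 norm is an adapted norm. -/
theorem exists_PN_arch (v : AbsoluteValue K ℝ) {ρ₁ ρ₂ : ℝ} (h1 : 0 < ρ₁) (h2 : 0 < ρ₂) :
    ∃ N, PN v 2 ρ₁ ρ₂ (fun n => (n.factorial : ℝ)) N := by
  classical
  refine ⟨norm_l1 v ρ₁ ρ₂, ?_, ?_, ?_, ?_, ?_, ?_, ?_, ?_⟩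
  · exact norm_l1_nonneg v h1 h2
  · intro p q
    refine (norm_l1_add v h1 h2 p q).trans ?_
    linarith [le_max_left (norm_l1 v ρ₁ ρ₂ p) (norm_l1 v ρ₁ ρ₂ q),
      le_max_right (norm_l1 v ρ₁ ρ₂ p) (norm_l1 v ρ₁ ρ₂ q)]
  · intro p
    simp only [norm_l1, MvPolynomial.support_neg, MvPolynomial.coeff_neg, v.map_neg]
    exact le_rfl
  · exact norm_l1_mul v h1 h2
  · intro a
    have h := norm_l1_monomial v ρ₁ ρ₂ 0 a
    rw [MvPolynomial.C_apply, h]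
    simp [norm_wt]
  · have h := norm_l1_monomial v ρ₁ ρ₂ (Finsupp.single 0 1) 1
    rw [MvPolynomial.X, h]
    simp [norm_wt]
  · have h := norm_l1_monomial v ρ₁ ρ₂ (Finsupp.single 1 1) 1
    rw [MvPolynomial.X, h]
    simp [norm_wt]
  · intro n p x y r₁ r₂ G hx hy hG0 hG
    set A : Finset (Fin 2 →₀ ℕ) := Finset.univ.biUnion fun i => (p i).support with hAdef
    have hA : ∀ i, (p i).support ⊆ A := fun i =>
      Finset.subset_biUnion_of_mem (fun i => (p i).support) (Finset.mem_univ i)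
    have e1 : (fun i j => MvPolynomial.eval ![x j, y j] (p i)) =
        fun i j => ∑ a ∈ A, (p i).coeff a * (x j ^ (a 0) * y j ^ (a 1)) := by
      funext i j
      exact norm_eval (p i) A (hA i) (x j) (y j)
    have e2 : (∏ i, norm_l1 v ρ₁ ρ₂ (p i)) =
        ∏ i, ∑ a ∈ A, v ((p i).coeff a) * norm_wt ρ₁ ρ₂ a :=
      Finset.prod_congr rfl fun i _ => norm_l1_eq v ρ₁ ρ₂ (p i) (hA i)
    rw [e1, e2]
    exact det_expand_arch v A (fun i a => (p i).coeff a) (fun a j => x j ^ (a 0) * y j ^ (a 1))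
      (fun a => r₁ ^ (a 0) * r₂ ^ (a 1)) (norm_wt ρ₁ ρ₂) (fun a _ => norm_wt_pos h1 h2 a)
      (fun a _ j => norm_hw v hx hy a j) hG0 (fun τ hτ _ => norm_hG hG τ hτ)

/-- The Gauss norm. -/
private noncomputable def norm_g (v : AbsoluteValue K ℝ) (ρ₁ ρ₂ : ℝ)
    (p : MvPolynomial (Fin 2) K) : ℝ :=
  ((p.support.sup fun a => Real.toNNReal (v (p.coeff a) * norm_wt ρ₁ ρ₂ a) : NNReal) : ℝ)

private theorem norm_g_le (v : AbsoluteValue K ℝ) {ρ₁ ρ₂ : ℝ} {p : MvPolynomial (Fin 2) K} {c : ℝ}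
    (hc : 0 ≤ c) (h : ∀ a, v (p.coeff a) * norm_wt ρ₁ ρ₂ a ≤ c) : norm_g v ρ₁ ρ₂ p ≤ c := by
  rw [norm_g, ← Real.coe_toNNReal c hc, NNReal.coe_le_coe]
  exact Finset.sup_le fun a _ => Real.toNNReal_le_toNNReal (h a)

private theorem norm_g_nonneg (v : AbsoluteValue K ℝ) (ρ₁ ρ₂ : ℝ) (p : MvPolynomial (Fin 2) K) :
    0 ≤ norm_g v ρ₁ ρ₂ p := NNReal.coe_nonneg _

private theorem norm_le_g (v : AbsoluteValue K ℝ) {ρ₁ ρ₂ : ℝ} (h1 : 0 < ρ₁) (h2 : 0 < ρ₂)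
    (p : MvPolynomial (Fin 2) K) (a : Fin 2 →₀ ℕ) :
    v (p.coeff a) * norm_wt ρ₁ ρ₂ a ≤ norm_g v ρ₁ ρ₂ p := by
  by_cases ha : a ∈ p.support
  · have h0 : 0 ≤ v (p.coeff a) * norm_wt ρ₁ ρ₂ a :=
      mul_nonneg (v.nonneg _) (norm_wt_pos h1 h2 a).le
    rw [norm_g, ← Real.coe_toNNReal _ h0, NNReal.coe_le_coe]
    exact Finset.le_sup (f := fun a => Real.toNNReal (v (p.coeff a) * norm_wt ρ₁ ρ₂ a)) ha
  · rw [MvPolynomial.notMem_support_iff.1 ha, v.map_zero, zero_mul]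
    exact norm_g_nonneg v ρ₁ ρ₂ p

private theorem norm_g_monomial (v : AbsoluteValue K ℝ) {ρ₁ ρ₂ : ℝ} (h1 : 0 < ρ₁) (h2 : 0 < ρ₂)
    (a : Fin 2 →₀ ℕ) (c : K) :
    norm_g v ρ₁ ρ₂ (MvPolynomial.monomial a c) ≤ v c * norm_wt ρ₁ ρ₂ a := by
  classical
  have h0 : 0 ≤ v c * norm_wt ρ₁ ρ₂ a := mul_nonneg (v.nonneg _) (norm_wt_pos h1 h2 a).le
  refine norm_g_le v h0 fun b => ?_
  rw [MvPolynomial.coeff_monomial]
  by_cases hb : a = b
  · rw [if_pos hb, hb]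
  · rw [if_neg hb, v.map_zero, zero_mul]
    exact h0

/-- The Gauss norm is an adapted norm. -/
theorem exists_PN_nonarch (v : AbsoluteValue K ℝ) (hv : IsNonarchimedean v) {ρ₁ ρ₂ : ℝ}
    (h1 : 0 < ρ₁) (h2 : 0 < ρ₂) : ∃ N, PN v 1 ρ₁ ρ₂ (fun _ => 1) N := by
  classical
  refine ⟨norm_g v ρ₁ ρ₂, ?_, ?_, ?_, ?_, ?_, ?_, ?_, ?_⟩
  · exact norm_g_nonneg v ρ₁ ρ₂
  · intro p q
    rw [one_mul]
    refine norm_g_le v ((norm_g_nonneg v ρ₁ ρ₂ p).trans (le_max_left _ _)) fun a => ?_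
    rw [MvPolynomial.coeff_add]
    have hw := (norm_wt_pos h1 h2 a).le
    rcases le_max_iff.1 (hv (p.coeff a) (q.coeff a)) with h | h
    · exact ((mul_le_mul_of_nonneg_right h hw).trans (norm_le_g v h1 h2 p a)).trans
        (le_max_left _ _)
    · exact ((mul_le_mul_of_nonneg_right h hw).trans (norm_le_g v h1 h2 q a)).trans
        (le_max_right _ _)
  · intro p
    refine norm_g_le v (norm_g_nonneg v ρ₁ ρ₂ p) fun a => ?_
    rw [MvPolynomial.coeff_neg, v.map_neg]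
    exact norm_le_g v h1 h2 p a
  · intro p q
    have hp := norm_g_nonneg v ρ₁ ρ₂ p
    have hq := norm_g_nonneg v ρ₁ ρ₂ q
    refine norm_g_le v (mul_nonneg hp hq) fun a => ?_
    rw [MvPolynomial.coeff_mul]
    obtain ⟨b, hb, h⟩ := IsNonarchimedean.finset_image_add_of_nonempty hv
      (fun b : (Fin 2 →₀ ℕ) × (Fin 2 →₀ ℕ) => p.coeff b.1 * q.coeff b.2)
      (t := Finset.HasAntidiagonal.antidiagonal a) ⟨(0, a), by simp⟩
    have hab : b.1 + b.2 = a := Finset.HasAntidiagonal.mem_antidiagonal.1 hb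
    have hw := (norm_wt_pos h1 h2 a).le
    refine (mul_le_mul_of_nonneg_right h hw).trans ?_
    rw [v.map_mul, ← hab, norm_wt_add]
    calc v (p.coeff b.1) * v (q.coeff b.2) * (norm_wt ρ₁ ρ₂ b.1 * norm_wt ρ₁ ρ₂ b.2)
        = (v (p.coeff b.1) * norm_wt ρ₁ ρ₂ b.1) * (v (q.coeff b.2) * norm_wt ρ₁ ρ₂ b.2) := by ring
      _ ≤ _ := mul_le_mul (norm_le_g v h1 h2 p b.1) (norm_le_g v h1 h2 q b.2)
        (mul_nonneg (v.nonneg _) (norm_wt_pos h1 h2 _).le) hp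
  · intro a
    rw [MvPolynomial.C_apply]
    refine (norm_g_monomial v h1 h2 0 a).trans (le_of_eq ?_)
    simp [norm_wt]
  · rw [MvPolynomial.X]
    refine (norm_g_monomial v h1 h2 _ 1).trans (le_of_eq ?_)
    simp [norm_wt]
  · rw [MvPolynomial.X]
    refine (norm_g_monomial v h1 h2 _ 1).trans (le_of_eq ?_)
    simp [norm_wt]
  · intro n p x y r₁ r₂ G hx hy hG0 hG
    set A : Finset (Fin 2 →₀ ℕ) := Finset.univ.biUnion fun i => (p i).support with hAdef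
    have hA : ∀ i, (p i).support ⊆ A := fun i =>
      Finset.subset_biUnion_of_mem (fun i => (p i).support) (Finset.mem_univ i)
    have e1 : (fun i j => MvPolynomial.eval ![x j, y j] (p i)) =
        fun i j => ∑ a ∈ A, (p i).coeff a * (x j ^ (a 0) * y j ^ (a 1)) := by
      funext i j
      exact norm_eval (p i) A (hA i) (x j) (y j)
    rw [e1, one_mul]
    exact det_expand_nonarch v hv A (fun i a => (p i).coeff a)
      (fun a j => x j ^ (a 0) * y j ^ (a 1))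
      (fun a => r₁ ^ (a 0) * r₂ ^ (a 1)) (norm_wt ρ₁ ρ₂) (fun a _ => norm_wt_pos h1 h2 a)
      (fun a _ j => norm_hw v hx hy a j) hG0 (fun τ hτ _ => norm_hG hG τ hτ)
      (fun i => norm_g v ρ₁ ρ₂ (p i)) (fun i => norm_g_nonneg v ρ₁ ρ₂ (p i))
      (fun i a _ => norm_le_g v h1 h2 (p i) a)

end Pool.Agent.H.MP_0e6b5f_nt.Eng
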