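import Pool.Agent.H.MP_0e6b5f_nt.Eng.Defs

/-!
# A relation or a nonzero interpolation determinant
-/

namespace Pool.Agent.H.MP_0e6b5f_nt.Eng

variable {K : Type*} [Field K]

/-- Either the functions `f i` are dependent on the set `T`, or some interpolation determinant does
not vanish. -/
theorem rel_or_det {ι : Type*} (T : Finset ι) {n : ℕ} (f : Fin n → ι → K) :
    (∃ a : Fin n → K, a ≠ 0 ∧ ∀ P ∈ T, ∑ i, a i * f i P = 0) ∨
    (∃ p : Fin n → ι, (∀ j, p j ∈ T) ∧ (Matrix.of (fun i j => f i (p j))).det ≠ 0) := by
  classical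
  let w : ι → (Fin n → K) := fun P i => f i P
  let s : Set (Fin n → K) := w '' (T : Set ι)
  by_cases hV : Submodule.span K s = ⊤
  · right
    obtain ⟨g, hg, -, hli⟩ := Submodule.exists_fun_fin_finrank_span_eq K s
    have hn : Module.finrank K (Submodule.span K s) = n := by
      rw [hV, finrank_top, Module.finrank_fin_fun]
    obtain ⟨g', hg', hli'⟩ : ∃ g' : Fin n → (Fin n → K), (∀ j, g' j ∈ s) ∧
        LinearIndependent K g' := by
      refine ⟨g ∘ (finCongr hn.symm), fun j => hg _, ?_⟩
      exact hli.comp _ (finCongr hn.symm).injective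
    choose p hp hpw using hg'
    refine ⟨p, fun j => by simpa using hp j, ?_⟩
    have hcol : (Matrix.of (fun i j => f i (p j))).col = g' := by
      funext j i
      have := congrFun (hpw j) i
      exact this
    have hu : IsUnit (Matrix.of (fun i j => f i (p j))) := by
      rw [← Matrix.linearIndependent_cols_iff_isUnit, hcol]
      exact hli'
    exact ((Matrix.isUnit_iff_isUnit_det _).1 hu).ne_zero
  · left
    obtain ⟨φ, hφ, hle⟩ := Submodule.exists_le_ker_of_lt_top _ (lt_top_iff_ne_top.2 hV)
    have hsum : ∀ x : Fin n → K, φ x = ∑ i, φ (Pi.single i 1) * x i := by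
      intro x
      have hx : x = ∑ i, x i • (Pi.single i (1 : K) : Fin n → K) := by
        funext j
        simp [Finset.sum_apply, Pi.single_apply]
      conv_lhs => rw [hx, map_sum]
      refine Finset.sum_congr rfl fun i _ => ?_
      rw [map_smul, smul_eq_mul, mul_comm]
    refine ⟨fun i => φ (Pi.single i 1), fun h0 => hφ ?_, fun P hP => ?_⟩
    · apply LinearMap.ext
      intro x
      rw [hsum x]
      simp only [LinearMap.zero_apply]
      refine Finset.sum_eq_zero fun i _ => ?_
      have := congrFun h0 i
      simp only [Pi.zero_apply] at this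
      rw [this, zero_mul]
    · have hmem : w P ∈ Submodule.span K s := Submodule.subset_span ⟨P, hP, rfl⟩
      have h1 : φ (w P) = 0 := hle hmem
      rw [hsum] at h1
      exact h1

end Pool.Agent.H.MP_0e6b5f_nt.Eng
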