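import Pool.Agent.H.MP_0e6b5f_nt.Eng.Grow
import Pool.Agent.H.MP_0e6b5f_nt.Eng.Lat
import Pool.Agent.H.MP_0e6b5f_nt.Eng.Norm
import Pool.Agent.H.MP_0e6b5f_nt.Eng.RelDet

/-!
# The product formula for the determinant of a cell
-/

namespace Pool.Agent.H.MP_0e6b5f_nt.Eng

open Pool.Agent.H.MP_0e6b5f_nt.Dom
open Height Height.AdmissibleAbsValues Function Real

variable {K : Type*} [Field K]

theorem ee_le {d : ℕ} (hd : 2 ≤ d) {ζ : Fin d → K} {δ : K} {ι : Type*} (O : Orb ζ δ ι)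
    (v : AbsoluteValue K ℝ) {M : ℝ} (hM : 1 ≤ M) (hy : ∀ P, v (O.y P) ≤ M) (L : ℕ) (s : ℕ × ℕ)
    (P : ι) : v (ee O L s P) ≤ M ^ (2 * (d - 1) * L) := by
  have h1 := dynP_apply_le (n := 1) (L := L) (by omega : 1 ≤ d)
    (fun k _ => O.y ((O.σ⁻¹ ^ (k + 1)) P)) v hM (fun k j => hy _) s.1 0
  have h2 := dynP_apply_le (n := 1) (L := L) (by omega : 1 ≤ d)
    (fun k _ => O.y ((O.σ ^ k) P)) v hM (fun k j => hy _) s.2 0
  have e1 : ee O L s P = dynP d (fun k (_ : Fin 1) => O.y ((O.σ⁻¹ ^ (k + 1)) P)) L s.1 0 *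
      dynP d (fun k (_ : Fin 1) => O.y ((O.σ ^ k) P)) L s.2 0 := by
    simp only [ee, dynP, Pi.mul_apply, Finset.prod_apply, Pi.pow_apply]
  rw [e1, v.map_mul]
  calc _ ≤ M ^ ((d - 1) * L) * M ^ ((d - 1) * L) :=
        mul_le_mul h1 h2 (v.nonneg _) (by positivity)
    _ = M ^ (2 * (d - 1) * L) := by rw [← pow_add]; congr 1; ring

variable [AdmissibleAbsValues K]

/-- The product formula for a nonzero interpolation determinant of a cell. -/
theorem glob_ineq {d : ℕ} (hd : 2 ≤ d) {ζ : Fin d → K} {i₀ : Fin d} (hi₀ : ζ i₀ = 0) {δ : K}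
    (hδ : δ ≠ 0) {ι : Type*} [Finite ι] (O : Orb ζ δ ι) (w : AbsoluteValue K ℝ) {A R : ℝ}
    (hbad : Bad ζ δ w A R 1)
    (hw : (w ∈ nonarchAbsVal (K := K) ∧ A = 1) ∨
      (w ∉ nonarchAbsVal (K := K) ∧ w ∈ archAbsVal (K := K) ∧ A = 2)) {m : ℝ}
    (hm : 1 ≤ m) (hmδ : m ^ (d - 1) * w δ = 1) (L : ℕ) {n : ℕ} (s : Fin n → ℕ × ℕ)
    (p : Fin n → ι) {r G : ℝ} (hG0 : 0 ≤ G)
    (hr : ∀ i j, w (O.y (p i) - O.y (p j)) ≤ r ∧ w (O.y (O.σ⁻¹ (p i)) - O.y (O.σ⁻¹ (p j))) ≤ r)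
    (hG : ∀ τ : Fin n → ℕ × ℕ, Function.Injective τ →
      ∏ i, ((r / (A ^ (d + 3) * R ^ d * m ^ (d - 1))) ^ (τ i).1 *
        (r / (A ^ (d + 3) * R)) ^ (τ i).2) ≤ G)
    (hdet : (Matrix.of (fun i j => ee O L (s i) (p j))).det ≠ 0) :
    1 ≤ ((∏ i, ((A ^ (2 * d + 6) * R ^ d * m ^ d) ^ (s i).1 *
        (A ^ (2 * d + 6) * R) ^ (s i).2)) * G) *
      (((n.factorial : ℝ) * 2 ^ ((d + 3) * (2 * (d - 1) * L * n))) ^ totalWeight K *
        (mulHeight (tup ζ) * mulHeight₁ δ) ^ (2 * (d - 1) * L * n)) := by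
  have hR0 : 0 < R := by have := hbad.hR; linarith
  have hA0 : 0 < A := by have := hbad.hA; linarith
  have hm0 : 0 < m := by linarith
  set g := (Matrix.of (fun i j => ee O L (s i) (p j))).det with hg
  set T' := 2 * (d - 1) * L * n with hT'
  set Θ := (∏ i, ((A ^ (2 * d + 6) * R ^ d * m ^ d) ^ (s i).1 *
        (A ^ (2 * d + 6) * R) ^ (s i).2)) * G with hΘ
  have hΘ0 : 0 ≤ Θ := by positivity
  have hζ : ∀ (v : AbsoluteValue K ℝ) i, v (ζ i) ≤ loc ζ v * max (v δ) 1 := by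
    intro v i
    have h1 := le_loc ζ v i i₀
    rw [hi₀, sub_zero] at h1
    have h2 : 1 ≤ max (v δ) 1 := le_max_right _ _
    have h3 := one_le_loc ζ v
    nlinarith
  have hδv : ∀ v : AbsoluteValue K ℝ, v δ ≤ loc ζ v * max (v δ) 1 := by
    intro v
    have h1 : v δ ≤ max (v δ) 1 := le_max_left _ _
    have h2 : 1 ≤ max (v δ) 1 := le_max_right _ _
    have h3 := one_le_loc ζ v
    nlinarith
  have hB : ∀ v : AbsoluteValue K ℝ, 1 ≤ loc ζ v * max (v δ) 1 := by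
    intro v
    have h2 : 1 ≤ max (v δ) 1 := le_max_right _ _
    have h3 := one_le_loc ζ v
    nlinarith
  have hMa : ∀ v : AbsoluteValue K ℝ, (1 : ℝ) ≤ 2 ^ (d + 3) * (loc ζ v * max (v δ) 1) := by
    intro v
    have h1 : (1 : ℝ) ≤ 2 ^ (d + 3) := one_le_pow₀ (by norm_num)
    have h2 := hB v
    nlinarith
  have hprod : ∀ M : ℝ, ∏ _k : Fin n, M ^ (2 * (d - 1) * L) = M ^ T' := by
    intro M
    rw [Finset.prod_const, Finset.card_univ, Fintype.card_fin, ← pow_mul]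
  rw [← bounds_prod ζ hδ (n.factorial : ℝ) 0 T' (d + 3)]
  have hgw : ∀ c : ℝ, (∃ N, PN w A (A ^ (d + 3) * R ^ d * m ^ (d - 1)) (A ^ (d + 3) * R)
      (fun _ => c) N) → 0 ≤ c → w g ≤ c * Θ := by
    rintro c ⟨N, hN⟩ hc
    exact loc_det hbad hδ hm hmδ hN O L s p hc hG0 hr hG
  have hρ1 : 0 < A ^ (d + 3) * R ^ d * m ^ (d - 1) := by positivity
  have hρ2 : 0 < A ^ (d + 3) * R := by positivity
  apply global_step g hdet w (hw.imp And.left (fun h => h.2.1)) (fun v => (n.factorial : ℝ) *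
    (v δ ^ 0 * (2 ^ (d + 3) * (loc ζ v * max (v δ) 1)) ^ T'))
    (fun v => v δ ^ 0 * (loc ζ v * max (v δ) 1) ^ T') _ hΘ0
  · intro v _
    have h1 := det_le_arch v (Matrix.of (fun i j => ee O L (s i) (p j)))
      (fun _ => (2 ^ (d + 3) * (loc ζ v * max (v δ) 1)) ^ (2 * (d - 1) * L))
      (fun i j => ee_le hd O v (hMa v)
        (O.size hd (QU.of_two v) (by norm_num) (hB v) (hζ v) (hδv v)) L (s i) (p j))
    rw [hprod] at h1
    rw [pow_zero, one_mul]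
    exact h1
  · intro v hv
    have hna := isNonarchimedean v hv
    have h1 := det_le_nonarch v hna (Matrix.of (fun i j => ee O L (s i) (p j)))
      (fun _ => (loc ζ v * max (v δ) 1) ^ (2 * (d - 1) * L))
      (fun i j => ee_le hd O v (hB v) (fun P => by
        have := O.size hd (QU.of_nonarch hna) le_rfl (hB v) (hζ v) (hδv v) P
        rwa [one_pow, one_mul] at this) L (s i) (p j))
    rw [hprod] at h1
    rw [pow_zero, one_mul]
    exact h1
  · intro _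
    have h2 : (1 : ℝ) ≤ (2 ^ (d + 3) * (loc ζ w * max (w δ) 1)) ^ T' := one_le_pow₀ (hMa w)
    have hfac : (1 : ℝ) ≤ n.factorial := by exact_mod_cast Nat.factorial_pos n
    have h1 : w g ≤ (n.factorial : ℝ) * Θ := by
      rcases hw with ⟨hw1, hA1⟩ | ⟨_, _, hA1⟩
      · have := hgw 1 (by
          rw [hA1]
          exact exists_PN_nonarch w (isNonarchimedean w hw1) (by positivity) (by positivity))
          zero_le_one
        rw [one_mul] at this
        exact this.trans (le_mul_of_one_le_left hΘ0 hfac)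
      · obtain ⟨N, hN⟩ := exists_PN_arch w (ρ₁ := A ^ (d + 3) * R ^ d * m ^ (d - 1))
          (ρ₂ := A ^ (d + 3) * R) hρ1 hρ2
        rw [← hA1] at hN
        exact loc_det hbad hδ hm hmδ hN O L s p (by positivity) hG0 hr hG
    rw [pow_zero, one_mul]
    calc w g ≤ (n.factorial : ℝ) * Θ := h1
      _ = Θ * ((n.factorial : ℝ) * 1) := by ring
      _ ≤ _ := mul_le_mul_of_nonneg_left (mul_le_mul_of_nonneg_left h2 (by positivity)) hΘ0
  · intro hw'
    have h2 : (1 : ℝ) ≤ (loc ζ w * max (w δ) 1) ^ T' := one_le_pow₀ (hB w)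
    have h1 : w g ≤ Θ := by
      rcases hw with ⟨hw1, hA1⟩ | ⟨hn, _, _⟩
      · have := hgw 1 (by
          rw [hA1]
          exact exists_PN_nonarch w (isNonarchimedean w hw1) (by positivity) (by positivity))
          zero_le_one
        rwa [one_mul] at this
      · exact absurd hw' hn
    rw [pow_zero, one_mul]
    exact h1.trans (le_mul_of_one_le_right hΘ0 h2)
  · have hδf : (fun v : nonarchAbsVal (K := K) => v.val δ).HasFiniteMulSupport :=
      hasFiniteMulSupport hδ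
    exact (hδf.fun_pow 0).fun_mul (((loc_fin ζ).fun_mul (max_fin δ)).fun_pow T')

/-- The conclusion for a cell: a nontrivial relation between the dynamical monomials of an index
triangle, if the numerical inequality holds. -/
theorem cell_rel {d : ℕ} (hd : 2 ≤ d) {ζ : Fin d → K} {i₀ : Fin d} (hi₀ : ζ i₀ = 0) {δ : K}
    (hδ : δ ≠ 0) {ι : Type*} [Finite ι] (O : Orb ζ δ ι) (w : AbsoluteValue K ℝ) {A R : ℝ}
    (hbad : Bad ζ δ w A R 1)
    (hw : (w ∈ nonarchAbsVal (K := K) ∧ A = 1) ∨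
      (w ∉ nonarchAbsVal (K := K) ∧ w ∈ archAbsVal (K := K) ∧ A = 2)) {m : ℝ}
    (hm : 1 ≤ m) (hmδ : m ^ (d - 1) * w δ = 1) (L : ℕ) (Z : Finset ι) {r T a₁ a₂ b₁ b₂ : ℝ}
    (hr0 : 0 < r)
    (hr : ∀ P ∈ Z, ∀ Q ∈ Z, w (O.y P - O.y Q) ≤ r ∧ w (O.y (O.σ⁻¹ P) - O.y (O.σ⁻¹ Q)) ≤ r)
    (hT : 0 ≤ T) (ha1 : 0 < a₁) (ha2 : 0 < a₂)
    (hra1 : r / (A ^ (d + 3) * R ^ d * m ^ (d - 1)) ≤ exp (-a₁))
    (hra2 : r / (A ^ (d + 3) * R) ≤ exp (-a₂))
    (hb1 : 0 < b₁) (hb2 : 0 < b₂)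
    (hrb1 : A ^ (2 * d + 6) * R ^ d * m ^ d = exp b₁) (hrb2 : A ^ (2 * d + 6) * R = exp b₂)
    (hnum : (T + a₁ + a₂) ^ 3 / (6 * a₁ * a₂) - T ^ 3 / (6 * b₁ * b₂) +
      (totalWeight K * (log ((idx b₁ b₂ T).card.factorial : ℝ) +
        ((d + 3) * (2 * (d - 1) * L * (idx b₁ b₂ T).card) : ℕ) * log 2) +
      (2 * (d - 1) * L * (idx b₁ b₂ T).card : ℕ) * log (mulHeight (tup ζ) * mulHeight₁ δ)) < 0) :
    ∃ a : ℕ × ℕ → K, (∃ s ∈ idx b₁ b₂ T, a s ≠ 0) ∧
      ∀ P ∈ Z, ∑ s ∈ idx b₁ b₂ T, a s * ee O L s P = 0 := by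
  classical
  set S := idx b₁ b₂ T with hS
  have hmem : ∀ p : ℕ × ℕ, p ∈ S ↔ b₁ * p.1 + b₂ * p.2 ≤ T := mem_idx hb1 hb2
  set n := S.card with hn
  set e : Fin n ≃ S := (S.equivFin).symm with he
  rcases rel_or_det Z (fun i : Fin n => ee O L (e i).1) with ⟨a, ha, hrel⟩ | ⟨p, hp, hdet⟩
  · refine ⟨fun s => if h : s ∈ S then a (e.symm ⟨s, h⟩) else 0, ?_, ?_⟩
    · obtain ⟨i, hi⟩ := Function.ne_iff.mp ha
      refine ⟨(e i).1, (e i).2, ?_⟩
      simpa using hi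
    · intro P hP
      refine Eq.trans ?_ (hrel P hP)
      rw [← Finset.sum_coe_sort S, ← Equiv.sum_comp e]
      refine Finset.sum_congr rfl (fun i _ => ?_)
      simp
  · exfalso
    have hA0 : 0 < A := by have := hbad.hA; linarith
    have hR0 : 0 < R := by have := hbad.hR; linarith
    have hm0 : 0 < m := by linarith
    set g := (T + a₁ + a₂) ^ 3 / (6 * a₁ * a₂) - T ^ 3 / (6 * b₁ * b₂) with hg
    set W := ∑ i, (b₁ * ((e i).1.1 : ℝ) + b₂ * ((e i).1.2 : ℝ)) with hW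
    have hρ1 : 0 < A ^ (d + 3) * R ^ d * m ^ (d - 1) := by positivity
    have hρ2 : 0 < A ^ (d + 3) * R := by positivity
    have hG : ∀ τ : Fin n → ℕ × ℕ, Function.Injective τ →
      ∏ i, ((r / (A ^ (d + 3) * R ^ d * m ^ (d - 1))) ^ (τ i).1 *
        (r / (A ^ (d + 3) * R)) ^ (τ i).2) ≤ exp (g - W) := by
      intro τ hτ
      have h1 := gap hb1 hb2 ha1 ha2 hT S hmem e τ hτ
      have h2 : ∏ i, ((r / (A ^ (d + 3) * R ^ d * m ^ (d - 1))) ^ (τ i).1 *
          (r / (A ^ (d + 3) * R)) ^ (τ i).2) ≤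
          ∏ i, exp (-(a₁ * ((τ i).1 : ℝ) + a₂ * ((τ i).2 : ℝ))) := by
        refine Finset.prod_le_prod (fun i _ => by positivity) (fun i _ => ?_)
        have e1 : exp (-(a₁ * ((τ i).1 : ℝ) + a₂ * ((τ i).2 : ℝ))) =
            exp (-a₁) ^ (τ i).1 * exp (-a₂) ^ (τ i).2 := by
          rw [← exp_nat_mul, ← exp_nat_mul, ← exp_add]
          congr 1
          ring
        rw [e1]
        exact mul_le_mul (pow_le_pow_left₀ (by positivity) hra1 _)
          (pow_le_pow_left₀ (by positivity) hra2 _) (by positivity) (by positivity)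
      refine h2.trans ?_
      rw [← exp_sum]
      apply exp_le_exp.mpr
      rw [Finset.sum_neg_distrib]
      linarith
    have h1 := glob_ineq hd hi₀ hδ O w hbad hw hm hmδ L (fun i => (e i).1) p
      (exp_pos (g - W)).le (fun i j => hr _ (hp i) _ (hp j)) hG hdet
    have h2 : (∏ i, ((A ^ (2 * d + 6) * R ^ d * m ^ d) ^ (e i).1.1 *
        (A ^ (2 * d + 6) * R) ^ (e i).1.2)) = exp W := by
      rw [hW, exp_sum]
      refine Finset.prod_congr rfl (fun i _ => ?_)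
      rw [hrb1, hrb2, ← exp_nat_mul, ← exp_nat_mul, ← exp_add]
      congr 1
      ring
    rw [h2, ← exp_add] at h1
    have hH : 0 < mulHeight (tup ζ) * mulHeight₁ δ :=
      mul_pos (zero_lt_one.trans_le (one_le_mulHeight _))
        (zero_lt_one.trans_le (one_le_mulHeight₁ _))
    have hfac : (0 : ℝ) < n.factorial := by exact_mod_cast Nat.factorial_pos n
    have h3 := log_nonneg h1
    rw [log_mul (exp_pos _).ne' (by positivity), log_exp, log_mul (by positivity) (by positivity),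
      log_pow, log_mul hfac.ne' (by positivity), log_pow, log_pow] at h3
    have e1 : W + (g - W) = g := by ring
    rw [e1] at h3
    linarith

end Pool.Agent.H.MP_0e6b5f_nt.Eng
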