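import Pool.Agent.H.MP_0e6b5f_nt.Dom.Final

/-!
# Definitions for the bound at one place without condition on the Jacobian
-/

namespace Pool.Agent.H.MP_0e6b5f_nt.Eng

open Pool.Agent.H.MP_0e6b5f_nt.Dom
open Polynomial

variable {K : Type*} [Field K]

/-- Number of cells. -/
def cellN (d : ℕ) : ℕ := (d * (d - 1)) ^ 6 * (d - 1) ^ 6

/-- The dynamical monomial with index `s`, as a function on the points. -/
def ee {d : ℕ} {ζ : Fin d → K} {δ : K} {ι : Type*} (O : Orb ζ δ ι) (L : ℕ) (s : ℕ × ℕ) : ι → K :=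
  dynP d (fun k P => O.y ((O.σ⁻¹ ^ (k + 1)) P)) L s.1 * dynP d (fun k P => O.y ((O.σ ^ k) P)) L s.2

/-- A norm on the polynomials in two variables adapted to the radii `ρ₁`, `ρ₂`, with an estimate
for interpolation determinants. -/
structure PN (v : AbsoluteValue K ℝ) (A ρ₁ ρ₂ : ℝ) (c : ℕ → ℝ)
    (N : MvPolynomial (Fin 2) K → ℝ) : Prop where
  nonneg : ∀ p, 0 ≤ N p
  add : ∀ p q, N (p + q) ≤ A * max (N p) (N q)
  neg : ∀ p, N (-p) ≤ N p
  mul : ∀ p q, N (p * q) ≤ N p * N q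
  const : ∀ a, N (MvPolynomial.C a) ≤ v a
  var0 : N (MvPolynomial.X 0) ≤ ρ₁
  var1 : N (MvPolynomial.X 1) ≤ ρ₂
  det : ∀ (n : ℕ) (p : Fin n → MvPolynomial (Fin 2) K) (x y : Fin n → K) (r₁ r₂ G : ℝ),
    (∀ j, v (x j) ≤ r₁) → (∀ j, v (y j) ≤ r₂) → 0 ≤ G →
    (∀ τ : Fin n → ℕ × ℕ, Function.Injective τ →
      ∏ i, ((r₁ / ρ₁) ^ (τ i).1 * (r₂ / ρ₂) ^ (τ i).2) ≤ G) →
    v (Matrix.of (fun i j => MvPolynomial.eval ![x j, y j] (p i))).det ≤
      c n * ((∏ i, N (p i)) * G)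

/-- The normalised diameter of the set of fixed points, with `μ ^ (d - 1) = δ`. -/
noncomputable def rho {d : ℕ} (ζ : Fin d → K) (μ : K) (v : AbsoluteValue K ℝ) : ℝ :=
  (⨆ p : Fin d × Fin d, v (ζ p.1 - ζ p.2)) / max 1 (v μ)

/-- Good reduction in the given coordinates at an absolute value: with `M = max(1, |δ|)`, the
leading coefficient of `F` has absolute value `M` and all coefficients have absolute value at most
`M`. -/
def GoodAt {K : Type*} [Field K] (v : AbsoluteValue K ℝ) (F : K[X]) (δ : K) : Prop :=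
  v F.leadingCoeff = max 1 (v δ) ∧ ∀ i, v (F.coeff i) ≤ max 1 (v δ)

/-- The finite places at which the condition `GoodAt` fails. -/
def naiveBad {K : Type*} [Field K] [NumberField K] (F : K[X]) (δ : K) :
    Set (NumberField.FinitePlace K) :=
  {v | ¬ GoodAt v.val F δ}

end Pool.Agent.H.MP_0e6b5f_nt.Eng
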