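import Pool.Agent.H.MP_0e6b5f_nt.Eng.Defs

/-!
# Relations on cells bound the number of points
-/

namespace Pool.Agent.H.MP_0e6b5f_nt.Eng

open Pool.Agent.H.MP_0e6b5f_nt.Dom
open Polynomial

variable {K : Type*} [Field K]

/-- Evaluation in the product algebra. -/
theorem degen_aeval_apply {ι : Type*} (f : ι → K) (F : K[X]) (j : ι) :
    (aeval f F) j = F.eval (f j) := by
  have h := aeval_algHom_apply (Pi.evalAlgHom K (fun _ : ι => K) j) f F
  have h2 : (Pi.evalAlgHom K (fun _ : ι => K) j) f = f j := rfl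
  rw [h2] at h
  have h3 : (Pi.evalAlgHom K (fun _ : ι => K) j) (aeval f F) = (aeval f F) j := rfl
  rw [h3] at h
  rw [← h, coe_aeval_eq_eval]

/-- The digits of a number given by its digits. -/
theorem degen_digits {d : ℕ} (hd : 1 ≤ d) (c : ℕ → ℕ) (hc : ∀ k, c k < d) (M : ℕ) :
    (∑ k ∈ Finset.range M, c k * d ^ k) < d ^ M ∧
      ∀ k < M, (∑ k ∈ Finset.range M, c k * d ^ k) / d ^ k % d = c k := by
  induction M with
  | zero => exact ⟨by simp, fun k hk => absurd hk (Nat.not_lt_zero _)⟩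
  | succ M ih =>
    obtain ⟨h1, h2⟩ := ih
    rw [Finset.sum_range_succ]
    set N := ∑ k ∈ Finset.range M, c k * d ^ k with hN
    refine ⟨?_, fun k hk => ?_⟩
    · have h3 := hc M
      calc N + c M * d ^ M < d ^ M + c M * d ^ M := by omega
        _ = (c M + 1) * d ^ M := by ring
        _ ≤ d * d ^ M := Nat.mul_le_mul_right _ h3
        _ = d ^ (M + 1) := by ring
    · rcases Nat.lt_or_ge k M with h | h
      · obtain ⟨t, rfl⟩ : ∃ t, M = k + 1 + t := ⟨M - (k + 1), by omega⟩
        have h4 : N + c (k + 1 + t) * d ^ (k + 1 + t) =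
            N + d ^ k * (d * (c (k + 1 + t) * d ^ t)) := by ring
        rw [h4, Nat.add_mul_div_left _ _ (Nat.pow_pos hd), Nat.add_mul_mod_self_left]
        exact h2 k h
      · obtain rfl : k = M := by omega
        rw [Nat.add_mul_div_right _ _ (Nat.pow_pos hd), Nat.div_eq_of_lt h1, zero_add,
          Nat.mod_eq_of_lt (hc k)]

/-- The digits of the index after the shift. -/
def degC (d L : ℕ) (s : ℕ × ℕ) (k : ℕ) : ℕ :=
  if k < L then s.1 / d ^ (L - 1 - k) % d else s.2 / d ^ (k - L) % d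

/-- The index after the shift. -/
def degI (d L : ℕ) (s : ℕ × ℕ) : ℕ := ∑ k ∈ Finset.range (2 * L), degC d L s k * d ^ k

theorem degC_lt {d : ℕ} (hd : 1 ≤ d) (L : ℕ) (s : ℕ × ℕ) (k : ℕ) : degC d L s k < d := by
  unfold degC
  split_ifs <;> exact Nat.mod_lt _ hd

theorem degI_inj {d : ℕ} (hd : 1 ≤ d) (L : ℕ) {s t : ℕ × ℕ} (hs : s.1 < d ^ L ∧ s.2 < d ^ L)
    (ht : t.1 < d ^ L ∧ t.2 < d ^ L) (h : degI d L s = degI d L t) : s = t := by
  have hs2 := (degen_digits hd (degC d L s) (degC_lt hd L s) (2 * L)).2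
  have ht2 := (degen_digits hd (degC d L t) (degC_lt hd L t) (2 * L)).2
  have hk : ∀ k < 2 * L, degC d L s k = degC d L t k := by
    intro k hk
    rw [← hs2 k hk, ← ht2 k hk]
    show degI d L s / d ^ k % d = degI d L t / d ^ k % d
    rw [h]
  have h1 : ∀ k < L, s.1 / d ^ k % d = t.1 / d ^ k % d := by
    intro k hkL
    have := hk (L - 1 - k) (by omega)
    unfold degC at this
    rw [if_pos (by omega), if_pos (by omega)] at this
    rwa [show L - 1 - (L - 1 - k) = k by omega] at this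
  have h2 : ∀ k < L, s.2 / d ^ k % d = t.2 / d ^ k % d := by
    intro k hkL
    have := hk (L + k) (by omega)
    unfold degC at this
    rw [if_neg (by omega), if_neg (by omega)] at this
    rwa [show L + k - L = k by omega] at this
  apply Prod.ext
  · rw [← Nat.mod_eq_of_lt hs.1, ← Nat.mod_eq_of_lt ht.1, ← sum_digits, ← sum_digits]
    exact Finset.sum_congr rfl fun k hk' => by rw [h1 k (Finset.mem_range.mp hk')]
  · rw [← Nat.mod_eq_of_lt hs.2, ← Nat.mod_eq_of_lt ht.2, ← sum_digits, ← sum_digits]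
    exact Finset.sum_congr rfl fun k hk' => by rw [h2 k (Finset.mem_range.mp hk')]

/-- The product of two dynamical basis functions as one with the double length. -/
theorem degen_dynP {ι : Type*} {d : ℕ} (hd : 1 ≤ d) (L : ℕ) (s : ℕ × ℕ) (w f g : ℕ → ι → K)
    (P P' : ι) (hf : ∀ k < L, f k P' = w (L - 1 - k) P) (hg : ∀ k < L, g k P' = w (L + k) P) :
    dynP d f L s.1 P' * dynP d g L s.2 P' = dynP d w (2 * L) (degI d L s) P := by
  have h2 := (degen_digits hd (degC d L s) (degC_lt hd L s) (2 * L)).2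
  have e1 : dynP d w (2 * L) (degI d L s) P =
      ∏ k ∈ Finset.range (L + L), w k P ^ degC d L s k := by
    rw [dynP, Finset.prod_apply, two_mul]
    refine Finset.prod_congr rfl fun k hk => ?_
    rw [Pi.pow_apply]
    congr 1
    exact h2 k (by rw [Finset.mem_range] at hk; omega)
  rw [e1, Finset.prod_range_add]
  congr 1
  · rw [dynP, Finset.prod_apply, ← Finset.prod_range_reflect]
    refine Finset.prod_congr rfl fun k hk => ?_
    rw [Finset.mem_range] at hk
    rw [Pi.pow_apply, hf _ (by omega), degC, if_pos hk, show L - 1 - (L - 1 - k) = k by omega]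
  · rw [dynP, Finset.prod_apply]
    refine Finset.prod_congr rfl fun k hk => ?_
    rw [Finset.mem_range] at hk
    rw [Pi.pow_apply, hg _ hk, degC, if_neg (by omega), show L + k - L = k by omega]

/-- Leading parts of finite products. -/
theorem degen_prod_top {A κ : Type*} [CommRing A] [Algebra K A] {x y : A} [DecidableEq κ]
    (T : Finset κ) (Q : κ → ℕ) (f g : κ → A) (h : ∀ c ∈ T, IsTop K x y (Q c) (f c) (g c)) :
    IsTop K x y (∑ c ∈ T, Q c) (∏ c ∈ T, f c) (∏ c ∈ T, g c) := by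
  induction T using Finset.induction_on with
  | empty => simpa using IsTop.one
  | insert a T ha ih =>
    rw [Finset.sum_insert ha, Finset.prod_insert ha, Finset.prod_insert ha]
    exact (h a (Finset.mem_insert_self _ _)).mul (ih fun c hc => h c (Finset.mem_insert_of_mem hc))

/-- Relations on the cells give a power in lower filtration. -/
theorem degen_pow {ι : Type*} {x y z : ι → K} {w : ℕ → ι → K} {β : ℕ → K} (hβ : ∀ i, β i ≠ 0)
    {N : ℕ} (htop : ∀ i < N, IsTop K x y i (w i) (β i • z ^ i)) (m : ℕ) (κ : ι → Fin m)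
    (e : ℕ × ℕ → ℕ)
    (hrel : ∀ c : Fin m, ∃ (S : Finset (ℕ × ℕ)) (a : ℕ × ℕ → K),
      (∀ s ∈ S, e s < N) ∧ (∀ s ∈ S, ∀ t ∈ S, e s = e t → s = t) ∧ (∃ s ∈ S, a s ≠ 0) ∧
      ∀ P, κ P = c → ∑ s ∈ S, a s * w (e s) P = 0) :
    ∃ Q0 ≤ m * N, z ^ Q0 ∈ W K x y Q0 := by
  classical
  have key : ∀ c : Fin m, ∃ (Q : ℕ) (α : K) (Φ : ι → K), Q ≤ N ∧ α ≠ 0 ∧
      IsTop K x y Q Φ (α • z ^ Q) ∧ ∀ P, κ P = c → Φ P = 0 := by
    intro c
    obtain ⟨S, a, hN, hinj, ⟨s1, hs1, ha1⟩, hr⟩ := hrel c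
    set S' := S.filter (fun s => a s ≠ 0) with hS'
    have hne : S'.Nonempty := ⟨s1, Finset.mem_filter.mpr ⟨hs1, ha1⟩⟩
    obtain ⟨s0, hs0, hmax⟩ := S'.exists_max_image e hne
    have hs0S := (Finset.mem_filter.mp hs0).1
    have ha0 := (Finset.mem_filter.mp hs0).2
    refine ⟨e s0, a s0 * β (e s0), ∑ s ∈ S', a s • w (e s), (hN s0 hs0S).le,
      mul_ne_zero ha0 (hβ _), ?_, ?_⟩
    · have h1 := (htop (e s0) (hN s0 hs0S)).smul (a s0)
      rw [smul_smul] at h1
      refine ⟨?_, h1.2⟩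
      rw [← Finset.add_sum_erase S' _ hs0]
      have h2 : a s0 • w (e s0) + ∑ s ∈ S'.erase s0, a s • w (e s) -
          (a s0 * β (e s0)) • z ^ e s0 =
          (a s0 • w (e s0) - (a s0 * β (e s0)) • z ^ e s0) +
            ∑ s ∈ S'.erase s0, a s • w (e s) := by ring
      rw [h2]
      refine add_mem h1.1 (sum_mem fun s hs => Submodule.smul_mem _ _ ?_)
      have hsS' := Finset.mem_of_mem_erase hs
      have hsS := (Finset.mem_filter.mp hsS').1
      have hlt : e s < e s0 := by
        refine lt_of_le_of_ne (hmax s hsS') fun he => ?_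
        exact (Finset.ne_of_mem_erase hs) (hinj s hsS s0 hs0S he)
      exact W_mono hlt (htop (e s) (hN s hsS)).mem
    · intro P hP
      have h1 := hr P hP
      rw [Finset.sum_apply]
      rw [← Finset.sum_filter_add_sum_filter_not S (fun s => a s ≠ 0)] at h1
      have h2 : ∑ s ∈ S.filter (fun s => ¬ a s ≠ 0), a s * w (e s) P = 0 := by
        refine Finset.sum_eq_zero fun s hs => ?_
        have := (Finset.mem_filter.mp hs).2
        push Not at this
        rw [this, zero_mul]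
      rw [h2, add_zero] at h1
      exact h1
  choose Q α Φ hQN hα htopΦ hΦ using key
  refine ⟨∑ c, Q c, ?_, ?_⟩
  · calc ∑ c, Q c ≤ ∑ _c : Fin m, N := Finset.sum_le_sum fun c _ => hQN c
      _ = m * N := by simp
  · have h1 := degen_prod_top Finset.univ Q Φ _ fun c _ => htopΦ c
    have h2 : ∏ c, Φ c = 0 := by
      funext P
      rw [Finset.prod_apply]
      exact Finset.prod_eq_zero (Finset.mem_univ (κ P)) (hΦ (κ P) P rfl)
    have h3 : ∏ c, α c • z ^ Q c = (∏ c, α c) • z ^ ∑ c, Q c := by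
      rw [Finset.prod_smul, Finset.prod_pow_eq_pow_sum]
    rw [h2, h3] at h1
    have h4 : z ^ ∑ c, Q c = (-(∏ c, α c)⁻¹) • (0 - (∏ c, α c) • z ^ ∑ c, Q c) := by
      have h5 : (∏ c, α c) ≠ 0 := Finset.prod_ne_zero_iff.mpr fun c _ => hα c
      rw [zero_sub, smul_neg, neg_smul, neg_neg, smul_smul, inv_mul_cancel₀ h5, one_smul]
    rw [h4]
    exact Submodule.smul_mem _ _ h1.1

/-- All monomials are combinations of those with bounded exponents. -/
theorem degen_span {A : Type*} [CommRing A] [Algebra K A] {x y : A} {J Q : ℕ}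
    (hx : x ^ J ∈ W K x y J) (hy : y ^ Q ∈ W K x y Q) (n : ℕ) :
    W K x y n ≤ Submodule.span K ((fun s : ℕ × ℕ => x ^ s.1 * y ^ s.2) ''
      (↑(Finset.range J ×ˢ Finset.range Q) : Set (ℕ × ℕ))) := by
  classical
  induction n with
  | zero =>
    rw [W, Submodule.span_le]
    rintro _ ⟨i, j, hij, _⟩
    omega
  | succ n ih =>
    rw [W, Submodule.span_le]
    rintro _ ⟨i, j, hij, rfl⟩
    rcases Nat.lt_or_ge (i + j) n with h | h
    · exact ih (mon_mem i j h)
    · rcases Nat.lt_or_ge i J with hi | hi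
      · rcases Nat.lt_or_ge j Q with hj | hj
        · refine Submodule.subset_span ⟨(i, j), ?_, rfl⟩
          simp [hi, hj]
        · apply ih
          have h1 := mul_mem_W hy (mon_mem (K := K) (x := x) (y := y) i (j - Q)
            (Nat.lt_succ_self _))
          have h2 : x ^ i * y ^ j = y ^ Q * (x ^ i * y ^ (j - Q)) := by
            rw [mul_left_comm, ← pow_add, Nat.add_sub_cancel' hj]
          rw [h2]
          exact W_mono (by omega) h1
      · apply ih
        have h1 := mul_mem_W hx (mon_mem (K := K) (x := x) (y := y) (i - J) j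
          (Nat.lt_succ_self _))
        have h2 : x ^ i * y ^ j = x ^ J * (x ^ (i - J) * y ^ j) := by
          rw [← mul_assoc, ← pow_add, Nat.add_sub_cancel' hi]
        rw [h2]
        exact W_mono (by omega) h1

/-- The monomials of small degree span all functions. -/
theorem degen_W_top {ι : Type*} [Fintype ι] (X Y : ι → K)
    (hinj : ∀ P Q, P ≠ Q → X P ≠ X Q ∨ Y P ≠ Y Q) : W K X Y (Fintype.card ι) = ⊤ := by
  classical
  rw [eq_top_iff]
  intro f _
  rw [pi_eq_sum_univ f]
  refine sum_mem (fun P _ => Submodule.smul_mem _ _ ?_)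
  set ℓ : ι → (ι → K) := fun Q =>
    if X P ≠ X Q then (X P - X Q)⁻¹ • (X - algebraMap K (ι → K) (X Q))
    else (Y P - Y Q)⁻¹ • (Y - algebraMap K (ι → K) (Y Q)) with hℓ
  have hmem : ∀ Q, ℓ Q ∈ W K X Y 2 := by
    intro Q
    simp only [hℓ]
    split_ifs
    · exact Submodule.smul_mem _ _
        (sub_mem x_mem_W (W_mono (by omega) (algebraMap_mem_W _)))
    · exact Submodule.smul_mem _ _
        (sub_mem y_mem_W (W_mono (by omega) (algebraMap_mem_W _)))
  have hprod : (fun j => if P = j then (1 : K) else 0) = ∏ Q ∈ Finset.univ.erase P, ℓ Q := by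
    funext R
    rw [Finset.prod_apply]
    by_cases hR : P = R
    · subst hR
      rw [if_pos rfl]
      symm
      apply Finset.prod_eq_one
      intro Q hQ
      have hne : P ≠ Q := (Finset.ne_of_mem_erase hQ).symm
      simp only [hℓ]
      split_ifs with h
      · simp only [Pi.smul_apply, Pi.sub_apply, Pi.algebraMap_apply, Algebra.algebraMap_self,
          RingHom.id_apply, smul_eq_mul]
        exact inv_mul_cancel₀ (sub_ne_zero.mpr h)
      · simp only [Pi.smul_apply, Pi.sub_apply, Pi.algebraMap_apply, Algebra.algebraMap_self,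
          RingHom.id_apply, smul_eq_mul]
        have h2 : Y P ≠ Y Q := (hinj P Q hne).resolve_left h
        exact inv_mul_cancel₀ (sub_ne_zero.mpr h2)
    · rw [if_neg hR]
      symm
      apply Finset.prod_eq_zero (Finset.mem_erase.mpr ⟨Ne.symm hR, Finset.mem_univ R⟩)
      simp only [hℓ]
      split_ifs with h
      · simp
      · simp
  rw [hprod]
  have h1 := prod_mem_W (Finset.univ.erase P) ℓ (fun Q _ => hmem Q)
  rw [Finset.card_erase_of_mem (Finset.mem_univ P), Finset.card_univ] at h1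
  have hn : 0 < Fintype.card ι := Fintype.card_pos_iff.mpr ⟨P⟩
  rwa [Nat.sub_add_cancel hn] at h1

/-- If the invariant set is a union of `m` cells and on each cell a nontrivial combination of
dynamical monomials vanishes, then the set is small (leading forms after shifts by `σ ^ (± L)`). -/
theorem degen {d : ℕ} (hd : 2 ≤ d) {ζ : Fin d → K} {δ : K} (hδ : δ ≠ 0) {ι : Type*} [Fintype ι]
    (O : Orb ζ δ ι) (hinj : ∀ P Q, O.y P = O.y Q → O.y (O.σ⁻¹ P) = O.y (O.σ⁻¹ Q) → P = Q)
    (L m : ℕ) (κ : ι → Fin m)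
    (hrel : ∀ c : Fin m, ∃ (S : Finset (ℕ × ℕ)) (a : ℕ × ℕ → K),
      (∀ s ∈ S, s.1 < d ^ L ∧ s.2 < d ^ L) ∧ (∃ s ∈ S, a s ≠ 0) ∧
      ∀ P, κ P = c → ∑ s ∈ S, a s * ee O L s P = 0) :
    Fintype.card ι ≤ (m * d ^ (2 * L)) ^ 2 := by
  classical
  have hd1 : 1 ≤ d := by omega
  set X : ι → K := fun P => O.y (O.σ⁻¹ P) with hX
  set Y : ι → K := fun P => O.y P with hY
  have hXY : ∀ P Q, P ≠ Q → X P ≠ X Q ∨ Y P ≠ Y Q := by
    intro P Q hPQ
    by_contra hcon
    push Not at hcon
    exact hPQ (hinj _ _ hcon.2 hcon.1)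
  obtain ⟨hmon, hdeg⟩ := nf_monic hd ζ δ
  set u : ℕ → (ι → K) := fun k P => O.y ((O.σ ^ k) P) with hu
  set b : ℕ → (ι → K) := fun k P => O.y ((O.σ⁻¹ ^ (k + 1)) P) with hb
  have htopu : ∀ k, IsTop K X Y (d ^ k) (u k) ((1 : K) ^ gexp d k • Y ^ (d ^ k)) := by
    intro k
    have h0 : u 0 = Y := by funext j; simp [hu, hY]
    have := top_iter (K := K) (x := X) (y := Y) hd hmon hdeg 1 δ u X
      (by rw [h0]; exact y_mem_W) x_mem_W
      (by
        funext j
        simp only [Pi.sub_apply, Pi.smul_apply, degen_aeval_apply, smul_eq_mul, one_mul]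
        rw [h0]
        have h1 := O.rel j
        simp only [hu, hX, hY, pow_one]
        rw [← h1]; ring)
      (fun k => by
        funext j
        simp only [Pi.sub_apply, Pi.smul_apply, degen_aeval_apply, smul_eq_mul, one_mul]
        have h1 := O.rel ((O.σ ^ (k + 1)) j)
        simp only [hu]
        rw [← h1]
        have h2 : O.σ ((O.σ ^ (k + 1)) j) = (O.σ ^ (k + 2)) j := by
          rw [pow_succ' O.σ (k + 1)]; rfl
        have h3 : O.σ⁻¹ ((O.σ ^ (k + 1)) j) = (O.σ ^ k) j := by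
          rw [pow_succ' O.σ k]
          exact O.σ.symm_apply_apply _
        rw [h2, h3]; ring) k
    rw [h0] at this
    exact this
  have htopb : ∀ k, IsTop K X Y (d ^ k) (b k) ((δ⁻¹ : K) ^ gexp d k • X ^ (d ^ k)) := by
    intro k
    have h0 : b 0 = X := by funext j; simp [hb, hX]
    have := top_iter (K := K) (x := X) (y := Y) hd hmon hdeg δ⁻¹ δ⁻¹ b Y
      (by rw [h0]; exact x_mem_W) y_mem_W
      (by
        funext j
        simp only [Pi.sub_apply, Pi.smul_apply, degen_aeval_apply, smul_eq_mul]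
        rw [h0]
        have h1 := O.rel (O.σ⁻¹ j)
        have h4 : O.σ (O.σ⁻¹ j) = j := O.σ.apply_symm_apply _
        rw [h4] at h1
        simp only [hb, hX, hY]
        rw [← h1]
        have h5 : (O.σ⁻¹ ^ (1 + 1)) j = O.σ⁻¹ (O.σ⁻¹ j) := by
          rw [pow_succ, pow_one]; rfl
        rw [h5]
        field_simp
        ring)
      (fun k => by
        funext j
        simp only [Pi.sub_apply, Pi.smul_apply, degen_aeval_apply, smul_eq_mul]
        have h1 := O.rel ((O.σ⁻¹ ^ (k + 2)) j)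
        simp only [hb]
        rw [← h1]
        have h2 : O.σ ((O.σ⁻¹ ^ (k + 2)) j) = (O.σ⁻¹ ^ (k + 1)) j := by
          rw [pow_succ' O.σ⁻¹ (k + 1)]
          exact O.σ.apply_symm_apply _
        have h3 : O.σ⁻¹ ((O.σ⁻¹ ^ (k + 2)) j) = (O.σ⁻¹ ^ (k + 2 + 1)) j := by
          rw [pow_succ' O.σ⁻¹ (k + 2)]; rfl
        rw [h2, h3]
        field_simp
        ring) k
    rw [h0] at this
    exact this
  have hee : ∀ s P, ee O L s P = dynP d b L s.1 P * dynP d u L s.2 P := fun _ _ => rfl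
  -- forward shift
  have hF : ∀ s P, ee O L s ((O.σ ^ L) P) = dynP d u (2 * L) (degI d L s) P := by
    intro s P
    rw [hee]
    refine degen_dynP hd1 L s u b u P ((O.σ ^ L) P) (fun k hk => ?_) (fun k _ => ?_)
    · simp only [hb, hu]
      congr 1
      have h1 : O.σ ^ L = O.σ ^ (k + 1) * O.σ ^ (L - 1 - k) := by
        rw [← pow_add]; congr 1; omega
      rw [h1, Equiv.Perm.mul_apply, inv_pow]
      exact (O.σ ^ (k + 1)).symm_apply_apply _
    · simp only [hu]
      rw [add_comm L k, pow_add, Equiv.Perm.mul_apply]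
  have hB : ∀ s P, ee O L s ((O.σ⁻¹ ^ L) P) = dynP d b (2 * L) (degI d L s.swap) P := by
    intro s P
    rw [hee, mul_comm]
    refine degen_dynP hd1 L s.swap b u b P ((O.σ⁻¹ ^ L) P) (fun k hk => ?_) (fun k _ => ?_)
    · simp only [hb, hu]
      congr 1
      have h1 : O.σ⁻¹ ^ L = (O.σ ^ k)⁻¹ * O.σ⁻¹ ^ (L - 1 - k + 1) := by
        rw [← inv_pow, ← pow_add]; congr 1; omega
      rw [h1, Equiv.Perm.mul_apply]
      exact (O.σ ^ k).apply_symm_apply _
    · simp only [hb]
      rw [show L + k + 1 = (k + 1) + L by ring, pow_add O.σ⁻¹ (k + 1) L, Equiv.Perm.mul_apply]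
  obtain ⟨Q0, hQ0, hYQ⟩ := degen_pow (K := K) (x := X) (y := Y) (z := Y)
    (w := dynP d u (2 * L)) (β := fun i => (1 : K) ^ dynE d (2 * L) i)
    (fun i => pow_ne_zero _ one_ne_zero) (N := d ^ (2 * L))
    (fun i hi => top_dynP u Y 1 htopu (2 * L) i hi) m (fun P => κ ((O.σ ^ L) P)) (degI d L)
    (by
      intro c
      obtain ⟨S, a, h1, h2, h3⟩ := hrel c
      refine ⟨S, a, fun s _ => (degen_digits hd1 _ (degC_lt hd1 L s) (2 * L)).1,
        fun s hs t ht h => degI_inj hd1 L (h1 s hs) (h1 t ht) h, h2, fun P hP => ?_⟩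
      rw [← h3 _ hP]
      exact Finset.sum_congr rfl fun s _ => by rw [hF])
  obtain ⟨J0, hJ0, hXJ⟩ := degen_pow (K := K) (x := X) (y := Y) (z := X)
    (w := dynP d b (2 * L)) (β := fun i => (δ⁻¹ : K) ^ dynE d (2 * L) i)
    (fun i => pow_ne_zero _ (inv_ne_zero hδ)) (N := d ^ (2 * L))
    (fun i hi => top_dynP b X δ⁻¹ htopb (2 * L) i hi) m (fun P => κ ((O.σ⁻¹ ^ L) P))
    (fun s => degI d L s.swap)
    (by
      intro c
      obtain ⟨S, a, h1, h2, h3⟩ := hrel c
      refine ⟨S, a, fun s _ => (degen_digits hd1 _ (degC_lt hd1 L s.swap) (2 * L)).1,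
        fun s hs t ht h => ?_, h2, fun P hP => ?_⟩
      · exact Prod.swap_injective (degI_inj hd1 L (h1 s hs).symm (h1 t ht).symm h)
      · rw [← h3 _ hP]
        exact Finset.sum_congr rfl fun s _ => by rw [hB])
  have htop := degen_span (K := K) hXJ hYQ (Fintype.card ι)
  rw [degen_W_top X Y hXY] at htop
  have h1 : Fintype.card ι ≤ J0 * Q0 := by
    have h2 : Module.finrank K (ι → K) = Fintype.card ι := Module.finrank_fintype_fun_eq_card K
    rw [← h2, ← finrank_top (R := K) (M := ι → K), ← top_le_iff.mp htop, ← Finset.coe_image]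
    refine (finrank_span_finset_le_card _).trans (Finset.card_image_le.trans ?_)
    simp
  calc Fintype.card ι ≤ J0 * Q0 := h1
    _ ≤ (m * d ^ (2 * L)) * (m * d ^ (2 * L)) := Nat.mul_le_mul hJ0 hQ0
    _ = (m * d ^ (2 * L)) ^ 2 := by ring

end Pool.Agent.H.MP_0e6b5f_nt.Eng
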