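import Pool.Agent.H.MP_0e6b5f_nt.Eng.Defs

/-!
# Heights and normalised diameters
-/

namespace Pool.Agent.H.MP_0e6b5f_nt.Eng

open Pool.Agent.H.MP_0e6b5f_nt.Dom
open Height Height.AdmissibleAbsValues

variable {K : Type*} [Field K]

/-- The normalised diameter does not change under rescaling by `μ⁻¹`. -/
theorem rho_rev {d : ℕ} (ζ : Fin d → K) {μ : K} (hμ : μ ≠ 0) (v : AbsoluteValue K ℝ) :
    rho (fun i => μ⁻¹ * ζ i) μ⁻¹ v = rho ζ μ v := by
  unfold rho
  have hv : 0 < v μ := v.pos hμ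
  have h1 : (⨆ p : Fin d × Fin d, v (μ⁻¹ * ζ p.1 - μ⁻¹ * ζ p.2))
      = (v μ)⁻¹ * ⨆ p : Fin d × Fin d, v (ζ p.1 - ζ p.2) := by
    rw [Real.mul_iSup_of_nonneg (inv_nonneg.2 hv.le)]
    refine iSup_congr fun p => ?_
    rw [← mul_sub, map_mul, map_inv₀]
  have h2 : max 1 (v μ) = v μ * max 1 (v μ⁻¹) := by
    rw [map_inv₀, mul_max_of_nonneg _ _ hv.le, mul_one, mul_inv_cancel₀ hv.ne', max_comm]
  have h3 : 0 < max 1 (v μ⁻¹) := lt_max_of_lt_left one_pos
  rw [h1, h2]
  field_simp

/-- The diameter of the points is at most `loc`. -/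
theorem diam_le_loc {d : ℕ} (ζ : Fin d → K) (v : AbsoluteValue K ℝ) :
    (⨆ p : Fin d × Fin d, v (ζ p.1 - ζ p.2)) ≤ loc ζ v :=
  Real.iSup_le (fun p => le_loc ζ v p.1 p.2) (zero_le_one.trans (one_le_loc ζ v))

theorem loc_le {d : ℕ} (ζ : Fin d → K) (μ : K) (v : AbsoluteValue K ℝ) {B : ℝ} (hB : 1 ≤ B)
    (h : rho ζ μ v ≤ B) : loc ζ v ≤ B * max (v μ) 1 := by
  have hm : 1 ≤ max (v μ) 1 := le_max_right _ _
  refine ciSup_le fun o => ?_
  rcases o with _ | p
  · have : v (tup ζ none) = 1 := by simp [tup]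
    rw [this]
    nlinarith
  · have h1 : v (ζ p.1 - ζ p.2) ≤ ⨆ p : Fin d × Fin d, v (ζ p.1 - ζ p.2) :=
      le_ciSup (f := fun p : Fin d × Fin d => v (ζ p.1 - ζ p.2)) (Set.finite_range _).bddAbove p
    unfold rho at h
    rw [max_comm, div_le_iff₀ (by linarith)] at h
    exact h1.trans h

variable [AdmissibleAbsValues K]

/-- Only finitely many places are bad. -/
theorem bad_finite {d : ℕ} (ζ : Fin d → K) (μ : K) :
    {v : nonarchAbsVal (K := K) | 1 < rho ζ μ v.val}.Finite := by
  refine (loc_fin ζ).subset fun v hv => ?_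
  rw [Set.mem_ofPred_eq] at hv
  rw [Function.mem_mulSupport]
  intro h1
  have h2 := diam_le_loc ζ v.val
  unfold rho at hv
  rw [lt_div_iff₀ (lt_max_of_lt_left one_pos), one_mul] at hv
  have h3 : (1 : ℝ) ≤ max 1 (v.val μ) := le_max_left _ _
  linarith

/-- Bound for the height in terms of the normalised diameters. -/
theorem mulHeight_le {d : ℕ} (hd : 2 ≤ d) (ζ : Fin d → K) {μ δ : K} (hμ : μ ^ (d - 1) = δ)
    (hδ : δ ≠ 0) {M : ℝ} (hM : 1 ≤ M) (s : ℕ)
    (hs : {v : nonarchAbsVal (K := K) | 1 < rho ζ μ v.val}.ncard ≤ s)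
    (hn : ∀ v ∈ nonarchAbsVal (K := K), rho ζ μ v ≤ M)
    (ha : ∀ v ∈ archAbsVal (K := K), rho ζ μ v ≤ M) :
    mulHeight (tup ζ) * mulHeight₁ δ ≤ M ^ (s + totalWeight K) * mulHeight₁ δ ^ 2 := by
  classical
  have hM0 : 0 ≤ M := zero_le_one.trans hM
  set bad : Set (nonarchAbsVal (K := K)) := {v | 1 < rho ζ μ v.val} with hbad
  have hfin : bad.Finite := bad_finite ζ μ
  set B : nonarchAbsVal (K := K) → ℝ := fun v => if v ∈ bad then M else 1 with hB
  have hBfin : B.HasFiniteMulSupport := by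
    refine hfin.subset fun v hv => ?_
    rw [Function.mem_mulSupport] at hv
    by_contra h
    exact hv (if_neg h)
  have hBprod : ∏ᶠ v, B v = M ^ bad.ncard := by
    rw [finprod_eq_prod_of_mulSupport_subset (s := hfin.toFinset) B (by
      intro v hv
      rw [Function.mem_mulSupport] at hv
      rw [Set.Finite.coe_toFinset]
      by_contra h
      exact hv (if_neg h))]
    rw [Set.ncard_eq_toFinset_card _ hfin, ← Finset.prod_const]
    refine Finset.prod_congr rfl fun v hv => ?_
    exact if_pos ((Set.Finite.mem_toFinset hfin).1 hv)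
  have hB1 : ∀ v, 1 ≤ B v := by
    intro v
    simp only [hB]
    split_ifs
    · exact hM
    · exact le_rfl
  have hN : (∏ᶠ v : nonarchAbsVal (K := K), loc ζ v.val) ≤
      (∏ᶠ v, B v) * ∏ᶠ v : nonarchAbsVal (K := K), max (v.val μ) 1 := by
    rw [← finprod_mul_distrib hBfin (max_fin μ)]
    refine finprod_le_finprod (loc_fin ζ) (fun v => zero_le_one.trans (one_le_loc ζ v.val))
      (hBfin.fun_mul (max_fin μ)) fun v => ?_
    refine loc_le ζ μ v.val (hB1 v) ?_
    simp only [hB]
    split_ifs with h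
    · exact hn v.val v.property
    · exact not_lt.1 h
  have hA : (archAbsVal.map (fun v : AbsoluteValue K ℝ => loc ζ v)).prod ≤
      M ^ totalWeight K * (archAbsVal.map (fun v : AbsoluteValue K ℝ => max (v μ) 1)).prod := by
    have h1 : (archAbsVal.map (fun v : AbsoluteValue K ℝ => loc ζ v)).prod ≤
        (archAbsVal.map (fun v : AbsoluteValue K ℝ => M * max (v μ) 1)).prod :=
      Multiset.prod_map_le_prod_map₀ _ _ (fun v _ => zero_le_one.trans (one_le_loc ζ v))
        (fun v hv => loc_le ζ μ v hM (ha v hv))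
    refine h1.trans (le_of_eq ?_)
    rw [Multiset.prod_map_mul, Multiset.map_const', Multiset.prod_replicate]
    rfl
  have hA0 : 0 ≤ (archAbsVal.map (fun v : AbsoluteValue K ℝ => max (v μ) 1)).prod := by
    refine Multiset.prod_nonneg ?_
    intro a ha'
    obtain ⟨v, -, rfl⟩ := Multiset.mem_map.mp ha'
    exact zero_le_one.trans (le_max_right _ _)
  have hN0 : 0 ≤ ∏ᶠ v : nonarchAbsVal (K := K), loc ζ v.val :=
    finprod_nonneg fun v => zero_le_one.trans (one_le_loc ζ v.val)
  have hm0 : 0 ≤ ∏ᶠ v : nonarchAbsVal (K := K), max (v.val μ) 1 :=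
    finprod_nonneg fun v => zero_le_one.trans (le_max_right _ _)
  have h1 : mulHeight (tup ζ) ≤ M ^ (s + totalWeight K) * mulHeight₁ μ := by
    rw [mulHeight_tup, mulHeight₁_eq]
    have h2 : (∏ᶠ v, B v) ≤ M ^ s := by
      rw [hBprod]
      exact pow_le_pow_right₀ hM hs
    calc (archAbsVal.map (fun v : AbsoluteValue K ℝ => loc ζ v)).prod *
          ∏ᶠ v : nonarchAbsVal (K := K), loc ζ v.val
        ≤ (M ^ totalWeight K * (archAbsVal.map (fun v : AbsoluteValue K ℝ => max (v μ) 1)).prod) *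
          ((∏ᶠ v, B v) * ∏ᶠ v : nonarchAbsVal (K := K), max (v.val μ) 1) :=
          mul_le_mul hA hN hN0 (mul_nonneg (pow_nonneg hM0 _) hA0)
      _ ≤ (M ^ totalWeight K * (archAbsVal.map (fun v : AbsoluteValue K ℝ => max (v μ) 1)).prod) *
          (M ^ s * ∏ᶠ v : nonarchAbsVal (K := K), max (v.val μ) 1) :=
          mul_le_mul_of_nonneg_left (mul_le_mul_of_nonneg_right h2 hm0)
            (mul_nonneg (pow_nonneg hM0 _) hA0)
      _ = _ := by rw [pow_add]; ring
  have h3 : mulHeight₁ μ ≤ mulHeight₁ δ := by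
    rw [← hμ, mulHeight₁_pow]
    exact le_self_pow₀ (one_le_mulHeight₁ μ) (by omega)
  have h4 := one_le_mulHeight₁ δ
  calc mulHeight (tup ζ) * mulHeight₁ δ
      ≤ (M ^ (s + totalWeight K) * mulHeight₁ μ) * mulHeight₁ δ :=
        mul_le_mul_of_nonneg_right h1 (by linarith)
    _ ≤ (M ^ (s + totalWeight K) * mulHeight₁ δ) * mulHeight₁ δ :=
        mul_le_mul_of_nonneg_right (mul_le_mul_of_nonneg_left h3 (pow_nonneg hM0 _))
          (by linarith)
    _ = _ := by ring

/-- Each absolute value of `x` is bounded by the height. -/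
theorem le_mulHeight₁ (x : K) (w : AbsoluteValue K ℝ)
    (hw : w ∈ nonarchAbsVal (K := K) ∨ w ∈ archAbsVal (K := K)) : w x ≤ mulHeight₁ x := by
  classical
  rw [mulHeight₁_eq]
  have hA1 : 1 ≤ (archAbsVal.map (fun v : AbsoluteValue K ℝ => max (v x) 1)).prod :=
    Multiset.one_le_prod_map fun _ _ => le_max_right ..
  have hN1 : 1 ≤ ∏ᶠ v : nonarchAbsVal (K := K), max (v.val x) 1 :=
    one_le_finprod fun _ => le_max_right ..
  rcases hw with hw | hw
  · have h1 : max (w x) 1 ≤ ∏ᶠ v : nonarchAbsVal (K := K), max (v.val x) 1 := by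
      have hite : (fun v : nonarchAbsVal (K := K) =>
          if v = ⟨w, hw⟩ then max (w x) 1 else 1).HasFiniteMulSupport := by
        refine (Set.finite_singleton (⟨w, hw⟩ : nonarchAbsVal (K := K))).subset ?_
        intro v hv
        by_contra hcon
        apply hv
        exact if_neg (fun h => hcon (by rw [h]; exact Set.mem_singleton _))
      have h2 : (∏ᶠ v : nonarchAbsVal (K := K), (if v = ⟨w, hw⟩ then max (w x) 1 else 1)) ≤
          ∏ᶠ v : nonarchAbsVal (K := K), max (v.val x) 1 := by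
        refine finprod_le_finprod hite (fun v => ?_) (max_fin x) (fun v => ?_)
        · show (0 : ℝ) ≤ if v = ⟨w, hw⟩ then max (w x) 1 else 1
          split_ifs
          · exact zero_le_one.trans (le_max_right _ _)
          · exact zero_le_one
        · show (if v = ⟨w, hw⟩ then max (w x) 1 else 1) ≤ max (v.val x) 1
          split_ifs with h
          · subst h; exact le_rfl
          · exact le_max_right _ _
      rw [finprod_eq_single _ (⟨w, hw⟩ : nonarchAbsVal (K := K)) (fun v hv => if_neg hv),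
        if_pos rfl] at h2
      exact h2
    have h3 : w x ≤ max (w x) 1 := le_max_left _ _
    have h4 : 0 ≤ max (w x) 1 := zero_le_one.trans (le_max_right _ _)
    nlinarith
  · have h1 : max (w x) 1 ≤ (archAbsVal.map (fun v : AbsoluteValue K ℝ => max (v x) 1)).prod := by
      rw [← Multiset.cons_erase hw, Multiset.map_cons, Multiset.prod_cons]
      have h5 : 1 ≤ ((archAbsVal.erase w).map (fun v : AbsoluteValue K ℝ => max (v x) 1)).prod :=
        Multiset.one_le_prod_map fun _ _ => le_max_right ..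
      have h6 : 0 ≤ max (w x) 1 := zero_le_one.trans (le_max_right _ _)
      nlinarith
    have h3 : w x ≤ max (w x) 1 := le_max_left _ _
    have h4 : 0 ≤ max (w x) 1 := zero_le_one.trans (le_max_right _ _)
    nlinarith

end Pool.Agent.H.MP_0e6b5f_nt.Eng
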