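import Pool.Agent.H.MP_0e6b5f_nt.Eng.Engine

/-!
# Time reversal and the bound at one place
-/

namespace Pool.Agent.H.MP_0e6b5f_nt.Eng

open Pool.Agent.H.MP_0e6b5f_nt.Dom
open Height Height.AdmissibleAbsValues Function Real

variable {K : Type*} [Field K]

/-- Time reversal. -/
def rev {d : ℕ} (hd : 2 ≤ d) {ζ : Fin d → K} {δ μ : K} (hδ : δ ≠ 0) (hμ : μ ^ (d - 1) = δ)
    {ι : Type*} (O : Orb ζ δ ι) : Orb (fun i => μ⁻¹ * ζ i) δ⁻¹ ι where
  σ := O.σ⁻¹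
  y := fun P => μ⁻¹ * O.y P
  rel := fun P => by
    have hμ0 : μ ≠ 0 := by
      rintro rfl
      apply hδ
      rw [← hμ, zero_pow (by omega)]
    have h1 := O.rel P
    rw [nf_eval] at h1
    rw [nf_eval, inv_inv]
    have h2 : ∏ i, (μ⁻¹ * O.y P - μ⁻¹ * ζ i) = δ⁻¹ * μ⁻¹ * ∏ i, (O.y P - ζ i) := by
      have h3 : ∀ i, μ⁻¹ * O.y P - μ⁻¹ * ζ i = μ⁻¹ * (O.y P - ζ i) := fun i => by ring
      simp only [h3]
      rw [Finset.prod_mul_distrib, Finset.prod_const, Finset.card_univ, Fintype.card_fin]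
      congr 1
      have h4 : μ ^ d = δ * μ := by
        rw [← hμ, ← pow_succ, Nat.sub_add_cancel (by omega)]
      rw [inv_pow, h4, mul_inv]
    rw [h2]
    have h3 : ∏ i, (O.y P - ζ i) = O.y (O.σ P) + δ * O.y (O.σ⁻¹ P) - (1 + δ) * O.y P := by
      rw [h1]; ring
    rw [h3]
    field_simp
    ring

variable [AdmissibleAbsValues K]

theorem mono4 {s t : ℝ} (hs : 1 ≤ s) (hst : s ≤ t) :
    (s * (1 + log s)) ^ 4 ≤ (t * (1 + log t)) ^ 4 := by
  have h1 : 0 ≤ log s := log_nonneg hs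
  have h2 : log s ≤ log t := log_le_log (by linarith) hst
  apply pow_le_pow_left₀ (by positivity)
  exact mul_le_mul hst (by linarith) (by linarith) (by linarith)

/-- The bound at a place where the Jacobian is at most one, in terms of the normalised diameter. -/
theorem one_side {d : ℕ} (hd : 2 ≤ d) {ζ : Fin d → K} {i₀ : Fin d} (hi₀ : ζ i₀ = 0) {δ μ : K}
    (hδ : δ ≠ 0) (hμ : μ ^ (d - 1) = δ) {ι : Type*} [Fintype ι] (O : Orb ζ δ ι)
    (hinj : ∀ P Q, O.y P = O.y Q → O.y (O.σ⁻¹ P) = O.y (O.σ⁻¹ Q) → P = Q)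
    (w : AbsoluteValue K ℝ)
    (hw : (w ∈ nonarchAbsVal (K := K) ∧ 1 < rho ζ μ w) ∨
      (w ∉ nonarchAbsVal (K := K) ∧ w ∈ archAbsVal (K := K) ∧
        2 ^ (200 * d ^ 3) ≤ rho ζ μ w)) (hwδ : w δ ≤ 1) {H : ℝ}
    (hH : log (mulHeight (tup ζ) * mulHeight₁ δ) ≤ H) :
    (Fintype.card ι : ℝ) ≤ cE d *
      ((1 + (totalWeight K + H) / log (rho ζ μ w)) *
      (1 + log (1 + (totalWeight K + H) / log (rho ζ μ w)))) ^ 4 := by
  classical
  have hwμ : w μ ≤ 1 := by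
    by_contra hcon
    push Not at hcon
    have h1 : 1 < w μ ^ (d - 1) := one_lt_pow₀ hcon (by omega)
    rw [← w.map_pow, hμ] at h1
    linarith
  have hrho : rho ζ μ w = ⨆ p : Fin d × Fin d, w (ζ p.1 - ζ p.2) := by
    rw [rho, max_eq_left hwμ, div_one]
  set R := rho ζ μ w with hR
  have hne : Nonempty (Fin d × Fin d) := ⟨(⟨0, by omega⟩, ⟨0, by omega⟩)⟩
  have hle : ∀ i j, w (ζ i - ζ j) ≤ R := by
    intro i j
    rw [hrho]
    exact le_ciSup (f := fun p : Fin d × Fin d => w (ζ p.1 - ζ p.2))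
      (Set.finite_range _).bddAbove (i, j)
  obtain ⟨p, hp⟩ := exists_eq_ciSup_of_finite
    (f := fun p : Fin d × Fin d => w (ζ p.1 - ζ p.2))
  have hpow2 : (1 : ℝ) < 2 ^ (200 * d ^ 3) := by
    apply one_lt_pow₀ (by norm_num)
    have : 0 < d ^ 3 := by positivity
    omega
  have h40 : 40 * d + 80 ≤ 200 * d ^ 3 := by
    have h1 : 2 * 2 ≤ d * d := Nat.mul_le_mul hd hd
    have h2 : d ^ 3 = d * d * d := by ring
    rw [h2]
    nlinarith
  obtain ⟨A, hA, hqu, hwA, hAR⟩ : ∃ A : ℝ, 1 ≤ A ∧ QU w A ∧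
      ((w ∈ nonarchAbsVal (K := K) ∧ A = 1) ∨
      (w ∉ nonarchAbsVal (K := K) ∧ w ∈ archAbsVal (K := K) ∧ A = 2)) ∧
      A ^ (200 * d ^ 3) ≤ R := by
    rcases hw with ⟨h1, h2⟩ | ⟨h1, h2, h3⟩
    · exact ⟨1, le_rfl, QU.of_nonarch (isNonarchimedean w h1), Or.inl ⟨h1, rfl⟩, by
        rw [one_pow]; exact h2.le⟩
    · exact ⟨2, by norm_num, QU.of_two w, Or.inr ⟨h1, h2, rfl⟩, h3⟩
  have hR1 : 1 < R := by
    rcases hw with ⟨h1, h2⟩ | ⟨h1, h2, h3⟩
    · exact h2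
    · exact hpow2.trans_le h3
  have hbad : Bad ζ δ w A R 1 := {
    hd := hd
    qu := hqu
    hA := hA
    hR := hR1
    hζ := fun i => by
      have := hle i i₀
      rwa [hi₀, sub_zero] at this
    hdiam := ⟨p.1, p.2, by rw [hrho, ← hp]⟩
    he := le_rfl
    hδ := hwδ
    heR := by rw [one_pow]; exact hR1.le
    hAR := (pow_le_pow_right₀ hA h40).trans hAR }
  have h1 := engine hd hi₀ hδ O hinj w hbad hwA hAR
  refine h1.trans (mul_le_mul_of_nonneg_left ?_ (cE_nonneg d))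
  have hlog : 0 < log R := log_pos hR1
  have hHt : 0 ≤ log (mulHeight (tup ζ) * mulHeight₁ δ) :=
    log_nonneg (one_le_mul_of_one_le_of_one_le (one_le_mulHeight _) (one_le_mulHeight₁ _))
  apply mono4
  · have : 0 ≤ ((totalWeight K : ℕ) + log (mulHeight (tup ζ) * mulHeight₁ δ)) / log R := by
      positivity
    linarith
  · have : ((totalWeight K : ℕ) + log (mulHeight (tup ζ) * mulHeight₁ δ)) / log R ≤
        ((totalWeight K : ℕ) + H) / log R :=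
      div_le_div_of_nonneg_right (by linarith) hlog.le
    linarith

/-- The bound at one place, without condition on the Jacobian. -/
theorem sym_engine {d : ℕ} (hd : 2 ≤ d) {ζ : Fin d → K} {i₀ : Fin d} (hi₀ : ζ i₀ = 0) {δ μ : K}
    (hδ : δ ≠ 0) (hμ : μ ^ (d - 1) = δ) {ι : Type*} [Fintype ι] (O : Orb ζ δ ι)
    (hinj : ∀ P Q, O.y P = O.y Q → O.y (O.σ⁻¹ P) = O.y (O.σ⁻¹ Q) → P = Q)
    (w : AbsoluteValue K ℝ)
    (hw : (w ∈ nonarchAbsVal (K := K) ∧ 1 < rho ζ μ w) ∨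
      (w ∉ nonarchAbsVal (K := K) ∧ w ∈ archAbsVal (K := K) ∧
        2 ^ (200 * d ^ 3) ≤ rho ζ μ w)) {H : ℝ}
    (hH : log (mulHeight (tup ζ) * mulHeight₁ δ) ≤ H)
    (hH' : log (mulHeight (tup (fun i => μ⁻¹ * ζ i)) * mulHeight₁ δ⁻¹) ≤ H) :
    (Fintype.card ι : ℝ) ≤ cE d *
      ((1 + (totalWeight K + H) / log (rho ζ μ w)) *
      (1 + log (1 + (totalWeight K + H) / log (rho ζ μ w)))) ^ 4 := by
  have hμ0 : μ ≠ 0 := by
    rintro rfl
    apply hδ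
    rw [← hμ, zero_pow (by omega)]
  rcases le_or_gt (w δ) 1 with h | h
  · exact one_side hd hi₀ hδ hμ O hinj w hw h hH
  · have hwδ : 0 < w δ := w.pos hδ
    have h1 := one_side hd (ζ := fun i => μ⁻¹ * ζ i) (i₀ := i₀) (by rw [hi₀, mul_zero])
      (inv_ne_zero hδ) (μ := μ⁻¹) (by rw [inv_pow, hμ]) (rev hd hδ hμ O)
      (by
        intro P Q hPQ hPQ'
        have e1 : O.y P = O.y Q := mul_right_injective₀ (inv_ne_zero hμ0) hPQ
        have e2 : O.y (O.σ P) = O.y (O.σ Q) := by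
          have e3 : ((O.σ⁻¹)⁻¹ : Equiv.Perm ι) = O.σ := inv_inv _
          have e4 : μ⁻¹ * O.y ((O.σ⁻¹)⁻¹ P) = μ⁻¹ * O.y ((O.σ⁻¹)⁻¹ Q) := hPQ'
          rw [e3] at e4
          exact mul_right_injective₀ (inv_ne_zero hμ0) e4
        apply hinj P Q e1
        have r1 := O.rel P
        have r2 := O.rel Q
        rw [e1] at r1
        rw [← r2, e2] at r1
        exact mul_right_injective₀ hδ (add_left_cancel r1))
      w (by rw [rho_rev ζ hμ0 w]; exact hw)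
      (by rw [map_inv₀]; exact inv_le_one_of_one_le₀ h.le) hH'
    rw [rho_rev ζ hμ0 w] at h1
    exact h1

end Pool.Agent.H.MP_0e6b5f_nt.Eng
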