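import Mathlib

/-!
# The numerical inequality
-/

namespace Pool.Agent.H.MP_0e6b5f_nt.Eng

open Real

/-- The exponent of the radius of the cells. -/
noncomputable def eps (d : ℕ) : ℝ := (2 * d - 1) / (2 * (d - 1) ^ 2)

/-- Constants. -/
noncomputable def C1 (d : ℕ) : ℝ := 2 + 4 * (d - 1) * (d + 3)

/-- Constants. -/
noncomputable def C3 (d : ℕ) : ℝ := 192 * d * (d - 1) * C1 d

/-- Constants. -/
noncomputable def C5 (d : ℕ) : ℝ := 64 * C3 d ^ 2

theorem C1_ge {d : ℕ} (hd : 2 ≤ d) : (d : ℝ) + 4 ≤ C1 d := by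
  have h : (2 : ℝ) ≤ d := by exact_mod_cast hd
  unfold C1
  nlinarith

theorem C3_ge {d : ℕ} (hd : 2 ≤ d) : 48 * d * (d - 1) * ((d : ℝ) + 4) ≤ C3 d ∧ 1 ≤ C3 d := by
  have h : (2 : ℝ) ≤ d := by exact_mod_cast hd
  have h1 := C1_ge hd
  have h2 : (1 : ℝ) ≤ d * (d - 1) := by nlinarith
  have h3 : (0 : ℝ) ≤ d * (d - 1) := by linarith
  unfold C3
  constructor
  · have h4 : 48 * ((d : ℝ) * (d - 1)) * ((d : ℝ) + 4) ≤ 192 * (d * (d - 1)) * C1 d := by
      have := mul_le_mul_of_nonneg_left h1 h3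
      nlinarith
    linarith
  · have h4 : (1 : ℝ) ≤ C1 d := by linarith
    have h5 : 1 * 1 ≤ ((d : ℝ) * (d - 1)) * C1 d := mul_le_mul h2 h4 zero_le_one h3
    linarith

/-- The choice of `x`. -/
theorem x_large {d : ℕ} (hd : 2 ≤ d) {Y : ℝ} (hY : 1 ≤ Y) :
    C3 d * Y * (1 + log (C5 d * (Y * (1 + log Y)))) ≤ C5 d * (Y * (1 + log Y)) := by
  have hC := (C3_ge hd).2
  have hC0 : 0 < C3 d := by linarith
  have hY0 : 0 < Y := by linarith
  have hlY : 0 ≤ log Y := log_nonneg hY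
  have h1 : log (C5 d) ≤ 16 * C3 d - 2 := by
    have e1 : C5 d = (8 * C3 d) ^ 2 := by unfold C5; ring
    rw [e1, log_pow]
    have := log_le_sub_one_of_pos (by positivity : 0 < 8 * C3 d)
    push_cast
    linarith
  have h2 : log (1 + log Y) ≤ log Y := by
    have := log_le_sub_one_of_pos (by linarith : 0 < 1 + log Y)
    linarith
  have hC5 : 0 < C5 d := by unfold C5; positivity
  rw [log_mul hC5.ne' (by positivity), log_mul hY0.ne' (by linarith)]
  have h3 : 1 + (log (C5 d) + (log Y + log (1 + log Y))) ≤ 64 * C3 d * (1 + log Y) := by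
    nlinarith
  calc C3 d * Y * (1 + (log (C5 d) + (log Y + log (1 + log Y))))
      ≤ C3 d * Y * (64 * C3 d * (1 + log Y)) := mul_le_mul_of_nonneg_left h3 (by positivity)
    _ = C5 d * (Y * (1 + log Y)) := by unfold C5; ring

section

variable {d : ℕ} {l m α a₁ a₂ b₁ b₂ : ℝ}

theorem c0_bounds (hd : 2 ≤ d) : 0 < 1 / (2 * (d : ℝ) * (d - 1)) ∧
    1 / (2 * (d : ℝ) * (d - 1)) ≤ 1 / 4 := by
  have h : (2 : ℝ) ≤ d := by exact_mod_cast hd
  have h1 : (2 : ℝ) ≤ d * (d - 1) := by nlinarith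
  constructor
  · apply one_div_pos.mpr
    nlinarith
  · apply one_div_le_one_div_of_le (by norm_num)
    linarith

theorem small_alpha (hd : 2 ≤ d) (hl : 0 ≤ l) (hα : 0 ≤ α) (hαl : 200 * (d : ℝ) ^ 3 * α ≤ l) :
    (2 * d + 6) * α ≤ 1 / (2 * (d : ℝ) * (d - 1)) / 12 * l := by
  have h : (2 : ℝ) ≤ d := by exact_mod_cast hd
  have h1 : (0 : ℝ) < 2 * d * (d - 1) := by nlinarith
  have h2 : 1 / (2 * (d : ℝ) * (d - 1)) / 12 * l = l / (12 * (2 * (d : ℝ) * (d - 1))) := by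
    field_simp
  rw [h2, le_div_iff₀ (by positivity)]
  refine le_trans ?_ hαl
  have h3 : (2 * (d : ℝ) + 6) * (12 * (2 * d * (d - 1))) ≤ 200 * (d : ℝ) ^ 3 := by
    have h4 : 0 ≤ (d : ℝ) * ((d - 2) * d) := by
      apply mul_nonneg (by linarith) (mul_nonneg (by linarith) (by linarith))
    nlinarith
  calc (2 * (d : ℝ) + 6) * α * (12 * (2 * d * (d - 1))) =
        (2 * (d : ℝ) + 6) * (12 * (2 * d * (d - 1))) * α := by ring
    _ ≤ 200 * (d : ℝ) ^ 3 * α := mul_le_mul_of_nonneg_right h3 hα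

/-- The gain of the cells is larger than the growth of the weights. -/
theorem prod_gain (hd : 2 ≤ d) (hl : 0 < l) (hm : 0 ≤ m) (hα : 0 ≤ α)
    (hαl : 200 * (d : ℝ) ^ 3 * α ≤ l)
    (hb1 : b₁ = (2 * d + 6) * α + d * l + d * m) (hb2 : b₂ = (2 * d + 6) * α + l)
    (ha1 : a₁ = (d + eps d) * l + (d - 1) * m) (ha2 : a₂ = (1 + eps d) * l) :
    (1 + 1 / (2 * (d : ℝ) * (d - 1)) / 2) * (b₁ * b₂) ≤ a₁ * a₂ := by
  have h : (2 : ℝ) ≤ d := by exact_mod_cast hd
  set c := 1 / (2 * (d : ℝ) * (d - 1)) with hc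
  obtain ⟨hc0, hc1⟩ := c0_bounds hd
  rw [← hc] at hc0 hc1
  have hs := small_alpha hd hl.le hα hαl
  rw [← hc] at hs
  have hd1 : (0 : ℝ) < (d : ℝ) - 1 := by linarith
  have heps : ((d : ℝ) - 1) * (1 + eps d) = (1 + c) * d := by
    rw [hc]; unfold eps; field_simp; ring
  have heps0 : 0 < eps d := by
    unfold eps
    apply div_pos (by linarith) (by positivity)
  have hb1' : b₁ ≤ (1 + c / 12) * (d * (l + m)) := by
    rw [hb1]
    have h1 : c / 12 * l ≤ c / 12 * (d * (l + m)) := by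
      apply mul_le_mul_of_nonneg_left _ (by positivity)
      nlinarith
    nlinarith
  have hb2' : b₂ ≤ (1 + c / 12) * l := by rw [hb2]; linarith
  have hb20 : 0 ≤ b₂ := by rw [hb2]; positivity
  have h1 : b₁ * b₂ ≤ (1 + c / 12) * (d * (l + m)) * ((1 + c / 12) * l) :=
    mul_le_mul hb1' hb2' hb20 (by positivity)
  have h2 : (1 + c) * (d * (l + m) * l) ≤ a₁ * a₂ := by
    have h3 : ((d : ℝ) - 1) * (l + m) ≤ a₁ := by
      rw [ha1]
      have : 0 ≤ (1 + eps d) * l := by positivity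
      linarith
    calc (1 + c) * (d * (l + m) * l) = ((1 + c) * d) * (l + m) * l := by ring
      _ = (((d : ℝ) - 1) * (l + m)) * ((1 + eps d) * l) := by rw [← heps]; ring
      _ ≤ a₁ * a₂ := by
          rw [ha2]
          exact mul_le_mul_of_nonneg_right h3 (by positivity)
  have h3 : (1 + c / 2) * ((1 + c / 12) * (1 + c / 12)) ≤ 1 + c := by
    nlinarith [mul_nonneg hc0.le hc0.le, mul_nonneg (mul_nonneg hc0.le hc0.le) hc0.le]
  have h4 : 0 ≤ d * (l + m) * l := by positivity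
  calc (1 + c / 2) * (b₁ * b₂) ≤
        (1 + c / 2) * ((1 + c / 12) * (d * (l + m)) * ((1 + c / 12) * l)) :=
        mul_le_mul_of_nonneg_left h1 (by positivity)
    _ = ((1 + c / 2) * ((1 + c / 12) * (1 + c / 12))) * (d * (l + m) * l) := by ring
    _ ≤ (1 + c) * (d * (l + m) * l) := mul_le_mul_of_nonneg_right h3 h4
    _ ≤ a₁ * a₂ := h2

/-- The gain in the exponent. -/
theorem exp_gain (hd : 2 ≤ d) {T : ℝ} (hT : 0 ≤ T) (hb : 0 < b₁ * b₂) (ha : 0 ≤ a₁ + a₂)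
    (hab : (1 + 1 / (2 * (d : ℝ) * (d - 1)) / 2) * (b₁ * b₂) ≤ a₁ * a₂)
    (haT : a₁ + a₂ ≤ 1 / (2 * (d : ℝ) * (d - 1)) / 24 * T) :
    (T + a₁ + a₂) ^ 3 / (6 * a₁ * a₂) - T ^ 3 / (6 * b₁ * b₂) ≤
      - (1 / (2 * (d : ℝ) * (d - 1)) / 24 * (T ^ 3 / (b₁ * b₂))) := by
  set c := 1 / (2 * (d : ℝ) * (d - 1)) with hc
  obtain ⟨hc0, hc1⟩ := c0_bounds hd
  rw [← hc] at hc0 hc1
  have h1 : (T + a₁ + a₂) ^ 3 ≤ (1 + c / 6) * T ^ 3 := by
    have h2 : T + a₁ + a₂ ≤ (1 + c / 24) * T := by linarith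
    calc (T + a₁ + a₂) ^ 3 ≤ ((1 + c / 24) * T) ^ 3 := pow_le_pow_left₀ (by linarith) h2 3
      _ = (1 + c / 24) ^ 3 * T ^ 3 := by ring
      _ ≤ (1 + c / 6) * T ^ 3 := by
          apply mul_le_mul_of_nonneg_right _ (by positivity)
          nlinarith [mul_nonneg hc0.le hc0.le, mul_nonneg (mul_nonneg hc0.le hc0.le) hc0.le]
  have hB : 0 < (1 + c / 2) * (b₁ * b₂) := by positivity
  have h2 : (T + a₁ + a₂) ^ 3 / (6 * a₁ * a₂) ≤
      (1 + c / 6) * T ^ 3 / (6 * ((1 + c / 2) * (b₁ * b₂))) := by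
    have e1 : 6 * a₁ * a₂ = 6 * (a₁ * a₂) := by ring
    rw [e1]
    calc (T + a₁ + a₂) ^ 3 / (6 * (a₁ * a₂)) ≤
          (T + a₁ + a₂) ^ 3 / (6 * ((1 + c / 2) * (b₁ * b₂))) := by
          apply div_le_div_of_nonneg_left (pow_nonneg (by linarith) 3) (by positivity)
          linarith
      _ ≤ _ := div_le_div_of_nonneg_right h1 (by positivity)
  have h3 : (1 + c / 6) * T ^ 3 / (6 * ((1 + c / 2) * (b₁ * b₂))) - T ^ 3 / (6 * b₁ * b₂) =
      - ((c / 18) / (1 + c / 2) * (T ^ 3 / (b₁ * b₂))) := by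
    have hb1 : b₁ ≠ 0 := left_ne_zero_of_mul hb.ne'
    have hb2 : b₂ ≠ 0 := right_ne_zero_of_mul hb.ne'
    have hc2 : (1 + c / 2) ≠ 0 := by positivity
    field_simp
    ring
  have h4 : c / 24 ≤ (c / 18) / (1 + c / 2) := by
    rw [le_div_iff₀ (by positivity)]
    nlinarith [mul_nonneg hc0.le hc0.le]
  have h5 : 0 ≤ T ^ 3 / (b₁ * b₂) := by positivity
  have h6 := mul_le_mul_of_nonneg_right h4 h5
  linarith

end

/-- The numerical inequality. -/
theorem numeric {d : ℕ} (hd : 2 ≤ d) {l m α D h Y x T a₁ a₂ b₁ b₂ : ℝ} (hl : 0 < l) (hm : 0 ≤ m)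
    (hmh : m ≤ h) (hα : 0 ≤ α) (hαl : 200 * (d : ℝ) ^ 3 * α ≤ l) (hD : 0 ≤ D)
    (hb1 : b₁ = (2 * d + 6) * α + d * l + d * m) (hb2 : b₂ = (2 * d + 6) * α + l)
    (ha1 : a₁ = (d + eps d) * l + (d - 1) * m) (ha2 : a₂ = (1 + eps d) * l)
    (hY : Y = 1 + (D + h) / l) (hx : x = C5 d * (Y * (1 + log Y))) (hT : T = l * x)
    {n L : ℕ} (hn : (n : ℝ) ≤ (T / b₁ + 1) * (T / b₂ + 1)) (hL : L = Nat.log d ⌊x⌋₊ + 1) :
    (T + a₁ + a₂) ^ 3 / (6 * a₁ * a₂) - T ^ 3 / (6 * b₁ * b₂) +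
      (D * (log (n.factorial : ℝ) + ((d + 3) * (2 * (d - 1) * L * n) : ℕ) * log 2) +
      (2 * (d - 1) * L * n : ℕ) * h) < 0 := by
  have hd' : (2 : ℝ) ≤ d := by exact_mod_cast hd
  have hd1 : (0 : ℝ) < (d : ℝ) - 1 := by linarith
  have hh : 0 ≤ h := hm.trans hmh
  have hY1 : 1 ≤ Y := by
    rw [hY]
    have : 0 ≤ (D + h) / l := by positivity
    linarith
  have hlY : l + D + h = l * Y := by
    rw [hY]; field_simp; ring
  have hlogY : 0 ≤ log Y := log_nonneg hY1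
  have hC3 := C3_ge hd
  have hC30 : 0 < C3 d := by linarith [hC3.2]
  -- lower bounds for x
  have hxl : C3 d * Y * (1 + log x) ≤ x := by
    have := x_large hd hY1
    rw [← hx] at this
    exact this
  have hx1 : 1 ≤ x := by
    rw [hx]
    have h1 : 1 ≤ C5 d := by unfold C5; nlinarith [hC3.2]
    have h2 : 1 ≤ Y * (1 + log Y) := one_le_mul_of_one_le_of_one_le hY1 (by linarith)
    exact one_le_mul_of_one_le_of_one_le h1 h2
  have hlogx : 0 ≤ log x := log_nonneg hx1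
  have hxY : C3 d * Y ≤ x := by
    refine le_trans ?_ hxl
    have : 0 ≤ C3 d * Y := by positivity
    nlinarith
  set c := 1 / (2 * (d : ℝ) * (d - 1)) with hc
  obtain ⟨hc0, hc1⟩ := c0_bounds hd
  rw [← hc] at hc0 hc1
  have hcd : c * (2 * d * (d - 1)) = 1 := by
    rw [hc]; field_simp
  have hs := small_alpha hd hl.le hα hαl
  rw [← hc] at hs
  have hTpos : 0 < T := by rw [hT]; positivity
  -- comparison with T
  have hlm : l + m ≤ l * Y := by linarith
  have hTbig : 48 * d * (d - 1) * ((d : ℝ) + 4) * (l * Y) ≤ T := by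
    rw [hT]
    calc 48 * d * (d - 1) * ((d : ℝ) + 4) * (l * Y) ≤ C3 d * (l * Y) :=
          mul_le_mul_of_nonneg_right hC3.1 (by positivity)
      _ = l * (C3 d * Y) := by ring
      _ ≤ l * x := mul_le_mul_of_nonneg_left hxY hl.le
  have hTbig' : ((d : ℝ) + 4) * (l * Y) ≤ c / 24 * T := by
    have h1 : c / 24 * (48 * d * (d - 1) * ((d : ℝ) + 4) * (l * Y)) =
        (c * (2 * d * (d - 1))) * (((d : ℝ) + 4) * (l * Y)) := by ring
    rw [hcd, one_mul] at h1
    rw [← h1]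
    exact mul_le_mul_of_nonneg_left hTbig (by positivity)
  have heps0 : 0 < eps d := by
    unfold eps
    apply div_pos (by linarith) (by positivity)
  have heps1 : eps d ≤ 3 / 2 := by
    unfold eps
    rw [div_le_iff₀ (by positivity)]
    nlinarith
  have ha1pos : 0 < a₁ := by rw [ha1]; positivity
  have ha2pos : 0 < a₂ := by rw [ha2]; positivity
  have hb1pos : 0 < b₁ := by rw [hb1]; positivity
  have hb2pos : 0 < b₂ := by rw [hb2]; positivity
  have haT : a₁ + a₂ ≤ c / 24 * T := by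
    refine le_trans ?_ hTbig'
    have h1 : a₁ + a₂ ≤ (d + 4) * (l + m) := by
      rw [ha1, ha2]
      nlinarith [mul_le_mul_of_nonneg_right heps1 hl.le]
    exact h1.trans (mul_le_mul_of_nonneg_left hlm (by positivity))
  have hc24 : c / 24 * T ≤ T := by nlinarith
  have hb1T : b₁ ≤ T := by
    refine le_trans ?_ (hTbig'.trans hc24)
    have h1 : b₁ ≤ (d + 4) * (l + m) := by
      rw [hb1]
      nlinarith
    exact h1.trans (mul_le_mul_of_nonneg_left hlm (by positivity))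
  have hb2T : b₂ ≤ T := by
    refine le_trans ?_ hb1T
    rw [hb1, hb2]
    nlinarith
  have hlb2 : l ≤ b₂ := by
    rw [hb2]
    have : 0 ≤ (2 * (d : ℝ) + 6) * α := by positivity
    linarith
  have hlb1 : l ≤ b₁ := by
    rw [hb1]
    have : 0 ≤ (2 * (d : ℝ) + 6) * α := by positivity
    nlinarith
  have hgain := exp_gain hd hTpos.le (mul_pos hb1pos hb2pos) (by linarith)
    (prod_gain hd hl hm hα hαl hb1 hb2 ha1 ha2) haT
  rw [← hc] at hgain
  -- the number of indices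
  have hn4 : (n : ℝ) ≤ 4 * (T ^ 2 / (b₁ * b₂)) := by
    have h1 : T / b₁ + 1 ≤ 2 * (T / b₁) := by
      have : 1 ≤ T / b₁ := (one_le_div hb1pos).mpr hb1T
      linarith
    have h2 : T / b₂ + 1 ≤ 2 * (T / b₂) := by
      have : 1 ≤ T / b₂ := (one_le_div hb2pos).mpr hb2T
      linarith
    calc (n : ℝ) ≤ (T / b₁ + 1) * (T / b₂ + 1) := hn
      _ ≤ (2 * (T / b₁)) * (2 * (T / b₂)) := mul_le_mul h1 h2 (by positivity) (by positivity)
      _ = 4 * (T ^ 2 / (b₁ * b₂)) := by field_simp; ring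
  have hn4x : (n : ℝ) ≤ (2 * x) ^ 2 := by
    refine hn4.trans ?_
    have h1 : T ^ 2 / (b₁ * b₂) ≤ x ^ 2 := by
      rw [div_le_iff₀ (by positivity), hT]
      have h2 : l * l ≤ b₁ * b₂ := mul_le_mul hlb1 hlb2 hl.le hb1pos.le
      calc (l * x) ^ 2 = x ^ 2 * (l * l) := by ring
        _ ≤ x ^ 2 * (b₁ * b₂) := mul_le_mul_of_nonneg_left h2 (by positivity)
    linarith
  have hlog2 : log 2 ≤ 1 := by have := log_two_lt_d9; linarith
  have hlog20 : 0 ≤ log 2 := log_nonneg (by norm_num)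
  have hlogn : log (n : ℝ) ≤ 2 * (1 + log x) := by
    rcases Nat.eq_zero_or_pos n with h0 | h0
    · rw [h0, Nat.cast_zero, log_zero]; linarith
    · have h1 : (0 : ℝ) < n := by exact_mod_cast h0
      have h2 := log_le_log h1 hn4x
      rw [log_pow, log_mul (by norm_num) (by linarith)] at h2
      push_cast at h2
      linarith
  have hfac : log (n.factorial : ℝ) ≤ n * (2 * (1 + log x)) := by
    have h1 : log (n.factorial : ℝ) ≤ n * log n := by
      rw [← log_pow]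
      apply log_le_log (by exact_mod_cast Nat.factorial_pos n)
      exact_mod_cast Nat.factorial_le_pow n
    exact h1.trans (mul_le_mul_of_nonneg_left hlogn (by positivity))
  have hLle : (L : ℝ) ≤ 2 * (1 + log x) := by
    have hxf : 1 ≤ ⌊x⌋₊ := Nat.le_floor (by exact_mod_cast hx1)
    have h1 : Nat.log d ⌊x⌋₊ ≤ Nat.log 2 ⌊x⌋₊ := Nat.log_anti_left (by norm_num) hd
    have h3 : ((Nat.log 2 ⌊x⌋₊ : ℕ) : ℝ) ≤ log x / log 2 := by
      rw [le_div_iff₀ (log_pos (by norm_num)), ← log_pow]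
      apply log_le_log (by positivity)
      have h4 : (((2 : ℕ) ^ Nat.log 2 ⌊x⌋₊ : ℕ) : ℝ) ≤ (⌊x⌋₊ : ℝ) := by
        exact_mod_cast Nat.pow_log_le_self 2 (by omega)
      push_cast at h4
      exact h4.trans (Nat.floor_le (by linarith))
    have h4 : log x / log 2 ≤ 2 * log x := by
      rw [div_le_iff₀ (log_pos (by norm_num))]
      have := log_two_gt_d9
      nlinarith
    have h5 : ((Nat.log d ⌊x⌋₊ : ℕ) : ℝ) ≤ ((Nat.log 2 ⌊x⌋₊ : ℕ) : ℝ) := by exact_mod_cast h1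
    rw [hL]
    push_cast
    linarith
  -- the total loss
  have hdm : ((d - 1 : ℕ) : ℝ) = (d : ℝ) - 1 := by rw [Nat.cast_sub (by omega)]; norm_num
  have hn0 : (0 : ℝ) ≤ n := Nat.cast_nonneg n
  have hL0 : (0 : ℝ) ≤ L := Nat.cast_nonneg L
  have hloss : D * (log (n.factorial : ℝ) + ((d + 3) * (2 * (d - 1) * L * n) : ℕ) * log 2) +
      (2 * (d - 1) * L * n : ℕ) * h ≤ n * ((D + h) * (C1 d * (1 + log x))) := by
    have e4 : ((2 * (d - 1) * L * n : ℕ) : ℝ) = 2 * ((d : ℝ) - 1) * L * n := by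
      push_cast [hdm]; ring
    have e5 : (((d + 3) * (2 * (d - 1) * L * n) : ℕ) : ℝ) =
        ((d : ℝ) + 3) * (2 * ((d : ℝ) - 1) * L * n) := by
      push_cast [hdm]; ring
    rw [e4, e5]
    have e6 : ((d : ℝ) + 3) * (2 * ((d : ℝ) - 1) * L * n) * log 2 ≤
        n * (4 * (d - 1) * (d + 3) * (1 + log x)) := by
      calc ((d : ℝ) + 3) * (2 * ((d : ℝ) - 1) * L * n) * log 2 ≤
            ((d : ℝ) + 3) * (2 * ((d : ℝ) - 1) * L * n) * 1 :=
            mul_le_mul_of_nonneg_left hlog2 (by positivity)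
        _ = (((d : ℝ) + 3) * (2 * ((d : ℝ) - 1)) * n) * L := by ring
        _ ≤ (((d : ℝ) + 3) * (2 * ((d : ℝ) - 1)) * n) * (2 * (1 + log x)) :=
            mul_le_mul_of_nonneg_left hLle (by positivity)
        _ = _ := by ring
    have e7 : 2 * ((d : ℝ) - 1) * L * n * h ≤ n * (4 * (d - 1) * (d + 3) * (1 + log x)) * h := by
      apply mul_le_mul_of_nonneg_right _ hh
      calc 2 * ((d : ℝ) - 1) * L * n = (2 * ((d : ℝ) - 1) * n) * L := by ring
        _ ≤ (2 * ((d : ℝ) - 1) * n) * (2 * (1 + log x)) :=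
            mul_le_mul_of_nonneg_left hLle (by positivity)
        _ ≤ (2 * ((d : ℝ) - 1) * n) * (2 * (1 + log x)) * (d + 3) :=
            le_mul_of_one_le_right (by positivity) (by linarith)
        _ = _ := by ring
    calc _ ≤ D * (n * (2 * (1 + log x)) + n * (4 * (d - 1) * (d + 3) * (1 + log x))) +
          n * (4 * (d - 1) * (d + 3) * (1 + log x)) * h :=
          add_le_add (mul_le_mul_of_nonneg_left (add_le_add hfac e6) hD) e7
      _ ≤ D * (n * (2 * (1 + log x)) + n * (4 * (d - 1) * (d + 3) * (1 + log x))) +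
          (n * (4 * (d - 1) * (d + 3) * (1 + log x)) * h + n * (2 * (1 + log x)) * h) := by
          have : 0 ≤ n * (2 * (1 + log x)) * h := by positivity
          linarith
      _ = n * ((D + h) * (C1 d * (1 + log x))) := by unfold C1; ring
  have hC10 : 0 < C1 d := by have := C1_ge hd; linarith
  have hkey : 4 * ((D + h) * (C1 d * (1 + log x))) < c / 24 * T := by
    have h1 : C3 d * (l * Y) * (1 + log x) ≤ T := by
      rw [hT]
      calc C3 d * (l * Y) * (1 + log x) = l * (C3 d * Y * (1 + log x)) := by ring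
        _ ≤ l * x := mul_le_mul_of_nonneg_left hxl hl.le
    have h2 : D + h < l * Y := by linarith
    have h3 : C3 d * (D + h) * (1 + log x) < T := by
      refine lt_of_lt_of_le ?_ h1
      apply mul_lt_mul_of_pos_right _ (by linarith)
      exact mul_lt_mul_of_pos_left h2 hC30
    have h4 : c / 24 * (C3 d * (D + h) * (1 + log x)) =
        (c * (2 * d * (d - 1))) * (4 * ((D + h) * (C1 d * (1 + log x)))) := by
      unfold C3; ring
    rw [hcd, one_mul] at h4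
    rw [← h4]
    exact mul_lt_mul_of_pos_left h3 (by positivity)
  have hK : 0 < T ^ 2 / (b₁ * b₂) := by positivity
  have hfin : n * ((D + h) * (C1 d * (1 + log x))) < c / 24 * (T ^ 3 / (b₁ * b₂)) := by
    calc (n : ℝ) * ((D + h) * (C1 d * (1 + log x))) ≤
          4 * (T ^ 2 / (b₁ * b₂)) * ((D + h) * (C1 d * (1 + log x))) :=
          mul_le_mul_of_nonneg_right hn4 (by positivity)
      _ = (T ^ 2 / (b₁ * b₂)) * (4 * ((D + h) * (C1 d * (1 + log x)))) := by ring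
      _ < (T ^ 2 / (b₁ * b₂)) * (c / 24 * T) := mul_lt_mul_of_pos_left hkey hK
      _ = c / 24 * (T ^ 3 / (b₁ * b₂)) := by field_simp
  linarith

end Pool.Agent.H.MP_0e6b5f_nt.Eng
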