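import Pool.Agent.H.MP_0e6b5f_nt.Eng.Asm
import Pool.Agent.H.MP_0e6b5f_nt.Eng.ExtField
import Pool.Agent.H.MP_0e6b5f_nt.DefsOne

/-!
# The bound at one place, without condition on the Jacobian
-/

namespace Pool.Agent.H.MP_0e6b5f_nt.Eng

open Pool.Agent.H.MP_0e6b5f_nt Pool.Agent.H.MP_0e6b5f_nt.Dom
open NumberField Module Polynomial
open Height Height.AdmissibleAbsValues Function Real

/-- Height of a rescaled tuple. -/
theorem mulHeight_tup_scale {K : Type*} [Field K] [AdmissibleAbsValues K] {d : ℕ} (ζ : Fin d → K)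
    (μ : K) : mulHeight (tup (fun i => μ * ζ i)) ≤ mulHeight₁ μ * mulHeight (tup ζ) := by
  have h1 : tup (fun i => μ * ζ i) =
      (fun o : Option (Fin d × Fin d) => ![μ, 1] (o.elim 1 (fun _ => 0))) * tup ζ := by
    funext o
    cases o with
    | none => simp [tup]
    | some p => simp [tup]; ring
  rw [h1, mulHeight₁_eq_mulHeight]
  refine (mulHeight_mul_le _ _).trans ?_
  refine mul_le_mul_of_nonneg_right ?_ (mulHeight_pos _).le
  exact mulHeight_comp_le (fun o : Option (Fin d × Fin d) => o.elim 1 (fun _ => 0)) ![μ, 1]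

/-- Height of a root of the Jacobian. -/
theorem mulHeight₁_root_le {K : Type*} [Field K] [AdmissibleAbsValues K] {d : ℕ} (hd : 2 ≤ d)
    {μ δ : K} (hμ : μ ^ (d - 1) = δ) : mulHeight₁ μ ≤ mulHeight₁ δ := by
  rw [← hμ, mulHeight₁_pow]
  exact le_self_pow₀ (one_le_mulHeight₁ μ) (by omega)

/-- The orbit form of the bound at one place. -/
theorem card_le_orb {K : Type*} [Field K] [NumberField K] {d : ℕ} (hd : 2 ≤ d) {c δ μ : K}
    (hc : c ≠ 0) (hδ : δ ≠ 0) (hμ : μ ^ (d - 1) = δ) (ζ : Fin d → K) (w : AbsoluteValue K ℝ)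
    (hw : (w ∈ nonarchAbsVal (K := K) ∧ 1 < rho (fun i => c * ζ i) μ w) ∨
      (w ∉ nonarchAbsVal (K := K) ∧ w ∈ archAbsVal (K := K) ∧
        2 ^ (200 * d ^ 3) ≤ rho (fun i => c * ζ i) μ w)) {h : ℝ}
    (hh : log (mulHeight (tup (fun i => c * ζ i))) + 2 * log (mulHeight₁ δ) ≤ h)
    (T : Finset (K × K)) (hT : ∀ P ∈ T, ∃ n, 1 ≤ n ∧ (hen (fixPoly c δ ζ) δ)^[n] P = P) :
    (T.card : ℝ) ≤ cE d *
      ((1 + (totalWeight K + h) / log (rho (fun i => c * ζ i) μ w)) *
      (1 + log (1 + (totalWeight K + h) / log (rho (fun i => c * ζ i) μ w)))) ^ 4 := by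
  classical
  obtain ⟨S, hTS, hS⟩ := exists_invariant _ T hT
  have i₀ : Fin d := ⟨0, by omega⟩
  have hμ0 : μ ≠ 0 := by
    rintro rfl
    apply hδ
    rw [← hμ, zero_pow (by omega)]
  obtain ⟨ζ', hζ'⟩ : ∃ z : Fin d → K, z = fun i => c * (ζ i - ζ i₀) := ⟨_, rfl⟩
  obtain ⟨O, hy, hx⟩ : ∃ O : Orb ζ' δ S, (∀ P : S, O.y P = c * (P.1.2 - ζ i₀)) ∧
      ∀ P : S, O.y (O.σ⁻¹ P) = c * (P.1.1 - ζ i₀) := by
    rw [hζ']
    exact exists_orb hd hδ ζ i₀ S hS
  have hinj : ∀ P Q, O.y P = O.y Q → O.y (O.σ⁻¹ P) = O.y (O.σ⁻¹ Q) → P = Q := by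
    intro P Q h1 h2
    rw [hy, hy] at h1
    rw [hx, hx] at h2
    have h3 := mul_right_injective₀ hc h1
    have h4 := mul_right_injective₀ hc h2
    apply Subtype.ext
    apply Prod.ext
    · exact sub_left_injective h4
    · exact sub_left_injective h3
  have hcard : (T.card : ℝ) ≤ (Fintype.card S : ℝ) := by
    rw [Fintype.card_coe]
    exact_mod_cast Finset.card_le_card hTS
  have hζ0 : ζ' i₀ = 0 := by rw [hζ']; simp
  have hrho : rho (fun i => c * ζ i) μ w = rho ζ' μ w := by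
    rw [rho, rho]
    congr 1
    apply iSup_congr
    intro p
    congr 1
    rw [hζ']; ring
  have htup : tup ζ' = tup (fun i => c * ζ i) := by
    funext o
    cases o with
    | none => rfl
    | some p => simp only [tup, Option.elim, hζ']; ring
  rw [hrho] at hw ⊢
  have hT0 := mulHeight_pos (tup (fun i => c * ζ i))
  have hD0 : 0 < mulHeight₁ δ := mulHeight₁_pos δ
  have hD1 : 0 ≤ log (mulHeight₁ δ) := log_nonneg (one_le_mulHeight₁ δ)
  refine hcard.trans (sym_engine hd hζ0 hδ hμ O hinj w hw (H := h) ?_ ?_)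
  · rw [htup, log_mul hT0.ne' hD0.ne']
    linarith
  · rw [mulHeight₁_inv]
    have h1 : mulHeight (tup (fun i => μ⁻¹ * ζ' i)) ≤
        mulHeight₁ δ * mulHeight (tup (fun i => c * ζ i)) := by
      refine (mulHeight_tup_scale ζ' μ⁻¹).trans ?_
      rw [mulHeight₁_inv, htup]
      exact mul_le_mul_of_nonneg_right (mulHeight₁_root_le hd hμ) hT0.le
    have h2 : mulHeight (tup (fun i => μ⁻¹ * ζ' i)) * mulHeight₁ δ ≤
        mulHeight₁ δ * mulHeight (tup (fun i => c * ζ i)) * mulHeight₁ δ :=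
      mul_le_mul_of_nonneg_right h1 hD0.le
    have h3 := log_le_log (mul_pos (mulHeight_pos _) hD0) h2
    rw [log_mul (mul_pos hD0 hT0).ne' hD0.ne', log_mul hD0.ne' hT0.ne'] at h3
    linarith

/-- The normalised diameter in an extension containing a root of the Jacobian. -/
theorem rho_ext {K : Type*} [Field K] {L : Type*} [Field L] [Algebra K L] {d : ℕ} (hd : 2 ≤ d)
    {c δ : K} {μ : L} (hμ : μ ^ (d - 1) = algebraMap K L δ) (ζ : Fin d → K)
    (w : AbsoluteValue K ℝ) (w' : AbsoluteValue L ℝ) (k : ℕ)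
    (hw' : ∀ x : K, w' (algebraMap K L x) = w x ^ k) :
    rho (fun i => algebraMap K L c * algebraMap K L (ζ i)) μ w' ^ (d - 1) =
      normalDiam w c δ ζ ^ k := by
  have hne : Nonempty (Fin d × Fin d) := ⟨(⟨0, by omega⟩, ⟨0, by omega⟩)⟩
  have hcomm : ∀ p : Fin d × Fin d, w' (algebraMap K L c * algebraMap K L (ζ p.1) -
      algebraMap K L c * algebraMap K L (ζ p.2)) = w (c * (ζ p.1 - ζ p.2)) ^ k := by
    intro p
    rw [← hw', ← map_mul, ← map_mul, ← map_sub, ← mul_sub]
  have hnn : 0 ≤ fixedPointDiam w c ζ := Real.iSup_nonneg (fun p => w.nonneg _)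
  have h1 : (⨆ p : Fin d × Fin d, w' (algebraMap K L c * algebraMap K L (ζ p.1) -
      algebraMap K L c * algebraMap K L (ζ p.2))) = fixedPointDiam w c ζ ^ k := by
    simp only [hcomm]
    apply le_antisymm
    · apply ciSup_le
      intro p
      apply pow_le_pow_left₀ (w.nonneg _)
      exact le_ciSup (f := fun p : Fin d × Fin d => w (c * (ζ p.1 - ζ p.2)))
        (Set.finite_range _).bddAbove p
    · obtain ⟨p, hp⟩ := exists_eq_ciSup_of_finite
        (f := fun p : Fin d × Fin d => w (c * (ζ p.1 - ζ p.2)))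
      rw [fixedPointDiam, ← hp]
      exact le_ciSup (f := fun p : Fin d × Fin d => w (c * (ζ p.1 - ζ p.2)) ^ k)
        (Set.finite_range _).bddAbove p
  have h2 : (max 1 (w' μ)) ^ (d - 1) = (max 1 (w δ)) ^ k := by
    have h3 : (w' μ) ^ (d - 1) = (w δ) ^ k := by rw [← map_pow, hμ, hw']
    have hmono : ∀ (m : ℕ) (x : ℝ), 0 ≤ x → (max 1 x) ^ m = max 1 (x ^ m) := by
      intro m x hx
      rcases le_total 1 x with h1 | h1
      · rw [max_eq_right h1, max_eq_right (one_le_pow₀ h1)]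
      · rw [max_eq_left h1, max_eq_left (pow_le_one₀ hx h1), one_pow]
    rw [hmono _ _ (w'.nonneg _), hmono _ _ (w.nonneg _), h3]
  rw [rho, normalDiam, h1, div_pow, div_pow, h2, ← pow_mul, ← pow_mul, mul_comm k]

/-- The bound for a finite set of periodic points over an extension `L` of `K` which contains a
root of the Jacobian. -/
theorem card_le_root {K : Type*} [Field K] [NumberField K] {L : Type*} [Field L] [NumberField L]
    [Algebra K L] {d : ℕ} (hd : 2 ≤ d) {c δ : K} (hc : c ≠ 0) (hδ : δ ≠ 0) {μ : L}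
    (hμ : μ ^ (d - 1) = algebraMap K L δ) (ζ : Fin d → K) (w : AbsoluteValue K ℝ)
    (hw : IsFinitePlace w ∨ (IsInfinitePlace w ∧ 2 ^ (200 * d ^ 3 * (d - 1)) ≤ normalDiam w c δ ζ))
    (hR : 1 < normalDiam w c δ ζ) (T : Finset (L × L))
    (hT : ∀ P ∈ T, ∃ n, 1 ≤ n ∧ (hen (fixPoly (algebraMap K L c) (algebraMap K L δ)
      (fun i => algebraMap K L (ζ i))) (algebraMap K L δ))^[n] P = P) :
    (T.card : ℝ) ≤ cE d * ((2 * (d : ℝ)) * (1 + log (2 * (d : ℝ)))) ^ 4 *
      ((1 + Module.finrank K L * (Module.finrank ℚ K + fixedPointHeight c δ ζ) /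
        log (normalDiam w c δ ζ)) *
      (1 + log (1 + Module.finrank K L * (Module.finrank ℚ K + fixedPointHeight c δ ζ) /
        log (normalDiam w c δ ζ)))) ^ 4 := by
  classical
  have hfd : FiniteDimensional K L := Module.Finite.of_restrictScalars_finite ℚ K L
  set R := normalDiam w c δ ζ with hRdef
  have hR0 : 0 < R := by linarith
  have hd1 : d - 1 ≠ 0 := by omega
  -- a place above `w`
  obtain ⟨w', k, hk, hw', hplace⟩ : ∃ (w' : AbsoluteValue L ℝ) (k : ℕ), 1 ≤ k ∧
      (∀ x : K, w' (algebraMap K L x) = w x ^ k) ∧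
      (w' ∈ nonarchAbsVal (K := L) ∨
        (w' ∉ nonarchAbsVal (K := L) ∧ w' ∈ archAbsVal (K := L) ∧
          2 ^ (200 * d ^ 3 * (d - 1)) ≤ R ^ k)) := by
    rcases hw with hw | ⟨hw, hbig⟩
    · obtain ⟨w0, hw0⟩ := (isFinitePlace_iff w).mp hw
      obtain ⟨w', k, hk, hw'⟩ := exists_finitePlace_over L w0
      refine ⟨w'.val, k, hk, fun x => ?_, Or.inl w'.isFinitePlace⟩
      rw [← hw0]
      exact hw' x
    · obtain ⟨w0, hw0⟩ : ∃ w0 : InfinitePlace K, w0.val = w := by
        exact ⟨⟨w, hw⟩, rfl⟩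
      obtain ⟨w', hw'⟩ := exists_infinitePlace_over L w0
      by_cases hna : w'.val ∈ nonarchAbsVal (K := L)
      · refine ⟨w'.val, 1, le_rfl, fun x => ?_, Or.inl hna⟩
        rw [← hw0, pow_one]
        exact hw' x
      refine ⟨w'.val, 1, le_rfl, fun x => ?_, Or.inr ⟨hna, ?_, by rw [pow_one]; exact hbig⟩⟩
      · rw [← hw0, pow_one]
        exact hw' x
      · exact mem_multisetInfinitePlace.mpr w'.isInfinitePlace
  have hrho := rho_ext hd (c := c) hμ ζ w w' k hw'
  rw [← hRdef] at hrho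
  set r := rho (fun i => algebraMap K L c * algebraMap K L (ζ i)) μ w' with hr
  have hr0 : 0 ≤ r := by
    rw [hr, rho]
    exact div_nonneg (Real.iSup_nonneg (fun p => w'.nonneg _)) (by positivity)
  have hRk : 1 < R ^ k := one_lt_pow₀ hR (by omega)
  have hr1 : 1 < r := by
    rw [← hrho] at hRk
    exact (one_lt_pow_iff_of_nonneg hr0 hd1).mp hRk
  have hlogR : 0 < log R := log_pos hR
  have hlogr : log R ≤ (d : ℝ) * log r := by
    have h1 := congrArg log hrho
    rw [log_pow, log_pow] at h1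
    have h2 : ((d - 1 : ℕ) : ℝ) ≤ d := by exact_mod_cast Nat.sub_le d 1
    have h3 : 0 < log r := log_pos hr1
    have h4 : (1 : ℝ) ≤ k := by exact_mod_cast hk
    nlinarith
  have hfp : fixPoly (algebraMap K L c) (algebraMap K L δ) (fun i => algebraMap K L (ζ i)) =
      fixPoly (algebraMap K L c) (algebraMap K L δ) (fun i => algebraMap K L (ζ i)) := rfl
  have htup : (tup (fun i => algebraMap K L c * algebraMap K L (ζ i)) :
      Option (Fin d × Fin d) → L) = fun o => algebraMap K L (fixedPointTuple c ζ o) := by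
    funext o
    cases o with
    | none => simp [tup, fixedPointTuple]
    | some p => simp [tup, fixedPointTuple]; ring
  have hdeg : (totalWeight L : ℝ) = Module.finrank K L * Module.finrank ℚ K := by
    rw [totalWeight_eq_finrank, ← Module.finrank_mul_finrank ℚ K L]
    push_cast
    ring
  set h := fixedPointHeight c δ ζ with hh
  set n : ℝ := ((Module.finrank K L : ℕ) : ℝ) with hn
  have hn0 : 0 ≤ n := Nat.cast_nonneg _
  have hh0 : 0 ≤ h := add_nonneg (logHeight_nonneg _) (zero_le_logHeight₁ _)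
  have hH : log (mulHeight (tup (fun i => algebraMap K L c * algebraMap K L (ζ i)))) +
      2 * log (mulHeight₁ (algebraMap K L δ)) ≤ 2 * (n * h) := by
    rw [htup, mulHeight_ext (L := L) (fixedPointTuple c ζ), mulHeight₁_ext (L := L) δ, log_pow,
      log_pow]
    have h1 : 0 ≤ logHeight (fixedPointTuple c ζ) := logHeight_nonneg _
    have h2 : h = log (mulHeight (fixedPointTuple c ζ)) + log (mulHeight₁ δ) := rfl
    have h3 : 0 ≤ log (mulHeight (fixedPointTuple c ζ)) := h1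
    rw [h2, ← hn]
    nlinarith [mul_nonneg hn0 h3]
  have hw2 : (w' ∈ nonarchAbsVal (K := L) ∧ 1 < r) ∨
      (w' ∉ nonarchAbsVal (K := L) ∧ w' ∈ archAbsVal (K := L) ∧ 2 ^ (200 * d ^ 3) ≤ r) := by
    rcases hplace with h1 | ⟨h1, h2, h3⟩
    · exact Or.inl ⟨h1, hr1⟩
    · refine Or.inr ⟨h1, h2, ?_⟩
      rw [← hrho, pow_mul] at h3
      exact (pow_le_pow_iff_left₀ (by positivity) hr0 hd1).mp h3
  have h1 := card_le_orb hd ((_root_.map_ne_zero _).mpr hc) ((_root_.map_ne_zero _).mpr hδ) hμ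
    (fun i => algebraMap K L (ζ i)) w' hw2 hH T hT
  rw [hdeg, ← hr] at h1
  have hd0 : (2 : ℝ) ≤ d := by exact_mod_cast hd
  have hD0 : (0 : ℝ) ≤ Module.finrank ℚ K := Nat.cast_nonneg _
  have hlr : 0 < log r := log_pos hr1
  set D : ℝ := ((Module.finrank ℚ K : ℕ) : ℝ) with hD
  have hY1 : 1 ≤ 1 + n * (D + h) / log R := by
    have : 0 ≤ n * (D + h) / log R := by positivity
    linarith
  have hZ1 : 1 ≤ 1 + (n * D + 2 * (n * h)) / log r := by
    have : 0 ≤ (n * D + 2 * (n * h)) / log r := by positivity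
    linarith
  have hle : 1 + (n * D + 2 * (n * h)) / log r ≤ 2 * d * (1 + n * (D + h) / log R) := by
    have h2 : (n * D + 2 * (n * h)) / log r ≤ 2 * d * (n * (D + h) / log R) := by
      rw [div_le_iff₀ hlr, mul_div_assoc', div_mul_eq_mul_div, le_div_iff₀ hlogR]
      have h3 : n * D + 2 * (n * h) ≤ 2 * (n * (D + h)) := by nlinarith [mul_nonneg hn0 hD0]
      have h4 : 0 ≤ n * D + 2 * (n * h) := by positivity
      calc (n * D + 2 * (n * h)) * log R ≤ (n * D + 2 * (n * h)) * (d * log r) :=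
            mul_le_mul_of_nonneg_left hlogr h4
        _ ≤ 2 * (n * (D + h)) * (d * log r) :=
            mul_le_mul_of_nonneg_right h3 (by positivity)
        _ = 2 * d * (n * (D + h)) * log r := by ring
    linarith
  have h2 := scale4 (by linarith : (1 : ℝ) ≤ 2 * d) hY1 hZ1 hle
  calc (T.card : ℝ) ≤ cE d * ((1 + (n * D + 2 * (n * h)) / log r) *
        (1 + log (1 + (n * D + 2 * (n * h)) / log r))) ^ 4 := h1
    _ ≤ cE d * ((2 * d * (1 + log (2 * d))) ^ 4 *
        ((1 + n * (D + h) / log R) * (1 + log (1 + n * (D + h) / log R))) ^ 4) :=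
        mul_le_mul_of_nonneg_left h2 (cE_nonneg d)
    _ = _ := by ring

/-- The bound at one place, for all finite extensions of `K`. -/
theorem one_place (d : ℕ) (hd : 2 ≤ d) : ∃ C R₀ : ℝ, ∀ (K : Type*) [Field K] [NumberField K]
    (c δ : K) (ζ : Fin d → K) (w : AbsoluteValue K ℝ)
    (L : IntermediateField K (AlgebraicClosure K)), c ≠ 0 → δ ≠ 0 →
    (IsFinitePlace w ∨ (IsInfinitePlace w ∧ R₀ ≤ normalDiam w c δ ζ)) →
    1 < normalDiam w c δ ζ → FiniteDimensional K L →
    (perIn (fixedPointForm c δ ζ) δ L).Finite ∧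
      ((perIn (fixedPointForm c δ ζ) δ L).ncard : ℝ) ≤
        C * (normalRatio w c δ ζ L * (1 + log (normalRatio w c δ ζ L))) ^ 4 := by
  classical
  refine ⟨cE d * ((2 * (d : ℝ)) * (1 + log (2 * (d : ℝ)))) ^ 4 *
    ((d - 1).factorial * (1 + log ((d - 1).factorial))) ^ 4,
    2 ^ (200 * d ^ 3 * (d - 1)), ?_⟩
  intro K _ _ c δ ζ w L hc hδ hw hR hL
  -- the extension by the roots of the Jacobian
  have hp0 : (X ^ (d - 1) - C δ : K[X]) ≠ 0 := X_pow_sub_C_ne_zero (by omega) δ
  obtain ⟨M, hM, hMf, hroots⟩ := extField_roots (Ω := AlgebraicClosure K) (d - 1) K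
    (X ^ (d - 1) - C δ) hp0 (natDegree_X_pow_sub_C)
  obtain ⟨μ₀, hμ₀⟩ : ∃ y : AlgebraicClosure K, y ^ (d - 1) = algebraMap K _ δ :=
    IsAlgClosed.exists_pow_nat_eq _ (by omega)
  have hμM : μ₀ ∈ M := by
    apply hroots
    rw [map_sub, map_pow, aeval_X, aeval_C, hμ₀, sub_self]
  set L' : IntermediateField K (AlgebraicClosure K) := L ⊔ M with hL'
  have hfdL' : FiniteDimensional K L' := IntermediateField.finiteDimensional_sup L M
  have hLL' : L ≤ L' := le_sup_left
  have hML' : M ≤ L' := le_sup_right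
  have hfin : finrank K L' ≤ finrank K L * (d - 1).factorial :=
    (IntermediateField.finrank_sup_le L M).trans (Nat.mul_le_mul_left _ hMf)
  have hfdQ : FiniteDimensional ℚ L' := FiniteDimensional.trans ℚ K L'
  have hnf : NumberField L' := { to_charZero := inferInstance, to_finiteDimensional := hfdQ }
  set μ : L' := ⟨μ₀, hML' hμM⟩ with hμdef
  have hμ : μ ^ (d - 1) = algebraMap K L' δ := Subtype.ext hμ₀
  apply finite_of_finset_card_le
  intro T hT
  set G : L'[X] := fixPoly (algebraMap K L' c) (algebraMap K L' δ)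
      (fun i => algebraMap K L' (ζ i)) with hG
  have hGmap : G = (fixedPointForm c δ ζ).map (algebraMap K L') := by
    rw [hG, fixPoly, fixedPointForm]
    simp [Polynomial.map_prod]
  -- lift the points to `L'`
  have hmem1 : ∀ P ∈ T, P.1 ∈ L' := fun P hP => hLL' (hT P hP).1
  have hmem2 : ∀ P ∈ T, P.2 ∈ L' := fun P hP => hLL' (hT P hP).2.1
  set T' : Finset (L' × L') := T.attach.image
    (fun P => ((⟨P.1.1, hmem1 P.1 P.2⟩, ⟨P.1.2, hmem2 P.1 P.2⟩) : L' × L')) with hT'
  have hcard : T'.card = T.card := by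
    rw [hT', Finset.card_image_of_injective, Finset.card_attach]
    intro P Q h
    have h1 := congrArg (fun q : L' × L' => (q.1 : AlgebraicClosure K)) h
    have h2 := congrArg (fun q : L' × L' => (q.2 : AlgebraicClosure K)) h
    apply Subtype.ext
    exact Prod.ext h1 h2
  rw [← hcard]
  have hT2 : ∀ Q ∈ T', ∃ n, 1 ≤ n ∧ (hen G (algebraMap K L' δ))^[n] Q = Q := by
    intro Q hQ
    rw [hT', Finset.mem_image] at hQ
    obtain ⟨P, -, rfl⟩ := hQ
    obtain ⟨-, -, n, hn, hper⟩ := hT P.1 P.2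
    refine ⟨n, hn, ?_⟩
    have h1 := henon_iterate_coe (fixedPointForm c δ ζ) δ L' G hGmap n
      ((⟨P.1.1, hmem1 P.1 P.2⟩, ⟨P.1.2, hmem2 P.1 P.2⟩) : L' × L')
    have h2 : (henon (fixedPointForm c δ ζ) δ)^[n] (P.1.1, P.1.2) = (P.1.1, P.1.2) := hper
    rw [h2] at h1
    rw [Prod.mk.injEq] at h1
    apply Prod.ext
    · exact Subtype.ext h1.1.symm
    · exact Subtype.ext h1.2.symm
  have h1 := card_le_root hd hc hδ hμ ζ w hw hR T' hT2
  have hlogR : 0 < log (normalDiam w c δ ζ) := log_pos hR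
  have hh0 : 0 ≤ fixedPointHeight c δ ζ := add_nonneg (logHeight_nonneg _) (zero_le_logHeight₁ _)
  set h := fixedPointHeight c δ ζ with hh
  set l := log (normalDiam w c δ ζ) with hl
  set N : ℝ := ((d - 1).factorial : ℝ) with hN
  have hN1 : 1 ≤ N := by
    rw [hN]
    exact_mod_cast Nat.one_le_iff_ne_zero.mpr (Nat.factorial_ne_zero _)
  have hD0 : (0 : ℝ) ≤ Module.finrank ℚ K := Nat.cast_nonneg _
  have hYdef : normalRatio w c δ ζ L = 1 + Module.finrank K L * (Module.finrank ℚ K + h) / l := rfl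
  have hY1 : 1 ≤ normalRatio w c δ ζ L := by
    rw [hYdef]
    have : 0 ≤ (Module.finrank K L : ℝ) * (Module.finrank ℚ K + h) / l := by positivity
    linarith
  have hZ1 : 1 ≤ 1 + (Module.finrank K L' : ℝ) * (Module.finrank ℚ K + h) / l := by
    have : 0 ≤ (Module.finrank K L' : ℝ) * (Module.finrank ℚ K + h) / l := by positivity
    linarith
  have hle : 1 + (Module.finrank K L' : ℝ) * (Module.finrank ℚ K + h) / l ≤
      N * normalRatio w c δ ζ L := by
    rw [hYdef]
    have hfin' : (Module.finrank K L' : ℝ) ≤ Module.finrank K L * N := by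
      rw [hN]
      exact_mod_cast hfin
    have h2 : (Module.finrank K L' : ℝ) * (Module.finrank ℚ K + h) / l ≤
        N * (Module.finrank K L * (Module.finrank ℚ K + h) / l) := by
      rw [mul_div_assoc', div_le_div_iff_of_pos_right hlogR]
      have h3 : (0 : ℝ) ≤ Module.finrank ℚ K + h := by positivity
      nlinarith
    linarith
  have h2 := scale4 hN1 hY1 hZ1 hle
  have hcE := cE_nonneg d
  refine h1.trans ?_
  have hd0 : (2 : ℝ) ≤ d := by exact_mod_cast hd
  have hl0 : 0 ≤ log (2 * (d : ℝ)) := log_nonneg (by linarith)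
  calc cE d * ((2 * (d : ℝ)) * (1 + log (2 * (d : ℝ)))) ^ 4 *
        ((1 + (Module.finrank K L' : ℝ) * (Module.finrank ℚ K + h) / l) *
          (1 + log (1 + (Module.finrank K L' : ℝ) * (Module.finrank ℚ K + h) / l))) ^ 4
      ≤ cE d * ((2 * (d : ℝ)) * (1 + log (2 * (d : ℝ)))) ^ 4 *
        ((N * (1 + log N)) ^ 4 * (normalRatio w c δ ζ L *
          (1 + log (normalRatio w c δ ζ L))) ^ 4) :=
        mul_le_mul_of_nonneg_left h2 (by positivity)
    _ = _ := by ring

end Pool.Agent.H.MP_0e6b5f_nt.Eng
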