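import Pool.Agent.H.MP_0e6b5f_nt.Eng.Defs
import Pool.Agent.H.MP_0e6b5f_nt.LocalPlace
import Pool.Agent.H.MP_0e6b5f_nt.DefsLocal

/-!
# No bad finite place: the uniform bound

When the spread radius is at most 1 at every finite place, the pencil is (after a translation)
of good type at a place above 2 and the period of a rational point is bounded, so the number of
rational periodic points is at most a power of the degree.
-/

namespace Pool.Agent.H.MP_0e6b5f_nt.Eng

open Pool.Agent.H.MP_0e6b5f_nt.Dom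
open Polynomial NumberField Module

section Coeff

variable {E : Type*} [Field E] {Γ₀ : Type*} [LinearOrderedCommGroupWithZero Γ₀]

theorem GoodCase_coeff_X_mul (p : E[X]) (i : ℕ) :
    (X * p).coeff i = if 1 ≤ i then p.coeff (i - 1) else 0 := by
  rcases i with _ | k
  · simp
  · rw [coeff_X_mul, if_pos (by omega), Nat.add_sub_cancel]

/-- coefficients of a product of linear factors -/
theorem GoodCase_prod (w : Valuation E Γ₀) (c : E) (m : Γ₀) {ι : Type*} [DecidableEq ι]
    (s : Finset ι) (e : ι → E) (he : ∀ j ∈ s, w (e j) ≤ m) (i : ℕ) :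
    w ((∏ j ∈ s, (C c * X - C (e j))).coeff i) * m ^ i ≤ w c ^ i * m ^ s.card := by
  induction s using Finset.induction_on generalizing i with
  | empty =>
    rw [Finset.prod_empty, coeff_one, Finset.card_empty, pow_zero, mul_one]
    split_ifs with h
    · subst h; simp
    · simp
  | insert a s ha ih =>
    have he' : ∀ j ∈ s, w (e j) ≤ m := fun j hj => he j (Finset.mem_insert_of_mem hj)
    have hea : w (e a) ≤ m := he a (Finset.mem_insert_self a s)
    rw [Finset.prod_insert ha, Finset.card_insert_of_notMem ha, sub_mul, coeff_sub, coeff_C_mul,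
      mul_assoc, coeff_C_mul, GoodCase_coeff_X_mul]
    have h2 : w (e a * (∏ j ∈ s, (C c * X - C (e j))).coeff i) * m ^ i ≤
        w c ^ i * m ^ (s.card + 1) := by
      rw [map_mul]
      calc w (e a) * w ((∏ j ∈ s, (C c * X - C (e j))).coeff i) * m ^ i
          = w (e a) * (w ((∏ j ∈ s, (C c * X - C (e j))).coeff i) * m ^ i) := mul_assoc _ _ _
        _ ≤ m * (w c ^ i * m ^ s.card) := mul_le_mul' hea (ih he' i)
        _ = w c ^ i * m ^ (s.card + 1) := by rw [pow_succ]; ac_rfl
    rcases le_max_iff.mp (w.map_sub (c * if 1 ≤ i then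
        (∏ j ∈ s, (C c * X - C (e j))).coeff (i - 1) else 0)
        (e a * (∏ j ∈ s, (C c * X - C (e j))).coeff i)) with h | h
    · refine (mul_le_mul' h le_rfl).trans ?_
      split_ifs with hi
      · obtain ⟨k, rfl⟩ : ∃ k, i = k + 1 := ⟨i - 1, by omega⟩
        rw [Nat.add_sub_cancel, map_mul]
        calc w c * w ((∏ j ∈ s, (C c * X - C (e j))).coeff k) * m ^ (k + 1)
            = w c * (w ((∏ j ∈ s, (C c * X - C (e j))).coeff k) * m ^ k) * m := by
              rw [pow_succ]; ac_rfl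
          _ ≤ w c * (w c ^ k * m ^ s.card) * m := mul_le_mul' (mul_le_mul' le_rfl (ih he' k)) le_rfl
          _ = w c ^ (k + 1) * m ^ (s.card + 1) := by rw [pow_succ, pow_succ]; ac_rfl
      · rw [mul_zero, map_zero, zero_mul]
        exact zero_le
    · exact (mul_le_mul' h le_rfl).trans h2

theorem GoodCase_deg {d : ℕ} (hd : 2 ≤ d) {c : E} (hc : c ≠ 0) (δ : E) (ζ : Fin d → E) :
    (fixPoly c δ ζ).natDegree = d ∧ (fixPoly c δ ζ).leadingCoeff = c ^ (d - 1) := by
  have hc' : c ^ (d - 1) ≠ 0 := pow_ne_zero _ hc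
  have h1 : (C (c ^ (d - 1)) * ∏ i, (X - C (ζ i)) : E[X]).natDegree = d := by
    rw [natDegree_C_mul hc', natDegree_prod_of_monic _ _ (fun i _ => monic_X_sub_C _)]
    simp
  have h2 : (C (1 + δ) * X : E[X]).natDegree <
      (C (c ^ (d - 1)) * ∏ i, (X - C (ζ i)) : E[X]).natDegree := by
    rw [h1]
    have h3 : (C (1 + δ) * X : E[X]).natDegree ≤ 1 := by
      refine natDegree_mul_le.trans ?_
      rw [natDegree_C, natDegree_X]
    omega
  constructor
  · rw [fixPoly, natDegree_add_eq_right_of_natDegree_lt h2, h1]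
  · rw [fixPoly, leadingCoeff_add_of_degree_lt (degree_lt_degree h2), leadingCoeff_mul,
      leadingCoeff_C, (monic_prod_of_monic _ _ (fun i _ => monic_X_sub_C _)).leadingCoeff, mul_one]

theorem GoodCase_coeff (w : Valuation E Γ₀) {d : ℕ} (hd : 2 ≤ d) {c δ : E} (hc : c ≠ 0)
    (ζ : Fin d → E) (i₀ : Fin d) {m : Γ₀} (hm : m ^ (d - 1) = max 1 (w δ))
    (hζ : ∀ j, w (c * (ζ j - ζ i₀)) ≤ m) (i : ℕ) (hi : 1 ≤ i) (hid : i < d) :
    w (((fixPoly c δ ζ).comp (X + C (ζ i₀))).coeff i) ≤ w c ^ (i - 1) * m ^ (d - i) := by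
  classical
  have hm0 : m ≠ 0 := by
    rintro rfl
    rw [zero_pow (by omega)] at hm
    have : (1 : Γ₀) ≤ 0 := by rw [hm]; exact le_max_left _ _
    exact absurd this (not_le.mpr zero_lt_one)
  have hwc : 0 < w c := zero_lt_iff.mpr ((map_ne_zero w).mpr hc)
  set P : E[X] := ∏ j, (X + C (ζ i₀) - C (ζ j)) with hP
  have hcomp : (fixPoly c δ ζ).comp (X + C (ζ i₀)) =
      C (1 + δ) * (X + C (ζ i₀)) + C (c ^ (d - 1)) * P := by
    rw [fixPoly, hP]
    simp [Polynomial.prod_comp]
  have hH : C (c ^ d) * P = ∏ j, (C c * X - C (c * (ζ j - ζ i₀))) := by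
    have h1 : ∀ j, C c * X - C (c * (ζ j - ζ i₀)) = C c * (X + C (ζ i₀) - C (ζ j)) := by
      intro j
      rw [C_mul, C_sub]; ring
    simp only [h1]
    rw [Finset.prod_mul_distrib, Finset.prod_const, Finset.card_univ, Fintype.card_fin, ← C_pow]
  have hPi := GoodCase_prod w c m Finset.univ (fun j => c * (ζ j - ζ i₀)) (fun j _ => hζ j) i
  rw [← hH, coeff_C_mul, Finset.card_univ, Fintype.card_fin] at hPi
  have h2 : w (c ^ (d - 1) * P.coeff i) ≤ w c ^ (i - 1) * m ^ (d - i) := by
    have hcd : c ^ d = c * c ^ (d - 1) := by rw [← pow_succ']; congr 1; omega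
    rw [hcd, mul_assoc, map_mul] at hPi
    have e1 : w c ^ i * m ^ d = w c * (w c ^ (i - 1) * m ^ (d - i)) * m ^ i := by
      have e2 : w c ^ i = w c * w c ^ (i - 1) := by rw [← pow_succ']; congr 1; omega
      have e3 : m ^ d = m ^ (d - i) * m ^ i := by rw [← pow_add]; congr 1; omega
      rw [e2, e3]; ac_rfl
    rw [e1] at hPi
    have h3 := le_of_mul_le_mul_right hPi (zero_lt_iff.mpr (pow_ne_zero i hm0))
    exact le_of_mul_le_mul_left h3 hwc
  have h1 : w ((1 + δ) * (if i = 1 then 1 else 0)) ≤ w c ^ (i - 1) * m ^ (d - i) := by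
    split_ifs with h
    · subst h
      rw [mul_one, Nat.sub_self, pow_zero, one_mul, hm]
      refine (w.map_add 1 δ).trans ?_
      rw [map_one]
    · rw [mul_zero, map_zero]
      exact zero_le
  rw [hcomp, coeff_add, coeff_C_mul, coeff_C_mul]
  have e4 : (X + C (ζ i₀) : E[X]).coeff i = if i = 1 then 1 else 0 := by
    obtain ⟨k, rfl⟩ : ∃ k, i = k + 1 := ⟨i - 1, by omega⟩
    rw [coeff_add, coeff_C_succ, add_zero, coeff_X]
    by_cases hk : k = 0
    · subst hk; simp
    · rw [if_neg (by omega), if_neg (by omega)]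
  rw [e4]
  exact w.map_add_le h1 h2

end Coeff

/-- a finite place above 2 -/
theorem GoodCase_two (K : Type*) [Field K] [NumberField K] :
    ∃ v : IsDedekindDomain.HeightOneSpectrum (𝓞 K), v.valuation K (2 : K) < 1 := by
  have hne : Ideal.span {(2 : 𝓞 K)} ≠ ⊤ := by
    rw [Ne, Ideal.span_singleton_eq_top]
    intro hu
    have hu' : IsUnit (algebraMap ℤ (𝓞 K) 2) := by simpa using hu
    have h1 : IsUnit (2 : ℤ) := isUnit_of_map_unit (algebraMap ℤ (𝓞 K)) 2 hu'
    rw [Int.isUnit_iff] at h1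
    omega
  obtain ⟨P, hP, hle⟩ := Ideal.exists_le_maximal _ hne
  have h2P : (2 : 𝓞 K) ∈ P := hle (Ideal.mem_span_singleton_self _)
  have hbot : P ≠ ⊥ := by
    rintro rfl
    rw [Ideal.mem_bot] at h2P
    exact two_ne_zero h2P
  refine ⟨⟨P, hP.isPrime, hbot⟩, ?_⟩
  have h3 := (IsDedekindDomain.HeightOneSpectrum.valuation_lt_one_iff_mem (K := K)
    ⟨P, hP.isPrime, hbot⟩ (2 : 𝓞 K)).mpr h2P
  have e : algebraMap (𝓞 K) K 2 = 2 := map_ofNat _ 2
  rw [← e]
  exact h3

/-- a finite place orders the field in the same way as its valuation -/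
theorem GoodCase_le {K : Type*} [Field K] [NumberField K]
    (v : IsDedekindDomain.HeightOneSpectrum (𝓞 K)) {x y : K}
    (h : (FinitePlace.mk v).val x ≤ (FinitePlace.mk v).val y) :
    v.valuation K x ≤ v.valuation K y := by
  have h1 : ∀ z : K, (FinitePlace.mk v).val z =
      WithZeroMulInt.toNNReal (NumberField.HeightOneSpectrum.absNorm_ne_zero v) (v.valuation K z) := by
    intro z
    rw [← FinitePlace.coe_apply, FinitePlace.mk_apply, FinitePlace.norm_embedding']
  rw [h1, h1, NNReal.coe_le_coe] at h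
  exact (WithZeroMulInt.toNNReal_strictMono (NumberField.HeightOneSpectrum.one_lt_absNorm_nnreal v)).le_iff_le.mp h

theorem good_case (D d : ℕ) (hd : 2 ≤ d) : ∃ C₀ : ℕ, ∀ (K : Type*) [Field K] [NumberField K],
    finrank ℚ K = D → ∀ (c δ μ : K) (ζ : Fin d → K), c ≠ 0 → δ ≠ 0 → μ ^ (d - 1) = δ →
      (∀ v : FinitePlace K, rho (fun i => c * ζ i) μ v.val ≤ 1) →
      ∀ T : Finset (K × K), (∀ P ∈ T, ∃ n, 1 ≤ n ∧ (hen (fixPoly c δ ζ) δ)^[n] P = P) →
        T.card ≤ C₀ := by
  classical
  refine ⟨d ^ bigM (2 ^ (2 * D)), ?_⟩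
  intro K _ _ hK c δ μ ζ hc hδ hμ hrho T hT
  obtain ⟨v, hv2⟩ := GoodCase_two K
  obtain ⟨W, hW⟩ := exists_valuation_ext v
  set A := algebraMap K (AlgebraicClosure K) with hA
  set w := W.valuation with hw
  have hle : ∀ x y : K, v.valuation K x ≤ v.valuation K y → w (A x) ≤ w (A y) := by
    intro x y h
    exact (hW x y).mp h
  have hW2 : w ((2 : ℕ) : AlgebraicClosure K) < 1 := by
    have h1 : ¬ (v.valuation K 1 ≤ v.valuation K 2) := by
      rw [map_one]; exact not_le.mpr hv2
    have h2 : ¬ (w (A 1) ≤ w (A 2)) := fun h => h1 ((hW 1 2).mpr h)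
    have e : A 2 = ((2 : ℕ) : AlgebraicClosure K) := by
      rw [map_ofNat]; norm_num
    rw [map_one, map_one, not_le, e] at h2
    exact h2
  set i₀ : Fin d := ⟨0, by omega⟩ with hi₀
  set m := max 1 (w (A μ)) with hmdef
  have hm : m ^ (d - 1) = max 1 (w (A δ)) := by
    have e : w (A δ) = w (A μ) ^ (d - 1) := by rw [← hμ, map_pow, map_pow]
    rw [e, hmdef]
    rcases le_total (w (A μ)) 1 with h | h
    · rw [max_eq_left h, max_eq_left (pow_le_one' h _), one_pow]
    · rw [max_eq_right h, max_eq_right (one_le_pow_of_one_le' h _)]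
  have hζ : ∀ j, w (A c * (A (ζ j) - A (ζ i₀))) ≤ m := by
    intro j
    have h1 := hrho (FinitePlace.mk v)
    rw [rho, div_le_one (lt_of_lt_of_le one_pos (le_max_left _ _))] at h1
    have h2 : (FinitePlace.mk v).val (c * ζ j - c * ζ i₀) ≤
        max 1 ((FinitePlace.mk v).val μ) :=
      (le_ciSup (f := fun p : Fin d × Fin d => (FinitePlace.mk v).val (c * ζ p.1 - c * ζ p.2))
        (Set.finite_range _).bddAbove (j, i₀)).trans h1
    have e : A c * (A (ζ j) - A (ζ i₀)) = A (c * ζ j - c * ζ i₀) := by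
      rw [← map_sub, ← map_mul, mul_sub]
    rw [e]
    rcases le_max_iff.mp h2 with h3 | h3
    · refine le_trans ?_ (le_max_left _ _)
      have h4 := hle (c * ζ j - c * ζ i₀) 1 (GoodCase_le v (by rw [map_one]; exact h3))
      rw [show A 1 = 1 from map_one A, show w 1 = 1 from map_one w] at h4
      exact h4
    · exact le_trans (hle _ _ (GoodCase_le v h3)) (le_max_right _ _)
  have hAc : A c ≠ 0 := (map_ne_zero A).mpr hc
  have hmap : (fixPoly c δ ζ).map A = fixPoly (A c) (A δ) (fun i => A (ζ i)) := by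
    rw [fixPoly, fixPoly]
    simp [Polynomial.map_prod]
  obtain ⟨hdeg, hlead⟩ := GoodCase_deg hd hAc (A δ) (fun i => A (ζ i))
  obtain ⟨ρ, hρ⟩ := goodCond_of_coeff w (fixPoly (A c) (A δ) (fun i => A (ζ i))) (A δ) hd hdeg
    (A (ζ i₀))
    (by
      intro i hi hid
      rw [hlead, map_pow, ← hm]
      have h1 := GoodCase_coeff w hd hAc (fun i => A (ζ i)) i₀ hm hζ i hi hid
      calc w (((fixPoly (A c) (A δ) (fun i => A (ζ i))).comp (X + C (A (ζ i₀)))).coeff i) ^ (d - 1)
          ≤ (w (A c) ^ (i - 1) * m ^ (d - i)) ^ (d - 1) := pow_le_pow_left₀ zero_le h1 _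
        _ = (w (A c) ^ (d - 1)) ^ (i - 1) * (m ^ (d - 1)) ^ (d - i) := by
            rw [mul_pow, ← pow_mul, ← pow_mul, ← pow_mul, ← pow_mul, mul_comm (i - 1),
              mul_comm (d - i)])
    (by
      have h0 : (fixPoly (A c) (A δ) (fun i => A (ζ i))).eval (A (ζ i₀)) -
          (1 + A δ) * A (ζ i₀) = 0 := by
        rw [fixPoly_eval, Finset.prod_eq_zero (Finset.mem_univ i₀) (sub_self _)]
        ring
      rw [h0, map_zero, zero_pow (by omega), zero_mul]
      exact zero_le)
  -- the points over the algebraic closure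
  have hsemi : Function.Semiconj (Prod.map A A) (hen (fixPoly c δ ζ) δ)
      (henon (fixPoly c δ ζ) δ) := by
    intro P
    simp only [hen, henon, Prod.map_apply, Prod.map_fst, Prod.map_snd]
    rw [map_sub, map_mul, aeval_algebraMap_apply, Polynomial.coe_aeval_eq_eval]
  have hinj : Function.Injective (Prod.map A A) := A.injective.prodMap A.injective
  have hfix : ∀ Q ∈ (Prod.map A A '' (T : Set (K × K))),
      (henon (fixPoly c δ ζ) δ)^[bigM (2 ^ (2 * D))] Q = Q := by
    rintro Q ⟨P, hP, rfl⟩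
    obtain ⟨n, hn, hper⟩ := hT P hP
    have hper' : (henon (fixPoly c δ ζ) δ)^[n] (Prod.map A A P) = Prod.map A A P := by
      rw [← hsemi.iterate_right n P, hper]
    have hbot : IntermediateField.adjoin K
        ({(Prod.map A A P).1, (Prod.map A A P).2} : Set (AlgebraicClosure K)) = ⊥ := by
      rw [IntermediateField.adjoin_eq_bot_iff]
      rintro x (rfl | rfl)
      · exact IntermediateField.algebraMap_mem _ _
      · exact IntermediateField.algebraMap_mem _ _
    refine point_period_good w Nat.prime_two hW2 hd (fixPoly c δ ζ) δ hδ (Prod.map A A P) ?_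
      (A (ζ i₀)) ρ ?_ hn hper'
    · rw [hbot, IntermediateField.finrank_bot, mul_one, hK]
    · rw [hmap]; exact hρ
  have hndK : (fixPoly c δ ζ).natDegree = d := (GoodCase_deg hd hc δ ζ).1
  have hcard := encard_le_of_iterate hd hndK (bigM_pos _) hfix
  rw [hinj.encard_image, Set.encard_coe_eq_coe_finsetCard] at hcard
  exact_mod_cast hcard

end Pool.Agent.H.MP_0e6b5f_nt.Eng
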