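import Pool.Agent.H.MP_0e6b5f_nt.Eng.Rev
import Pool.Agent.H.MP_0e6b5f_nt.Eng.GoodCase

/-!
# The bound over a number field containing the fixed points
-/

namespace Pool.Agent.H.MP_0e6b5f_nt.Eng

open Pool.Agent.H.MP_0e6b5f_nt.Dom
open NumberField Module IsDedekindDomain HeightOneSpectrum Ideal
open Height Height.AdmissibleAbsValues Function Real

theorem two_le_of_one_lt {K : Type*} [Field K] [NumberField K] (v : FinitePlace K) (x : K)
    (h : 1 < v x) : 2 ≤ v x := by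
  have hx : x ≠ 0 := by
    rintro rfl
    rw [map_zero] at h
    linarith
  set P := v.maximalIdeal with hP
  have h1 : v x = ‖FinitePlace.embedding P x‖ := (FinitePlace.norm_embedding_eq v x).symm
  rw [h1, FinitePlace.norm_embedding'] at h ⊢
  have hz : P.valuation K x ≠ 0 := (Valuation.ne_zero_iff _).mpr hx
  rw [WithZeroMulInt.toNNReal_neg_apply _ hz] at h ⊢
  have hq : 2 ≤ absNorm P.asIdeal := one_lt_absNorm P
  set k := Multiplicative.toAdd (WithZero.unzero hz) with hk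
  have hq' : (2 : ℝ) ≤ (absNorm P.asIdeal : ℝ) := by exact_mod_cast hq
  push_cast at h ⊢
  have hkpos : 1 ≤ k := by
    by_contra hcon
    push Not at hcon
    have : ((absNorm P.asIdeal : ℝ)) ^ k ≤ 1 := zpow_le_one_of_nonpos₀ (by linarith) (by omega)
    linarith
  calc (2 : ℝ) ≤ (absNorm P.asIdeal : ℝ) := hq'
    _ = (absNorm P.asIdeal : ℝ) ^ (1 : ℤ) := (zpow_one _).symm
    _ ≤ (absNorm P.asIdeal : ℝ) ^ k := zpow_le_zpow_right₀ (by linarith) hkpos

/-- The normalised diameter at a bad finite place is at least two. -/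
theorem two_le_rho {K : Type*} [Field K] [NumberField K] {d : ℕ} (hd : 2 ≤ d) (ζ : Fin d → K)
    {μ : K} (hμ : μ ≠ 0) (v : FinitePlace K) (h : 1 < rho ζ μ v.val) : 2 ≤ rho ζ μ v.val := by
  have hne : Nonempty (Fin d × Fin d) := ⟨(⟨0, by omega⟩, ⟨0, by omega⟩)⟩
  obtain ⟨p, hp⟩ := exists_eq_ciSup_of_finite
    (f := fun p : Fin d × Fin d => v.val (ζ p.1 - ζ p.2))
  rw [rho, ← hp] at h ⊢
  rcases le_total (v.val μ) 1 with h1 | h1
  · rw [max_eq_left h1, div_one] at h ⊢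
    exact two_le_of_one_lt v _ h
  · rw [max_eq_right h1, ← map_div₀] at h ⊢
    exact two_le_of_one_lt v _ h

/-- The constant of the comparison. -/
noncomputable def cS (D d : ℕ) : ℝ := 5 + 2 * D + 400 * (d : ℝ) ^ 3 * (1 + D)

theorem cS_ge (D d : ℕ) : 1 ≤ cS D d := by
  unfold cS
  have : (0 : ℝ) ≤ 400 * (d : ℝ) ^ 3 * (1 + D) := by positivity
  have h2 : (0 : ℝ) ≤ D := Nat.cast_nonneg _
  linarith

theorem scale4 {c Y Z : ℝ} (hc : 1 ≤ c) (hY : 1 ≤ Y) (hZ : 1 ≤ Z) (h : Z ≤ c * Y) :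
    (Z * (1 + log Z)) ^ 4 ≤ (c * (1 + log c)) ^ 4 * (Y * (1 + log Y)) ^ 4 := by
  refine (mono4 hZ h).trans ?_
  rw [← mul_pow]
  have h1 : 0 ≤ log c := log_nonneg hc
  have h2 : 0 ≤ log Y := log_nonneg hY
  rw [log_mul (by positivity) (by positivity)]
  apply pow_le_pow_left₀ (by positivity)
  have h3 : 1 + (log c + log Y) ≤ (1 + log c) * (1 + log Y) := by nlinarith [mul_nonneg h1 h2]
  calc c * Y * (1 + (log c + log Y)) ≤ c * Y * ((1 + log c) * (1 + log Y)) :=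
        mul_le_mul_of_nonneg_left h3 (by positivity)
    _ = _ := by ring

/-- The bound over a number field containing the fixed points and a root of the Jacobian. -/
theorem asm (D d : ℕ) (hd : 2 ≤ d) : ∃ C : ℝ, 0 ≤ C ∧ ∀ (K : Type*) [Field K] [NumberField K],
    finrank ℚ K = D → ∀ (c δ μ : K) (ζ : Fin d → K), c ≠ 0 → δ ≠ 0 → μ ^ (d - 1) = δ →
      ∀ s : ℕ, {v : FinitePlace K | 1 < rho (fun i => c * ζ i) μ v.val}.ncard ≤ s →
      ∀ T : Finset (K × K), (∀ P ∈ T, ∃ n, 1 ≤ n ∧ (hen (fixPoly c δ ζ) δ)^[n] P = P) →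
        (T.card : ℝ) ≤ C * ((1 + s + logHeight₁ δ) * (1 + log (1 + s + logHeight₁ δ))) ^ 4 := by
  obtain ⟨C₀, hC₀⟩ := good_case D d hd
  refine ⟨C₀ + cE d * (cS D d * (1 + log (cS D d))) ^ 4, ?_, ?_⟩
  · have h1 := cE_nonneg d
    have h2 := cS_ge D d
    have h3 : 0 ≤ log (cS D d) := log_nonneg h2
    positivity
  intro K _ _ hK c δ μ ζ hc hδ hμ s hs T hT
  classical
  have hcE := cE_nonneg d
  have hcS := cS_ge D d
  have hlcS : 0 ≤ log (cS D d) := log_nonneg hcS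
  set h := logHeight₁ δ with hh
  have hh0 : 0 ≤ h := zero_le_logHeight₁ δ
  set Y : ℝ := 1 + s + h with hY
  have hs0 : (0 : ℝ) ≤ s := Nat.cast_nonneg s
  have hY1 : 1 ≤ Y := by rw [hY]; linarith
  have hlogY : 0 ≤ log Y := log_nonneg hY1
  have hYY : 1 ≤ (Y * (1 + log Y)) ^ 4 :=
    one_le_pow₀ (one_le_mul_of_one_le_of_one_le hY1 (by linarith))
  have hμ0 : μ ≠ 0 := by
    rintro rfl
    apply hδ
    rw [← hμ, zero_pow (by omega)]
  -- the case without bad finite places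
  have hgood : (∀ v : FinitePlace K, rho (fun i => c * ζ i) μ v.val ≤ 1) →
      (T.card : ℝ) ≤ (C₀ + cE d * (cS D d * (1 + log (cS D d))) ^ 4) *
        (Y * (1 + log Y)) ^ 4 := by
    intro hg
    have h1 := hC₀ K hK c δ μ ζ hc hδ hμ hg T hT
    have h2 : (T.card : ℝ) ≤ C₀ := by exact_mod_cast h1
    have h3 : (0 : ℝ) ≤ C₀ := Nat.cast_nonneg _
    calc (T.card : ℝ) ≤ C₀ := h2
      _ ≤ C₀ + cE d * (cS D d * (1 + log (cS D d))) ^ 4 := by
          have : 0 ≤ cE d * (cS D d * (1 + log (cS D d))) ^ 4 := by positivity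
          linarith
      _ ≤ _ := le_mul_of_one_le_right (by positivity) hYY
  -- the invariant set and its orbit
  obtain ⟨S, hTS, hS⟩ := exists_invariant _ T hT
  have i₀ : Fin d := ⟨0, by omega⟩
  obtain ⟨ζ', hζ'⟩ : ∃ z : Fin d → K, z = fun i => c * (ζ i - ζ i₀) := ⟨_, rfl⟩
  obtain ⟨O, hy, hx⟩ : ∃ O : Orb ζ' δ S, (∀ P : S, O.y P = c * (P.1.2 - ζ i₀)) ∧
      ∀ P : S, O.y (O.σ⁻¹ P) = c * (P.1.1 - ζ i₀) := by
    rw [hζ']
    exact exists_orb hd hδ ζ i₀ S hS
  have hinj : ∀ P Q, O.y P = O.y Q → O.y (O.σ⁻¹ P) = O.y (O.σ⁻¹ Q) → P = Q := by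
    intro P Q h1 h2
    rw [hy, hy] at h1
    rw [hx, hx] at h2
    have h3 := mul_right_injective₀ hc h1
    have h4 := mul_right_injective₀ hc h2
    apply Subtype.ext
    apply Prod.ext
    · exact sub_left_injective h4
    · exact sub_left_injective h3
  have hcard : (T.card : ℝ) ≤ (Fintype.card S : ℝ) := by
    rw [Fintype.card_coe]
    exact_mod_cast Finset.card_le_card hTS
  have hζ0 : ζ' i₀ = 0 := by rw [hζ']; simp
  have hrho : ∀ v : AbsoluteValue K ℝ, rho (fun i => c * ζ i) μ v = rho ζ' μ v := by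
    intro v
    rw [rho, rho]
    congr 1
    apply iSup_congr
    intro p
    congr 1
    rw [hζ']; ring
  have hdeg : ((totalWeight K : ℕ) : ℝ) = D := by
    rw [totalWeight_eq_finrank, hK]
  have hdegN : totalWeight K = D := by
    rw [totalWeight_eq_finrank, hK]
  have hD0 : (0 : ℝ) ≤ D := Nat.cast_nonneg D
  have hs' : {v : nonarchAbsVal (K := K) | 1 < rho ζ' μ v.val}.ncard ≤ s := by
    have e1 : {v : nonarchAbsVal (K := K) | 1 < rho ζ' μ v.val} =
        {v : FinitePlace K | 1 < rho (fun i => c * ζ i) μ v.val} := by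
      ext v
      have e2 : 1 < rho ζ' μ v.val ↔ 1 < rho (fun i => c * ζ i) μ v.val := by rw [hrho]
      exact e2
    rw [e1]; exact hs
  -- the key estimate
  have hkey : ∀ (w : AbsoluteValue K ℝ) (M : ℝ), 1 ≤ M →
      ((w ∈ nonarchAbsVal (K := K) ∧ 1 < rho ζ' μ w) ∨
        (w ∉ nonarchAbsVal (K := K) ∧ w ∈ archAbsVal (K := K) ∧
        2 ^ (200 * d ^ 3) ≤ rho ζ' μ w)) →
      (∀ v ∈ nonarchAbsVal (K := K), rho ζ' μ v ≤ M) →
      (∀ v ∈ archAbsVal (K := K), rho ζ' μ v ≤ M) →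
      1 + (D + ((s + D) * log M + 2 * h)) / log (rho ζ' μ w) ≤ cS D d * Y →
      (T.card : ℝ) ≤ (C₀ + cE d * (cS D d * (1 + log (cS D d))) ^ 4) *
        (Y * (1 + log Y)) ^ 4 := by
    intro w M hM hw hn ha hle
    have hM0 : 0 < M := by linarith
    have hlM : 0 ≤ log M := log_nonneg hM
    have hH1 := mulHeight_le hd ζ' hμ hδ hM s hs' hn ha
    have hH2 := mulHeight_le hd (fun i => μ⁻¹ * ζ' i) (μ := μ⁻¹) (δ := δ⁻¹)
      (by rw [inv_pow, hμ]) (inv_ne_zero hδ) hM s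
      (by simp only [rho_rev ζ' hμ0]; exact hs')
      (fun v hv => by rw [rho_rev ζ' hμ0]; exact hn v hv)
      (fun v hv => by rw [rho_rev ζ' hμ0]; exact ha v hv)
    have hlog : ∀ X Z : ℝ, 1 ≤ X → 1 ≤ Z → log Z = h → X ≤ M ^ (s + totalWeight K) * Z ^ 2 →
        log X ≤ (s + D) * log M + 2 * h := by
      intro X Z hX hZ hZh hle
      have h1 := log_le_log (by linarith) hle
      rw [log_mul (by positivity) (by positivity), log_pow, log_pow, hZh, hdegN] at h1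
      push_cast at h1
      exact h1
    have hb1 := hlog _ (mulHeight₁ δ)
      (one_le_mul_of_one_le_of_one_le (one_le_mulHeight (tup ζ')) (one_le_mulHeight₁ δ))
      (one_le_mulHeight₁ δ) rfl hH1
    have hb2 := hlog _ (mulHeight₁ δ⁻¹)
      (one_le_mul_of_one_le_of_one_le (one_le_mulHeight (tup (fun i => μ⁻¹ * ζ' i)))
        (one_le_mulHeight₁ δ⁻¹))
      (one_le_mulHeight₁ δ⁻¹) (by rw [mulHeight₁_inv]; rfl) hH2
    have h1 := sym_engine hd hζ0 hδ hμ O hinj w hw hb1 hb2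
    rw [hdeg] at h1
    have hR1 : 1 < rho ζ' μ w := by
      rcases hw with ⟨_, h2⟩ | ⟨_, _, h2⟩
      · exact h2
      · refine lt_of_lt_of_le (one_lt_pow₀ (by norm_num) ?_) h2
        have : 0 < d ^ 3 := by positivity
        omega
    have hlR : 0 < log (rho ζ' μ w) := log_pos hR1
    have hZ1 : 1 ≤ 1 + ((D : ℝ) + ((s + D) * log M + 2 * h)) / log (rho ζ' μ w) := by
      have : 0 ≤ ((D : ℝ) + ((s + D) * log M + 2 * h)) / log (rho ζ' μ w) := by positivity
      linarith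
    have h2 := scale4 hcS hY1 hZ1 hle
    calc (T.card : ℝ) ≤ (Fintype.card S : ℝ) := hcard
      _ ≤ cE d * ((cS D d * (1 + log (cS D d))) ^ 4 * (Y * (1 + log Y)) ^ 4) :=
          h1.trans (mul_le_mul_of_nonneg_left h2 hcE)
      _ = cE d * (cS D d * (1 + log (cS D d))) ^ 4 * (Y * (1 + log Y)) ^ 4 := by ring
      _ ≤ _ := by
          apply mul_le_mul_of_nonneg_right _ (by positivity)
          have : (0 : ℝ) ≤ C₀ := Nat.cast_nonneg _
          linarith
  by_cases hall : ∀ v : FinitePlace K, rho (fun i => c * ζ i) μ v.val ≤ 1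
  · exact hgood hall
  -- some finite place is bad
  push Not at hall
  obtain ⟨v₀, hv₀⟩ := hall
  rw [hrho] at hv₀
  have hv₀2 := two_le_rho hd ζ' hμ0 v₀ hv₀
  have hfinbad := bad_finite (K := K) ζ' μ
  set V : Finset (AbsoluteValue K ℝ) :=
    (hfinbad.toFinset.image (fun v => v.val)) ∪ (archAbsVal (K := K)).toFinset with hV
  have hv₀V : v₀.val ∈ V := by
    rw [hV, Finset.mem_union]
    left
    rw [Finset.mem_image]
    exact ⟨⟨v₀.val, v₀.isFinitePlace⟩, by rw [Set.Finite.mem_toFinset]; exact hv₀, rfl⟩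
  obtain ⟨w, hwV, hwmax⟩ := Finset.exists_max_image V (fun v => rho ζ' μ v) ⟨_, hv₀V⟩
  have hw2 : 2 ≤ rho ζ' μ w := hv₀2.trans (hwmax _ hv₀V)
  have hw1 : 1 ≤ rho ζ' μ w := by linarith
  have hn : ∀ v ∈ nonarchAbsVal (K := K), rho ζ' μ v ≤ rho ζ' μ w := by
    intro v hv
    rcases le_or_gt (rho ζ' μ v) 1 with h1 | h1
    · exact h1.trans hw1
    · apply hwmax
      rw [hV, Finset.mem_union]
      left
      rw [Finset.mem_image]
      exact ⟨⟨v, hv⟩, by rw [Set.Finite.mem_toFinset]; exact h1, rfl⟩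
  have ha : ∀ v ∈ archAbsVal (K := K), rho ζ' μ v ≤ rho ζ' μ w := by
    intro v hv
    apply hwmax
    rw [hV, Finset.mem_union]
    right
    exact Multiset.mem_toFinset.mpr hv
  have hlog2 : (1 : ℝ) / 2 ≤ log 2 := by have := log_two_gt_d9; linarith
  have hlog2' : log 2 ≤ 1 := by have := log_two_lt_d9; linarith
  have hd3 : (1 : ℝ) ≤ (d : ℝ) ^ 3 := by
    apply one_le_pow₀
    have : (2 : ℝ) ≤ d := by exact_mod_cast hd
    linarith
  have hlw : (1 : ℝ) / 2 ≤ log (rho ζ' μ w) :=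
    hlog2.trans (log_le_log (by norm_num) hw2)
  -- the estimate when `M` is the diameter at `w`
  have hest : 1 + (D + ((s + D) * log (rho ζ' μ w) + 2 * h)) / log (rho ζ' μ w) ≤ cS D d * Y := by
    have hlw0 : 0 < log (rho ζ' μ w) := by linarith
    have h1 : (D + ((s + D) * log (rho ζ' μ w) + 2 * h)) / log (rho ζ' μ w) ≤
        2 * D + (s + D) + 4 * h := by
      rw [div_le_iff₀ hlw0]
      nlinarith
    have h2 : 1 + (2 * D + (s + D) + 4 * h) ≤ cS D d * Y := by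
      have h3 : (400 : ℝ) * (1 + D) ≤ 400 * (d : ℝ) ^ 3 * (1 + D) := by nlinarith
      have h4 : 5 + 2 * D + 400 * (1 + (D : ℝ)) ≤ cS D d := by unfold cS; linarith
      have h5 : (5 + 2 * D + 400 * (1 + (D : ℝ))) * Y ≤ cS D d * Y :=
        mul_le_mul_of_nonneg_right h4 (by linarith)
      refine le_trans ?_ h5
      rw [hY]
      nlinarith [mul_nonneg hD0 hs0, mul_nonneg hD0 hh0]
    linarith
  by_cases hwn : w ∈ nonarchAbsVal (K := K)
  · exact hkey w _ hw1 (Or.inl ⟨hwn, by linarith⟩) hn ha hest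
  have hwa : w ∈ archAbsVal (K := K) := by
    rw [hV, Finset.mem_union] at hwV
    rcases hwV with h1 | h1
    · rw [Finset.mem_image] at h1
      obtain ⟨u, _, hu⟩ := h1
      exact absurd (hu ▸ u.property) hwn
    · exact Multiset.mem_toFinset.mp h1
  rcases le_or_gt (2 ^ (200 * d ^ 3)) (rho ζ' μ w) with hbig | hsmall
  · exact hkey w _ hw1 (Or.inr ⟨hwn, hwa, hbig⟩) hn ha hest
  · -- all diameters are bounded
    have hM1 : (1 : ℝ) ≤ 2 ^ (200 * d ^ 3) := one_le_pow₀ (by norm_num)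
    refine hkey v₀.val (2 ^ (200 * d ^ 3)) hM1 (Or.inl ⟨v₀.isFinitePlace, hv₀⟩)
      (fun v hv => (hn v hv).trans hsmall.le) (fun v hv => (ha v hv).trans hsmall.le) ?_
    have hlv : (1 : ℝ) / 2 ≤ log (rho ζ' μ v₀.val) :=
      hlog2.trans (log_le_log (by norm_num) hv₀2)
    have hlv0 : 0 < log (rho ζ' μ v₀.val) := by linarith
    rw [log_pow]
    push_cast
    have h0 : 200 * (d : ℝ) ^ 3 * log 2 ≤ 200 * (d : ℝ) ^ 3 := by
      have : (0 : ℝ) ≤ 200 * (d : ℝ) ^ 3 := by positivity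
      nlinarith
    have h1 : (D + ((s + D) * (200 * (d : ℝ) ^ 3 * log 2) + 2 * h)) / log (rho ζ' μ v₀.val) ≤
        2 * (D + ((s + D) * (200 * (d : ℝ) ^ 3) + 2 * h)) := by
      rw [div_le_iff₀ hlv0]
      have h2 : (D + ((s + D) * (200 * (d : ℝ) ^ 3 * log 2) + 2 * h)) ≤
          (D + ((s + D) * (200 * (d : ℝ) ^ 3) + 2 * h)) := by
        have := mul_le_mul_of_nonneg_left h0 (by linarith : (0 : ℝ) ≤ s + D)
        linarith
      have h3 : (0 : ℝ) ≤ D + ((s + D) * (200 * (d : ℝ) ^ 3) + 2 * h) := by positivity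
      nlinarith
    have h2 : 1 + 2 * (D + ((s + D) * (200 * (d : ℝ) ^ 3) + 2 * h)) ≤ cS D d * Y := by
      rw [hY]
      unfold cS
      have e1 : (0 : ℝ) ≤ 400 * (d : ℝ) ^ 3 := by positivity
      have e2 : 0 ≤ 400 * (d : ℝ) ^ 3 * D * s := by positivity
      have e3 : 0 ≤ 400 * (d : ℝ) ^ 3 * (1 + D) * h := by positivity
      have e4 : 0 ≤ (D : ℝ) * s := mul_nonneg hD0 hs0
      have e5 : 0 ≤ (D : ℝ) * h := mul_nonneg hD0 hh0
      nlinarith
    linarith

end Pool.Agent.H.MP_0e6b5f_nt.Eng
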