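import Pool.Agent.H.MP_0e6b5f_nt.Eng.Defs

/-!
# The cells: a covering of a finite invariant set by boundedly many small bidiscs
-/

namespace Pool.Agent.H.MP_0e6b5f_nt.Eng

open Pool.Agent.H.MP_0e6b5f_nt.Dom
open Polynomial

variable {K : Type*} [Field K]

/-- `T` can be coloured with `m` colours such that points of equal colour satisfy `S`. -/
def Col {ι : Type*} (T : Finset ι) (m : ℕ) (S : ι → ι → Prop) : Prop :=
  ∃ κ : ι → Fin m, ∀ P ∈ T, ∀ Q ∈ T, κ P = κ Q → S P Q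

/-- Refinement of a colouring. -/
theorem Col.step {ι : Type*} {T : Finset ι} {m₁ m₂ : ℕ} {S S' : ι → ι → Prop}
    (h₁ : Col T m₁ S)
    (h₂ : ∀ T' ⊆ T, (∀ P ∈ T', ∀ Q ∈ T', S P Q) → Col T' m₂ S') :
    Col T (m₁ * m₂) (fun P Q => S P Q ∧ S' P Q) := by
  classical
  obtain ⟨κ₁, hκ₁⟩ := h₁
  have h3 : ∀ i : Fin m₁, ∃ κ₂ : ι → Fin m₂, ∀ P ∈ T.filter (fun P => κ₁ P = i),
      ∀ Q ∈ T.filter (fun P => κ₁ P = i), κ₂ P = κ₂ Q → S' P Q := by
    intro i
    refine h₂ _ (Finset.filter_subset _ _) ?_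
    intro P hP Q hQ
    rw [Finset.mem_filter] at hP hQ
    exact hκ₁ P hP.1 Q hQ.1 (hP.2.trans hQ.2.symm)
  choose κ₂ hκ₂ using h3
  refine ⟨fun P => finProdFinEquiv (κ₁ P, κ₂ (κ₁ P) P), ?_⟩
  intro P hP Q hQ hPQ
  have h4 := finProdFinEquiv.injective hPQ
  rw [Prod.mk.injEq] at h4
  refine ⟨hκ₁ P hP Q hQ h4.1, ?_⟩
  refine hκ₂ (κ₁ P) P (Finset.mem_filter.mpr ⟨hP, rfl⟩) Q (Finset.mem_filter.mpr ⟨hQ, h4.1.symm⟩) ?_
  rw [h4.2, h4.1]

theorem Col.and {ι : Type*} {T : Finset ι} {m₁ m₂ : ℕ} {S S' : ι → ι → Prop}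
    (h₁ : Col T m₁ S) (h₂ : Col T m₂ S') :
    Col T (m₁ * m₂) (fun P Q => S P Q ∧ S' P Q) := by
  obtain ⟨κ₂, hκ₂⟩ := h₂
  exact h₁.step (fun T' hT' _ => ⟨κ₂, fun P hP Q hQ h => hκ₂ P (hT' hP) Q (hT' hQ) h⟩)

theorem Col.imp {ι : Type*} {T : Finset ι} {m : ℕ} {S S' : ι → ι → Prop}
    (h : Col T m S) (hS : ∀ P Q, S P Q → S' P Q) : Col T m S' := by
  obtain ⟨κ, hκ⟩ := h
  exact ⟨κ, fun P hP Q hQ h => hS P Q (hκ P hP Q hQ h)⟩

theorem Col.all {ι : Type*} {T : Finset ι} {m : ℕ} {S : ℕ → ι → ι → Prop} (n : ℕ)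
    (h : ∀ i < n, Col T m (S i)) : Col T (m ^ n) (fun P Q => ∀ i < n, S i P Q) := by
  induction n with
  | zero => exact ⟨fun _ => ⟨0, by simp⟩, fun P _ Q _ _ i hi => absurd hi (Nat.not_lt_zero i)⟩
  | succ n ih =>
    rw [pow_succ]
    refine ((ih (fun i hi => h i (by omega))).and (h n (by omega))).imp ?_
    rintro P Q ⟨h1, h2⟩ i hi
    rcases Nat.lt_succ_iff_lt_or_eq.mp hi with h3 | h3
    · exact h1 i h3
    · rw [h3]; exact h2

/-- A packing bound gives a colouring with a centre for each colour. -/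
theorem of_packing {ι : Type*} [DecidableEq K] (T : Finset ι) (g : ι → K)
    (near : K → K → Prop) (hrefl : ∀ z, near z z) (hsymm : ∀ z z', near z z' → near z' z) (m : ℕ)
    (hm1 : 1 ≤ m)
    (hm : ∀ s : Finset K, s ⊆ T.image g → (∀ z ∈ s, ∀ z' ∈ s, z ≠ z' → ¬ near z z') →
      s.card ≤ m) :
    ∃ (κ : ι → Fin m) (cen : Fin m → K), ∀ P ∈ T, near (g P) (cen (κ P)) := by
  classical
  set fam := (T.image g).powerset.filter
    (fun s => ∀ z ∈ s, ∀ z' ∈ s, z ≠ z' → ¬ near z z') with hfam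
  have hfne : fam.Nonempty := ⟨∅, by simp [hfam]⟩
  obtain ⟨C, hC, hmax⟩ := Finset.exists_max_image fam Finset.card hfne
  simp only [hfam, Finset.mem_filter, Finset.mem_powerset] at hC
  have hcov : ∀ P ∈ T, ∃ c ∈ C, near (g P) c := by
    intro P hP
    by_contra hcon
    push Not at hcon
    have hnot : g P ∉ C := fun h => hcon (g P) h (hrefl _)
    have h1 : insert (g P) C ∈ fam := by
      simp only [hfam, Finset.mem_filter, Finset.mem_powerset]
      refine ⟨Finset.insert_subset (Finset.mem_image_of_mem g hP) hC.1, ?_⟩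
      intro z hz z' hz' hne
      rcases Finset.mem_insert.mp hz with h | h
      · rcases Finset.mem_insert.mp hz' with h' | h'
        · exact absurd (h.trans h'.symm) hne
        · rw [h]; exact hcon z' h'
      · rcases Finset.mem_insert.mp hz' with h' | h'
        · rw [h']; exact fun h'' => hcon z h (hsymm _ _ h'')
        · exact hC.2 z h z' h' hne
    have h2 := hmax _ h1
    rw [Finset.card_insert_of_notMem hnot] at h2
    omega
  choose! φ hφC hφ using hcov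
  have hCm : C.card ≤ m := hm C hC.1 hC.2
  refine ⟨fun P => if h : φ P ∈ C then Fin.castLE hCm (C.equivFin ⟨φ P, h⟩) else ⟨0, hm1⟩,
    fun i => if h : i.val < C.card then (C.equivFin.symm ⟨i.val, h⟩ : K) else 0, ?_⟩
  intro P hP
  beta_reduce
  rw [dif_pos (hφC P hP)]
  have h1 : (Fin.castLE hCm (C.equivFin ⟨φ P, hφC P hP⟩)).val < C.card := by
    simp
  rw [dif_pos h1]
  have h2 : (⟨(Fin.castLE hCm (C.equivFin ⟨φ P, hφC P hP⟩)).val, h1⟩ : Fin C.card) =
      C.equivFin ⟨φ P, hφC P hP⟩ := by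
    ext
    simp
  rw [h2, Equiv.symm_apply_apply]
  exact hφ P hP

variable {d : ℕ} {ζ : Fin d → K} {δ : K} {v : AbsoluteValue K ℝ} {A R : ℝ}

/-- Second stage. -/
theorem color2 {ι : Type*} (h : Bad ζ δ v A R 1) (g : ι → K)
    (hg : ∀ P, v ((nf ζ δ).eval (g P)) ≤ A ^ (d + 4) * 1 * R) (T : Finset ι)
    {c : K} (hc : ∀ P ∈ T, v (g P - c) < R / A ^ 2) {θ : ℝ} (hθ0 : 0 ≤ θ)
    (hθ : ∀ P ∈ T, ∀ Q ∈ T, v ((nf ζ δ).eval (g P) - (nf ζ δ).eval (g Q)) ≤ θ) :
    Col T (d - 1) (fun P Q => v (g P - g Q) ^ (d - 1) ≤ A ^ (2 * d + 2) * θ / R) := by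
  classical
  have hd := h.hd
  have hA := h.hA
  have hR := h.hR
  obtain ⟨κ, cen, key⟩ := of_packing T g
    (fun z z' => v (z - z') ^ (d - 1) ≤ A ^ (d + 3) * θ / R)
    (fun z => by
      show v (z - z) ^ (d - 1) ≤ A ^ (d + 3) * θ / R
      rw [sub_self, v.map_zero, zero_pow (by omega)]; positivity)
    (fun z z' hz => by
      show v (z' - z) ^ (d - 1) ≤ A ^ (d + 3) * θ / R
      rw [v.map_sub]; exact hz) (d - 1) (by omega)
    (fun s hs hfar => by
      refine h.sep' s c (θ := θ) ?_ ?_ ?_ hfar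
      · intro z hz
        obtain ⟨P, _, rfl⟩ := Finset.mem_image.mp (hs hz)
        exact hg P
      · intro z hz
        obtain ⟨P, hP, rfl⟩ := Finset.mem_image.mp (hs hz)
        exact hc P hP
      · intro z hz z' hz'
        obtain ⟨P, hP, rfl⟩ := Finset.mem_image.mp (hs hz)
        obtain ⟨Q, hQ, rfl⟩ := Finset.mem_image.mp (hs hz')
        exact hθ P hP Q hQ)
  refine ⟨κ, fun P hP Q hQ hPQ => ?_⟩
  have h1 := key P hP
  have h2 := key Q hQ
  rw [← hPQ] at h2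
  have h3 : g P - g Q = (g P - cen (κ P)) - (g Q - cen (κ P)) := by ring
  have h4 : v (g P - g Q) ≤ A * max (v (g P - cen (κ P))) (v (g Q - cen (κ P))) := by
    rw [h3]; exact h.qu.sub _ _
  have h5 : (max (v (g P - cen (κ P))) (v (g Q - cen (κ P)))) ^ (d - 1) ≤
      A ^ (d + 3) * θ / R := by
    rcases le_total (v (g P - cen (κ P))) (v (g Q - cen (κ P))) with h6 | h6
    · rw [max_eq_right h6]; exact h2
    · rw [max_eq_left h6]; exact h1
  calc v (g P - g Q) ^ (d - 1)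
      ≤ (A * max (v (g P - cen (κ P))) (v (g Q - cen (κ P)))) ^ (d - 1) :=
        pow_le_pow_left₀ (v.nonneg _) h4 _
    _ = A ^ (d - 1) * (max (v (g P - cen (κ P))) (v (g Q - cen (κ P)))) ^ (d - 1) :=
        mul_pow _ _ _
    _ ≤ A ^ (d - 1) * (A ^ (d + 3) * θ / R) := mul_le_mul_of_nonneg_left h5 (by positivity)
    _ = A ^ (2 * d + 2) * θ / R := by
        rw [mul_div_assoc', ← mul_assoc, ← pow_add]
        congr 3
        omega

/-- First stage. -/
theorem color1 {ι : Type*} (h : Bad ζ δ v A R 1) (g : ι → K)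
    (hg : ∀ P, v ((nf ζ δ).eval (g P)) ≤ A ^ (d + 4) * 1 * R) (T : Finset ι) :
    Col T (d * (d - 1)) (fun P Q => v (g P - g Q) ≤ A ^ (3 * d + 7)) := by
  classical
  have hd := h.hd
  have hA := h.hA
  have hA0 : 0 < A := by linarith
  have hR := h.hR
  have hRA : 0 < R / A ^ 2 := by positivity
  obtain ⟨κ, cen, key⟩ := of_packing T g
    (fun z z' => v (z - z') < R / A ^ 2)
    (fun z => by
      show v (z - z) < R / A ^ 2
      rw [sub_self, v.map_zero]; exact hRA)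
    (fun z z' hz => by
      show v (z' - z) < R / A ^ 2
      rw [v.map_sub]; exact hz) d (by omega)
    (fun s hs hfar => by
      refine h.sep s ?_ hfar
      intro z hz
      obtain ⟨P, _, rfl⟩ := Finset.mem_image.mp (hs hz)
      exact hg P)
  have h2 : ∀ i : Fin d, Col (T.filter (fun P => κ P = i)) (d - 1)
      (fun P Q => v (g P - g Q) ^ (d - 1) ≤
        A ^ (2 * d + 2) * (A * (A ^ (d + 4) * 1 * R)) / R) := by
    intro i
    refine color2 h g hg _ (c := cen i) ?_ (by positivity)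
      (fun P _ Q _ => (h.qu.sub _ _).trans
        (mul_le_mul_of_nonneg_left (max_le (hg P) (hg Q)) hA0.le))
    intro P hP
    rw [Finset.mem_filter] at hP
    have h3 := key P hP.1
    rw [hP.2] at h3
    exact h3
  choose κ₂ hκ₂ using h2
  refine ⟨fun P => finProdFinEquiv (κ P, κ₂ (κ P) P), ?_⟩
  intro P hP Q hQ hPQ
  have h4 := finProdFinEquiv.injective hPQ
  rw [Prod.mk.injEq] at h4
  have h5 : κ₂ (κ P) P = κ₂ (κ P) Q := by
    have h6 := h4.2
    rw [← h4.1] at h6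
    exact h6
  have h1 := hκ₂ (κ P) P (Finset.mem_filter.mpr ⟨hP, rfl⟩) Q
    (Finset.mem_filter.mpr ⟨hQ, h4.1.symm⟩) h5
  have h2 : A ^ (2 * d + 2) * (A * (A ^ (d + 4) * 1 * R)) / R = A ^ (3 * d + 7) := by
    field_simp
    ring
  beta_reduce at h1
  rw [h2] at h1
  have hone : 1 ≤ A ^ (3 * d + 7) := one_le_pow₀ hA
  rcases le_or_gt (v (g P - g Q)) 1 with h3 | h3
  · exact h3.trans hone
  · refine le_trans ?_ h1
    calc v (g P - g Q) = v (g P - g Q) ^ 1 := (pow_one _).symm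
      _ ≤ v (g P - g Q) ^ (d - 1) := pow_le_pow_right₀ h3.le (by omega)

/-- The coordinate of an iterate. -/
def yn {ι : Type*} (O : Orb ζ δ ι) (k : ℤ) (P : ι) : K := O.y ((O.σ ^ k) P)

theorem yn_rel {ι : Type*} (O : Orb ζ δ ι) (k : ℤ) (P : ι) :
    yn O (k + 1) P + δ * yn O (k - 1) P = (nf ζ δ).eval (yn O k P) := by
  have h1 : (O.σ ^ (k + 1)) P = O.σ ((O.σ ^ k) P) := by
    rw [add_comm, zpow_one_add, Equiv.Perm.mul_apply]
  have h2 : (O.σ ^ (k - 1)) P = O.σ⁻¹ ((O.σ ^ k) P) := by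
    rw [sub_eq_add_neg, add_comm, zpow_add, zpow_neg_one, Equiv.Perm.mul_apply]
  rw [yn, yn, yn, h1, h2]
  exact O.rel _

/-- One improvement step. -/
theorem lev {ι : Type*} [Finite ι] (h : Bad ζ δ v A R 1) (O : Orb ζ δ ι) (T : Finset ι) (k : ℤ)
    {B : ℝ} (hB : 0 ≤ B)
    (h1 : ∀ P ∈ T, ∀ Q ∈ T, v (yn O (k + 1) P - yn O (k + 1) Q) ≤ B)
    (h2 : ∀ P ∈ T, ∀ Q ∈ T, v (yn O (k - 1) P - yn O (k - 1) Q) ≤ B)
    (h3 : ∀ P ∈ T, ∀ Q ∈ T, v (yn O k P - yn O k Q) < R / A ^ 2) :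
    Col T (d - 1) (fun P Q => v (yn O k P - yn O k Q) ^ (d - 1) ≤
      A ^ (2 * d + 2) * (A * B) / R) := by
  classical
  have hd := h.hd
  have hA := h.hA
  have hA0 : 0 < A := by linarith
  rcases T.eq_empty_or_nonempty with rfl | ⟨P₀, hP₀⟩
  · exact ⟨fun _ => ⟨0, by omega⟩, fun P hP => absurd hP (Finset.notMem_empty P)⟩
  refine color2 h (yn O k) (fun P => h.fy_le O _) T (c := yn O k P₀)
    (fun P hP => h3 P hP P₀ hP₀) (by positivity) ?_
  intro P hP Q hQ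
  rw [← yn_rel, ← yn_rel]
  have h4 : (yn O (k + 1) P + δ * yn O (k - 1) P) - (yn O (k + 1) Q + δ * yn O (k - 1) Q) =
      (yn O (k + 1) P - yn O (k + 1) Q) + δ * (yn O (k - 1) P - yn O (k - 1) Q) := by ring
  rw [h4]
  refine (h.qu _ _).trans (mul_le_mul_of_nonneg_left (max_le (h1 P hP Q hQ) ?_) hA0.le)
  rw [v.map_mul]
  calc v δ * v (yn O (k - 1) P - yn O (k - 1) Q) ≤ 1 * B :=
        mul_le_mul h.hδ (h2 P hP Q hQ) (v.nonneg _) zero_le_one
    _ = B := one_mul B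

/-- The cells. -/
theorem cells (h : Bad ζ δ v A R 1) {ι : Type*} [Fintype ι] (O : Orb ζ δ ι) :
    ∃ κ : ι → Fin (cellN d), ∀ P Q, κ P = κ Q →
      v (O.y P - O.y Q) ^ ((d - 1) ^ 2) ≤ A ^ (2 * d ^ 2 + 6 * d + 7) / R ^ d ∧
      v (O.y (O.σ⁻¹ P) - O.y (O.σ⁻¹ Q)) ^ ((d - 1) ^ 2) ≤ A ^ (2 * d ^ 2 + 6 * d + 7) / R ^ d := by
  classical
  have hd := h.hd
  have hA := h.hA
  have hA0 : 0 < A := by linarith
  have hR := h.hR
  have hR0 : 0 < R := by linarith
  have hsmall : A ^ (3 * d + 7) < R / A ^ 2 := by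
    rw [lt_div_iff₀ (by positivity)]
    calc A ^ (3 * d + 7) * A ^ 2 = A ^ (3 * d + 9) * 1 := by ring
      _ < R := h.num (by omega)
  obtain ⟨ρ, hρ0, hρ⟩ : ∃ ρ : ℝ, 0 ≤ ρ ∧ ρ ^ (d - 1) = A ^ (5 * d + 10) / R := by
    refine ⟨(A ^ (5 * d + 10) / R) ^ (((d - 1 : ℕ) : ℝ)⁻¹), by positivity, ?_⟩
    exact Real.rpow_inv_natCast_pow (by positivity) (by omega)
  -- level one
  have L1 : Col (Finset.univ : Finset ι) ((d * (d - 1)) ^ 6) (fun P Q => ∀ i : ℕ, i < 6 →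
      v (yn O ((i : ℤ) - 3) P - yn O ((i : ℤ) - 3) Q) ≤ A ^ (3 * d + 7)) :=
    Col.all (S := fun (i : ℕ) P Q =>
      v (yn O ((i : ℤ) - 3) P - yn O ((i : ℤ) - 3) Q) ≤ A ^ (3 * d + 7)) 6
      (fun i _ => color1 h _ (fun P => h.fy_le O _) _)
  -- level two
  have L2 := L1.step (m₂ := (d - 1) ^ 4) (S' := fun P Q => ∀ i : ℕ, i < 4 →
      v (yn O ((i : ℤ) - 2) P - yn O ((i : ℤ) - 2) Q) ^ (d - 1) ≤ A ^ (5 * d + 10) / R)
    (fun T' _ hT' => Col.all (S := fun (i : ℕ) P Q =>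
      v (yn O ((i : ℤ) - 2) P - yn O ((i : ℤ) - 2) Q) ^ (d - 1) ≤ A ^ (5 * d + 10) / R) 4
      (fun i hi => by
        have h1 := lev h O T' ((i : ℤ) - 2) (B := A ^ (3 * d + 7)) (by positivity)
          (fun P hP Q hQ => by
            have h2 := hT' P hP Q hQ (i + 2) (by omega)
            have h3 : (((i + 2 : ℕ) : ℤ) - 3) = (i : ℤ) - 2 + 1 := by push_cast; ring
            rwa [h3] at h2)
          (fun P hP Q hQ => by
            have h2 := hT' P hP Q hQ i (by omega)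
            have h3 : ((i : ℤ) - 3) = (i : ℤ) - 2 - 1 := by ring
            rwa [h3] at h2)
          (fun P hP Q hQ => by
            have h2 := hT' P hP Q hQ (i + 1) (by omega)
            have h3 : (((i + 1 : ℕ) : ℤ) - 3) = (i : ℤ) - 2 := by push_cast; ring
            rw [h3] at h2
            exact lt_of_le_of_lt h2 hsmall)
        refine h1.imp (fun P Q h2 => ?_)
        have h3 : A ^ (2 * d + 2) * (A * A ^ (3 * d + 7)) / R = A ^ (5 * d + 10) / R := by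
          congr 1
          ring
        rw [h3] at h2
        exact h2))
  -- level three
  have L3 := L2.step (m₂ := (d - 1) ^ 2) (S' := fun P Q => ∀ i : ℕ, i < 2 →
      v (yn O ((i : ℤ) - 1) P - yn O ((i : ℤ) - 1) Q) ^ ((d - 1) ^ 2) ≤
        A ^ (2 * d ^ 2 + 6 * d + 7) / R ^ d)
    (fun T' _ hT' => Col.all (S := fun (i : ℕ) P Q =>
      v (yn O ((i : ℤ) - 1) P - yn O ((i : ℤ) - 1) Q) ^ ((d - 1) ^ 2) ≤
        A ^ (2 * d ^ 2 + 6 * d + 7) / R ^ d) 2
      (fun i hi => by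
        have hroot : ∀ x : ℝ, 0 ≤ x → x ^ (d - 1) ≤ A ^ (5 * d + 10) / R → x ≤ ρ := by
          intro x hx hx1
          rw [← hρ] at hx1
          exact (pow_le_pow_iff_left₀ hx hρ0 (by omega)).mp hx1
        have h1 := lev h O T' ((i : ℤ) - 1) (B := ρ) hρ0
          (fun P hP Q hQ => by
            have h2 := (hT' P hP Q hQ).2 (i + 2) (by omega)
            have h3 : (((i + 2 : ℕ) : ℤ) - 2) = (i : ℤ) - 1 + 1 := by push_cast; ring
            rw [h3] at h2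
            exact hroot _ (v.nonneg _) h2)
          (fun P hP Q hQ => by
            have h2 := (hT' P hP Q hQ).2 i (by omega)
            have h3 : ((i : ℤ) - 2) = (i : ℤ) - 1 - 1 := by ring
            rw [h3] at h2
            exact hroot _ (v.nonneg _) h2)
          (fun P hP Q hQ => by
            have h2 := (hT' P hP Q hQ).1 (i + 2) (by omega)
            have h3 : (((i + 2 : ℕ) : ℤ) - 3) = (i : ℤ) - 1 := by push_cast; ring
            rw [h3] at h2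
            exact lt_of_le_of_lt h2 hsmall)
        refine h1.imp (fun P Q h2 => ?_)
        have h4 := pow_le_pow_left₀ (pow_nonneg (v.nonneg _) _) h2 (d - 1)
        rw [← pow_mul, ← sq] at h4
        refine h4.trans (le_of_eq ?_)
        rw [div_pow, mul_pow, mul_pow, hρ]
        obtain ⟨n, rfl⟩ : ∃ n, d = n + 2 := ⟨d - 2, by omega⟩
        have h5 : n + 2 - 1 = n + 1 := by omega
        rw [h5]
        field_simp
        ring))
  obtain ⟨κ, hκ⟩ := L3
  have hN : (d * (d - 1)) ^ 6 * (d - 1) ^ 4 * (d - 1) ^ 2 = cellN d := by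
    rw [cellN]
    ring
  refine ⟨fun P => Fin.cast hN (κ P), ?_⟩
  intro P Q hPQ
  have h1 := hκ P (Finset.mem_univ _) Q (Finset.mem_univ _) (Fin.cast_injective _ hPQ)
  have h2 := h1.2 1 (by omega)
  have h3 := h1.2 0 (by omega)
  rw [show (((1 : ℕ) : ℤ) - 1) = 0 by norm_num] at h2
  rw [show (((0 : ℕ) : ℤ) - 1) = -1 by norm_num] at h3
  have e0 : ∀ P, yn O 0 P = O.y P := by intro P; rw [yn, zpow_zero]; rfl
  have e1 : ∀ P, yn O (-1) P = O.y (O.σ⁻¹ P) := by intro P; rw [yn, zpow_neg_one]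
  rw [e0, e0] at h2
  rw [e1, e1] at h3
  exact ⟨h2, h3⟩

end Pool.Agent.H.MP_0e6b5f_nt.Eng
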