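import Pool.Agent.H.MP_0e6b5f_nt.Eng.GlobRel
import Pool.Agent.H.MP_0e6b5f_nt.Eng.Num
import Pool.Agent.H.MP_0e6b5f_nt.Eng.Cells
import Pool.Agent.H.MP_0e6b5f_nt.Eng.Degen
import Pool.Agent.H.MP_0e6b5f_nt.Eng.Hts

/-!
# The bound for finite invariant sets from one place, without condition on the Jacobian
-/

namespace Pool.Agent.H.MP_0e6b5f_nt.Eng

open Pool.Agent.H.MP_0e6b5f_nt.Dom
open Height Height.AdmissibleAbsValues Function Real

variable {K : Type*} [Field K] [AdmissibleAbsValues K]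

/-- The constant of the engine. -/
noncomputable def cE (d : ℕ) : ℝ := (cellN d : ℝ) ^ 2 * (d : ℝ) ^ 4 * C5 d ^ 4

theorem cE_nonneg (d : ℕ) : 0 ≤ cE d := by
  unfold cE C5
  positivity

/-- The bound for a finite invariant set at a place where the Jacobian is at most one. -/
theorem engine {d : ℕ} (hd : 2 ≤ d) {ζ : Fin d → K} {i₀ : Fin d} (hi₀ : ζ i₀ = 0) {δ : K}
    (hδ : δ ≠ 0) {ι : Type*} [Fintype ι] (O : Orb ζ δ ι)
    (hinj : ∀ P Q, O.y P = O.y Q → O.y (O.σ⁻¹ P) = O.y (O.σ⁻¹ Q) → P = Q)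
    (w : AbsoluteValue K ℝ) {A R : ℝ} (hbad : Bad ζ δ w A R 1)
    (hw : (w ∈ nonarchAbsVal (K := K) ∧ A = 1) ∨
      (w ∉ nonarchAbsVal (K := K) ∧ w ∈ archAbsVal (K := K) ∧ A = 2))
    (hAR : A ^ (200 * d ^ 3) ≤ R) :
    (Fintype.card ι : ℝ) ≤ cE d *
      ((1 + (totalWeight K + log (mulHeight (tup ζ) * mulHeight₁ δ)) / log R) *
      (1 + log (1 + (totalWeight K + log (mulHeight (tup ζ) * mulHeight₁ δ)) / log R))) ^ 4 := by
  classical
  have hd' : (2 : ℝ) ≤ d := by exact_mod_cast hd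
  have hdm : ((d - 1 : ℕ) : ℝ) = (d : ℝ) - 1 := by rw [Nat.cast_sub (by omega)]; norm_num
  have hA1 := hbad.hA
  have hA0 : 0 < A := by linarith
  have hR1 := hbad.hR
  have hR0 : 0 < R := by linarith
  have hwδ : 0 < w δ := w.pos hδ
  set l := log R with hl
  set α := log A with hα
  set D : ℝ := ((totalWeight K : ℕ) : ℝ) with hD
  set h := log (mulHeight (tup ζ) * mulHeight₁ δ) with hh
  set m := ((w δ)⁻¹) ^ (((d - 1 : ℕ) : ℝ)⁻¹) with hm
  have hd1 : d - 1 ≠ 0 := by omega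
  have hmpow : m ^ (d - 1) = (w δ)⁻¹ := by
    rw [hm]
    exact Real.rpow_inv_natCast_pow (by positivity) hd1
  have hinv1 : 1 ≤ (w δ)⁻¹ := one_le_inv_iff₀.mpr ⟨hwδ, hbad.hδ⟩
  have hm1 : 1 ≤ m := by
    rw [hm]
    exact Real.one_le_rpow hinv1 (by positivity)
  have hm0 : 0 < m := by linarith
  have hmδ : m ^ (d - 1) * w δ = 1 := by
    rw [hmpow]; exact inv_mul_cancel₀ hwδ.ne'
  set m' := log m with hm'
  have hl0 : 0 < l := log_pos hR1
  have hα0 : 0 ≤ α := log_nonneg hA1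
  have hm'0 : 0 ≤ m' := log_nonneg hm1
  have hwmem : w ∈ nonarchAbsVal (K := K) ∨ w ∈ archAbsVal (K := K) :=
    hw.imp And.left (fun h => h.2.1)
  have hm'h : m' ≤ h := by
    have h1 : m ≤ m ^ (d - 1) := by
      calc m = m ^ 1 := (pow_one m).symm
        _ ≤ m ^ (d - 1) := pow_le_pow_right₀ hm1 (by omega)
    have h2 : m ^ (d - 1) ≤ mulHeight₁ δ := by
      rw [hmpow, ← map_inv₀]
      have := le_mulHeight₁ δ⁻¹ w hwmem
      rwa [mulHeight₁_inv] at this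
    have h3 : mulHeight₁ δ ≤ mulHeight (tup ζ) * mulHeight₁ δ :=
      le_mul_of_one_le_left (zero_le_one.trans (one_le_mulHeight₁ _)) (one_le_mulHeight _)
    exact log_le_log hm0 ((h1.trans h2).trans h3)
  have hαl : 200 * (d : ℝ) ^ 3 * α ≤ l := by
    have h1 := log_le_log (by positivity) hAR
    rw [log_pow] at h1
    push_cast at h1
    exact h1
  set Y := 1 + (D + h) / l with hY
  set x := C5 d * (Y * (1 + log Y)) with hx
  set T := l * x with hT
  set b₁ := (2 * (d : ℝ) + 6) * α + d * l + d * m' with hb1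
  set b₂ := (2 * (d : ℝ) + 6) * α + l with hb2
  set a₁ := ((d : ℝ) + eps d) * l + (d - 1) * m' with ha1
  set a₂ := (1 + eps d) * l with ha2
  set L := Nat.log d ⌊x⌋₊ + 1 with hL
  have hD0 : 0 ≤ D := Nat.cast_nonneg _
  have hh0 : 0 ≤ h := hm'0.trans hm'h
  have hY1 : 1 ≤ Y := by
    rw [hY]
    have : 0 ≤ (D + h) / l := by positivity
    linarith
  have hlogY : 0 ≤ log Y := log_nonneg hY1
  have hC3 := C3_ge hd
  have hx1 : 1 ≤ x := by
    rw [hx]
    have h1 : 1 ≤ C5 d := by unfold C5; nlinarith [hC3.2]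
    have h2 : 1 ≤ Y * (1 + log Y) := one_le_mul_of_one_le_of_one_le hY1 (by linarith)
    exact one_le_mul_of_one_le_of_one_le h1 h2
  have heps0 : 0 < eps d := by
    unfold eps
    have : (0 : ℝ) < (d : ℝ) - 1 := by linarith
    apply div_pos (by linarith) (by positivity)
  have hd10 : (0 : ℝ) < (d : ℝ) - 1 := by linarith
  have ha1pos : 0 < a₁ := by rw [ha1]; positivity
  have ha2pos : 0 < a₂ := by rw [ha2]; positivity
  have hb1pos : 0 < b₁ := by rw [hb1]; positivity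
  have hb2pos : 0 < b₂ := by rw [hb2]; positivity
  have hTpos : 0 ≤ T := by rw [hT]; positivity
  have hAe : A = exp α := (exp_log hA0).symm
  have hRe : R = exp l := (exp_log hR0).symm
  have hme : m = exp m' := (exp_log hm0).symm
  have hnum := numeric hd hl0 hm'0 hm'h hα0 hαl hD0 hb1 hb2 ha1 ha2 hY hx hT
    (card_idx_le hb1pos hb2pos hTpos) hL
  set r := exp (-(eps d * l)) with hr
  -- the cells
  obtain ⟨κ, hκ⟩ := cells hbad O
  have hclose : ∀ z : ℝ, 0 ≤ z → z ^ ((d - 1) ^ 2) ≤ A ^ (2 * d ^ 2 + 6 * d + 7) / R ^ d →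
      z ≤ r := by
    intro z hz hzp
    have hne : (d - 1) ^ 2 ≠ 0 := pow_ne_zero 2 hd1
    refine (pow_le_pow_iff_left₀ hz (exp_pos _).le hne).mp (hzp.trans ?_)
    rw [hAe, hRe, ← exp_nat_mul, ← exp_nat_mul, ← exp_nat_mul, ← exp_sub]
    apply exp_le_exp.mpr
    have e1 : (((d - 1) ^ 2 : ℕ) : ℝ) * -(eps d * l) = -((2 * d - 1) / 2 * l) := by
      push_cast [hdm]
      unfold eps
      field_simp
    rw [e1]
    have h1 : ((2 * d ^ 2 + 6 * d + 7 : ℕ) : ℝ) * α ≤ l / 2 := by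
      have h2 : 2 * ((2 * d ^ 2 + 6 * d + 7 : ℕ) : ℝ) ≤ 200 * (d : ℝ) ^ 3 := by
        push_cast
        nlinarith [mul_nonneg (by linarith : (0 : ℝ) ≤ d) (by linarith : (0 : ℝ) ≤ d),
          mul_nonneg (mul_nonneg (by linarith : (0 : ℝ) ≤ d) (by linarith : (0 : ℝ) ≤ d))
            (by linarith : (0 : ℝ) ≤ (d : ℝ) - 2)]
      have h3 := mul_le_mul_of_nonneg_right h2 hα0
      linarith
    have h4 : l / 2 - d * l = -((2 * d - 1) / 2 * l) := by ring
    linarith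
  have hra1 : r / (A ^ (d + 3) * R ^ d * m ^ (d - 1)) ≤ exp (-a₁) := by
    have h1 : 1 ≤ A ^ (d + 3) := one_le_pow₀ hA1
    have h2 : r / (R ^ d * m ^ (d - 1)) = exp (-a₁) := by
      rw [hr, hRe, hme, ← exp_nat_mul, ← exp_nat_mul, ← exp_add, ← exp_sub]
      congr 1
      rw [hdm, ha1]; ring
    rw [← h2, mul_assoc]
    apply div_le_div_of_nonneg_left (exp_pos _).le (by positivity)
    exact le_mul_of_one_le_left (by positivity) h1
  have hra2 : r / (A ^ (d + 3) * R) ≤ exp (-a₂) := by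
    have h1 : 1 ≤ A ^ (d + 3) := one_le_pow₀ hA1
    have h2 : r / R = exp (-a₂) := by
      rw [hr, hRe, ← exp_sub]
      congr 1
      rw [ha2]; ring
    rw [← h2]
    apply div_le_div_of_nonneg_left (exp_pos _).le (by positivity)
    exact le_mul_of_one_le_left (by positivity) h1
  have hrb1 : A ^ (2 * d + 6) * R ^ d * m ^ d = exp b₁ := by
    rw [hAe, hRe, hme, ← exp_nat_mul, ← exp_nat_mul, ← exp_nat_mul, ← exp_add, ← exp_add]
    congr 1
    rw [hb1]; push_cast; ring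
  have hrb2 : A ^ (2 * d + 6) * R = exp b₂ := by
    rw [hAe, hRe, ← exp_nat_mul, ← exp_add]
    congr 1
    rw [hb2]; push_cast; ring
  have hlb2 : l ≤ b₂ := by
    rw [hb2]
    have : 0 ≤ (2 * (d : ℝ) + 6) * α := by positivity
    linarith
  have hlb1 : l ≤ b₁ := by
    rw [hb1]
    have : 0 ≤ (2 * (d : ℝ) + 6) * α := by positivity
    nlinarith
  have hidx : ∀ s ∈ idx b₁ b₂ T, s.1 < d ^ L ∧ s.2 < d ^ L := by
    intro s hs
    rw [mem_idx hb1pos hb2pos] at hs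
    have hfl : ⌊x⌋₊ < d ^ L := Nat.lt_pow_succ_log_self (by omega) _
    have hc1 : (0 : ℝ) ≤ s.1 := Nat.cast_nonneg _
    have hc2 : (0 : ℝ) ≤ s.2 := Nat.cast_nonneg _
    constructor
    · refine lt_of_le_of_lt (Nat.le_floor ?_) hfl
      have h1 : l * (s.1 : ℝ) ≤ l * x := by
        calc l * (s.1 : ℝ) ≤ b₁ * s.1 := mul_le_mul_of_nonneg_right hlb1 hc1
          _ ≤ T := by
            have : 0 ≤ b₂ * (s.2 : ℝ) := by positivity
            linarith
          _ = l * x := hT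
      exact le_of_mul_le_mul_left h1 hl0
    · refine lt_of_le_of_lt (Nat.le_floor ?_) hfl
      have h1 : l * (s.2 : ℝ) ≤ l * x := by
        calc l * (s.2 : ℝ) ≤ b₂ * s.2 := mul_le_mul_of_nonneg_right hlb2 hc2
          _ ≤ T := by
            have : 0 ≤ b₁ * (s.1 : ℝ) := by positivity
            linarith
          _ = l * x := hT
      exact le_of_mul_le_mul_left h1 hl0
  have hdeg := degen hd hδ O hinj L (cellN d) κ (fun c => by
    obtain ⟨a, ha, hrel⟩ := cell_rel hd hi₀ hδ O w hbad hw hm1 hmδ L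
      (Finset.univ.filter (fun P => κ P = c)) (r := r) (T := T) (exp_pos _)
      (fun P hP Q hQ => by
        rw [Finset.mem_filter] at hP hQ
        have h1 := hκ P Q (hP.2.trans hQ.2.symm)
        exact ⟨hclose _ (w.nonneg _) h1.1, hclose _ (w.nonneg _) h1.2⟩)
      hTpos ha1pos ha2pos hra1 hra2 hb1pos hb2pos hrb1 hrb2 hnum
    refine ⟨idx b₁ b₂ T, a, hidx, ha, fun P hP => hrel P ?_⟩
    rw [Finset.mem_filter]
    exact ⟨Finset.mem_univ _, hP⟩)
  have hdL : ((d ^ L : ℕ) : ℝ) ≤ d * x := by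
    have hxf : 1 ≤ ⌊x⌋₊ := Nat.le_floor (by exact_mod_cast hx1)
    have h1 : d ^ Nat.log d ⌊x⌋₊ ≤ ⌊x⌋₊ := Nat.pow_log_le_self d (by omega)
    have h2 : ((d ^ Nat.log d ⌊x⌋₊ : ℕ) : ℝ) ≤ x :=
      (by exact_mod_cast h1 : ((d ^ Nat.log d ⌊x⌋₊ : ℕ) : ℝ) ≤ (⌊x⌋₊ : ℝ)).trans
        (Nat.floor_le (by linarith))
    rw [hL, pow_succ]
    push_cast at h2 ⊢
    nlinarith
  have hcard : (Fintype.card ι : ℝ) ≤ ((cellN d : ℝ) * ((d ^ L : ℕ) : ℝ) ^ 2) ^ 2 := by
    have h1 : ((cellN d * d ^ (2 * L)) ^ 2 : ℕ) = ((cellN d * (d ^ L) ^ 2) ^ 2 : ℕ) := by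
      rw [← pow_mul, mul_comm L 2]
    rw [h1] at hdeg
    exact_mod_cast hdeg
  refine hcard.trans ?_
  have hdL0 : (0 : ℝ) ≤ ((d ^ L : ℕ) : ℝ) := Nat.cast_nonneg _
  have h1 : ((cellN d : ℝ) * ((d ^ L : ℕ) : ℝ) ^ 2) ^ 2 ≤ ((cellN d : ℝ) * (d * x) ^ 2) ^ 2 := by
    apply pow_le_pow_left₀ (by positivity)
    exact mul_le_mul_of_nonneg_left (pow_le_pow_left₀ hdL0 hdL 2) (Nat.cast_nonneg _)
  refine h1.trans (le_of_eq ?_)
  rw [hx]
  unfold cE
  ring

end Pool.Agent.H.MP_0e6b5f_nt.Eng
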