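import Pool.Agent.H.MP_0e6b5f_nt.Eng.Defs

/-!
# Growth of the norms of the iterates and the determinant at the special place
-/

namespace Pool.Agent.H.MP_0e6b5f_nt.Eng

open Pool.Agent.H.MP_0e6b5f_nt.Dom

/-- The recursion for the norms of the iterates. -/
theorem growth {A μ R Θ : ℝ} (hA : 1 ≤ A) (hμ : 1 ≤ μ) (hR : 1 ≤ R) {d : ℕ} (hd : 2 ≤ d)
    (g : ℕ → ℝ) (hΘ : A ^ (d + 2) * μ * R ≤ Θ) (h0 : g 0 ≤ Θ / (A ^ (d + 2) * μ))
    (h1 : g 1 ≤ μ ^ (d - 1) * A ^ (d + 2) * (Θ / (A ^ (d + 2) * μ)) ^ d)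
    (hstep : ∀ k M, R ≤ M → g k ≤ M → g (k + 1) ≤ M →
      g (k + 2) ≤ μ ^ (d - 1) * A ^ (d + 2) * M ^ d) (k : ℕ) :
    g k ≤ Θ ^ (d ^ k) / (A ^ (d + 2) * μ) := by
  have hAd : 1 ≤ A ^ (d + 2) := one_le_pow₀ hA
  have hAμ : 1 ≤ A ^ (d + 2) * μ := one_le_mul_of_one_le_of_one_le hAd hμ
  have hAμ0 : 0 < A ^ (d + 2) * μ := by linarith
  have hΘ1 : 1 ≤ Θ := by nlinarith
  have hΘ0 : 0 < Θ := by linarith
  have key : ∀ k : ℕ, μ ^ (d - 1) * A ^ (d + 2) * (Θ ^ (d ^ k) / (A ^ (d + 2) * μ)) ^ d ≤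
      Θ ^ (d ^ (k + 1)) / (A ^ (d + 2) * μ) := by
    intro k
    have e1 : (Θ ^ (d ^ k) / (A ^ (d + 2) * μ)) ^ d =
        Θ ^ (d ^ (k + 1)) / (A ^ (d + 2) * μ) ^ d := by
      rw [div_pow, ← pow_mul, pow_succ d k]
    have e2 : (A ^ (d + 2) * μ) ^ d = (A ^ (d + 2) * μ) ^ (d - 1) * (A ^ (d + 2) * μ) := by
      rw [← pow_succ, Nat.sub_add_cancel (by omega)]
    rw [e1, e2, ← div_div, mul_div_assoc']
    apply div_le_div_of_nonneg_right _ hAμ0.le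
    rw [mul_div_assoc', div_le_iff₀ (by positivity)]
    have h3 : μ ^ (d - 1) * A ^ (d + 2) ≤ (A ^ (d + 2) * μ) ^ (d - 1) := by
      rw [mul_pow, mul_comm]
      apply mul_le_mul_of_nonneg_right _ (by positivity)
      calc A ^ (d + 2) = (A ^ (d + 2)) ^ 1 := (pow_one _).symm
        _ ≤ (A ^ (d + 2)) ^ (d - 1) := pow_le_pow_right₀ hAd (by omega)
    calc μ ^ (d - 1) * A ^ (d + 2) * Θ ^ (d ^ (k + 1)) ≤
        (A ^ (d + 2) * μ) ^ (d - 1) * Θ ^ (d ^ (k + 1)) :=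
          mul_le_mul_of_nonneg_right h3 (by positivity)
      _ = _ := mul_comm _ _
  have hmono : ∀ k : ℕ, Θ ^ (d ^ k) / (A ^ (d + 2) * μ) ≤
      Θ ^ (d ^ (k + 1)) / (A ^ (d + 2) * μ) := by
    intro k
    apply div_le_div_of_nonneg_right _ hAμ0.le
    exact pow_le_pow_right₀ hΘ1 (Nat.pow_le_pow_right (by omega) (by omega))
  have hRle : ∀ k : ℕ, R ≤ Θ ^ (d ^ k) / (A ^ (d + 2) * μ) := by
    intro k
    rw [le_div_iff₀ hAμ0]
    have h3 : Θ ≤ Θ ^ (d ^ k) := by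
      calc Θ = Θ ^ 1 := (pow_one _).symm
        _ ≤ Θ ^ (d ^ k) := pow_le_pow_right₀ hΘ1 (Nat.one_le_pow _ _ (by omega))
    linarith
  have h01 : g 0 ≤ Θ ^ (d ^ 0) / (A ^ (d + 2) * μ) := by simpa using h0
  have h11 : g 1 ≤ Θ ^ (d ^ 1) / (A ^ (d + 2) * μ) := by
    refine h1.trans ?_
    have := key 0
    simpa using this
  have main : ∀ k, g k ≤ Θ ^ (d ^ k) / (A ^ (d + 2) * μ) ∧
      g (k + 1) ≤ Θ ^ (d ^ (k + 1)) / (A ^ (d + 2) * μ) := by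
    intro k
    induction k with
    | zero => exact ⟨h01, h11⟩
    | succ k ih =>
      refine ⟨ih.2, ?_⟩
      exact (hstep k _ (hRle (k + 1)) (ih.1.trans (hmono k)) ih.2).trans (key (k + 1))
  exact (main k).1

variable {K : Type*} [Field K]

/-- The polynomial of the normal form, evaluated at a polynomial in two variables. -/
noncomputable def nfP {d : ℕ} (ζ : Fin d → K) (δ : K) (u : MvPolynomial (Fin 2) K) :
    MvPolynomial (Fin 2) K :=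
  MvPolynomial.C (1 + δ) * u + ∏ i, (u - MvPolynomial.C (ζ i))

/-- Forward iterates as polynomials in the deviations from a centre. -/
noncomputable def uP {d : ℕ} (ζ : Fin d → K) (δ x₀ y₀ : K) : ℕ → MvPolynomial (Fin 2) K
  | 0 => MvPolynomial.X 1 + MvPolynomial.C y₀
  | 1 => nfP ζ δ (MvPolynomial.X 1 + MvPolynomial.C y₀) -
      MvPolynomial.C δ * (MvPolynomial.X 0 + MvPolynomial.C x₀)
  | k + 2 => nfP ζ δ (uP ζ δ x₀ y₀ (k + 1)) - MvPolynomial.C δ * uP ζ δ x₀ y₀ k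

/-- Backward iterates as polynomials in the deviations from a centre. -/
noncomputable def bP {d : ℕ} (ζ : Fin d → K) (δ x₀ y₀ : K) : ℕ → MvPolynomial (Fin 2) K
  | 0 => MvPolynomial.X 0 + MvPolynomial.C x₀
  | 1 => MvPolynomial.C δ⁻¹ * (nfP ζ δ (MvPolynomial.X 0 + MvPolynomial.C x₀) -
      (MvPolynomial.X 1 + MvPolynomial.C y₀))
  | k + 2 => MvPolynomial.C δ⁻¹ * (nfP ζ δ (bP ζ δ x₀ y₀ (k + 1)) - bP ζ δ x₀ y₀ k)

/-- The dynamical monomials as polynomials. -/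
noncomputable def eP {d : ℕ} (ζ : Fin d → K) (δ x₀ y₀ : K) (L : ℕ) (s : ℕ × ℕ) :
    MvPolynomial (Fin 2) K :=
  dynP d (bP ζ δ x₀ y₀) L s.1 * dynP d (uP ζ δ x₀ y₀) L s.2

theorem eval_nfP {d : ℕ} (ζ : Fin d → K) (δ : K) (u : MvPolynomial (Fin 2) K) (z : Fin 2 → K) :
    MvPolynomial.eval z (nfP ζ δ u) = (nf ζ δ).eval (MvPolynomial.eval z u) := by
  rw [nf_eval, nfP]
  simp

section Eval

variable {d : ℕ} {ζ : Fin d → K} {δ : K} {ι : Type*}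

theorem eval_uP (O : Orb ζ δ ι) (x₀ y₀ : K) (P : ι) (k : ℕ) :
    MvPolynomial.eval ![O.y (O.σ⁻¹ P) - x₀, O.y P - y₀] (uP ζ δ x₀ y₀ k) = O.y ((O.σ ^ k) P) := by
  have main : ∀ k, MvPolynomial.eval ![O.y (O.σ⁻¹ P) - x₀, O.y P - y₀] (uP ζ δ x₀ y₀ k) =
      O.y ((O.σ ^ k) P) ∧
      MvPolynomial.eval ![O.y (O.σ⁻¹ P) - x₀, O.y P - y₀] (uP ζ δ x₀ y₀ (k + 1)) =
      O.y ((O.σ ^ (k + 1)) P) := by
    intro k
    induction k with
    | zero =>
      constructor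
      · simp [uP]
      · rw [zero_add, pow_one, uP, map_sub, eval_nfP]
        have := O.rel P
        simp only [map_add, map_mul, MvPolynomial.eval_X, MvPolynomial.eval_C,
          Matrix.cons_val_zero, Matrix.cons_val_one, sub_add_cancel]
        rw [← this]; ring
    | succ k ih =>
      refine ⟨ih.2, ?_⟩
      rw [uP, map_sub, eval_nfP, map_mul, ih.1, ih.2, MvPolynomial.eval_C]
      have h1 := O.rel ((O.σ ^ (k + 1)) P)
      rw [← h1]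
      have h2 : O.σ ((O.σ ^ (k + 1)) P) = (O.σ ^ (k + 2)) P := by
        rw [pow_succ' O.σ (k + 1)]; rfl
      have h3 : O.σ⁻¹ ((O.σ ^ (k + 1)) P) = (O.σ ^ k) P := by
        rw [pow_succ' O.σ k]
        exact O.σ.symm_apply_apply _
      rw [h2, h3]; ring
  exact (main k).1

theorem eval_bP (hδ : δ ≠ 0) (O : Orb ζ δ ι) (x₀ y₀ : K) (P : ι) (k : ℕ) :
    MvPolynomial.eval ![O.y (O.σ⁻¹ P) - x₀, O.y P - y₀] (bP ζ δ x₀ y₀ k) =
      O.y ((O.σ⁻¹ ^ (k + 1)) P) := by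
  have main : ∀ k, MvPolynomial.eval ![O.y (O.σ⁻¹ P) - x₀, O.y P - y₀] (bP ζ δ x₀ y₀ k) =
      O.y ((O.σ⁻¹ ^ (k + 1)) P) ∧
      MvPolynomial.eval ![O.y (O.σ⁻¹ P) - x₀, O.y P - y₀] (bP ζ δ x₀ y₀ (k + 1)) =
      O.y ((O.σ⁻¹ ^ (k + 2)) P) := by
    intro k
    induction k with
    | zero =>
      constructor
      · simp [bP]
      · rw [zero_add, bP, map_mul, map_sub, eval_nfP]
        have h1 := O.rel (O.σ⁻¹ P)
        have h4 : O.σ (O.σ⁻¹ P) = P := O.σ.apply_symm_apply _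
        rw [h4] at h1
        simp only [map_add, MvPolynomial.eval_X, MvPolynomial.eval_C,
          Matrix.cons_val_zero, Matrix.cons_val_one, sub_add_cancel]
        rw [← h1]
        have h5 : (O.σ⁻¹ ^ 2) P = O.σ⁻¹ (O.σ⁻¹ P) := by
          rw [pow_succ, pow_one]; rfl
        rw [h5]
        field_simp
        ring
    | succ k ih =>
      refine ⟨ih.2, ?_⟩
      rw [bP, map_mul, map_sub, eval_nfP, ih.1, ih.2, MvPolynomial.eval_C]
      have h1 := O.rel ((O.σ⁻¹ ^ (k + 2)) P)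
      rw [← h1]
      have h2 : O.σ ((O.σ⁻¹ ^ (k + 2)) P) = (O.σ⁻¹ ^ (k + 1)) P := by
        rw [pow_succ' O.σ⁻¹ (k + 1)]
        exact O.σ.apply_symm_apply _
      have h3 : O.σ⁻¹ ((O.σ⁻¹ ^ (k + 2)) P) = (O.σ⁻¹ ^ (k + 3)) P := by
        rw [pow_succ' O.σ⁻¹ (k + 2)]; rfl
      rw [h2, h3]
      field_simp
      ring
  exact (main k).1

theorem eval_eP (hδ : δ ≠ 0) (O : Orb ζ δ ι) (x₀ y₀ : K) (P : ι) (L : ℕ) (s : ℕ × ℕ) :
    MvPolynomial.eval ![O.y (O.σ⁻¹ P) - x₀, O.y P - y₀] (eP ζ δ x₀ y₀ L s) = ee O L s P := by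
  rw [eP, ee, map_mul, Pi.mul_apply]
  congr 1
  · simp only [dynP, map_prod, map_pow, eval_bP hδ, Finset.prod_apply, Pi.pow_apply]
  · simp only [dynP, map_prod, map_pow, eval_uP, Finset.prod_apply, Pi.pow_apply]

end Eval

section Norms

variable {d : ℕ} {ζ : Fin d → K} {δ : K} {v : AbsoluteValue K ℝ} {A R ρ₁ ρ₂ : ℝ} {c : ℕ → ℝ}
  {N : MvPolynomial (Fin 2) K → ℝ}

theorem PN.one (h : PN v A ρ₁ ρ₂ c N) : N 1 ≤ 1 := by
  have := h.const 1
  rwa [map_one, v.map_one] at this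

theorem PN.sub (h : PN v A ρ₁ ρ₂ c N) (hA : 0 ≤ A) (p q : MvPolynomial (Fin 2) K) :
    N (p - q) ≤ A * max (N p) (N q) := by
  rw [sub_eq_add_neg]
  exact (h.add _ _).trans (mul_le_mul_of_nonneg_left (max_le_max le_rfl (h.neg q)) hA)

theorem PN.prod (h : PN v A ρ₁ ρ₂ c N) {α : Type*} (s : Finset α)
    (f : α → MvPolynomial (Fin 2) K) (b : α → ℝ) (hb : ∀ i ∈ s, N (f i) ≤ b i) :
    N (∏ i ∈ s, f i) ≤ ∏ i ∈ s, b i := by
  classical
  induction s using Finset.induction_on with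
  | empty => simpa using h.one
  | insert a s ha ih =>
    rw [Finset.prod_insert ha, Finset.prod_insert ha]
    have h1 := hb a (Finset.mem_insert_self _ _)
    exact (h.mul _ _).trans (mul_le_mul h1 (ih (fun i hi => hb i (Finset.mem_insert_of_mem hi)))
      (h.nonneg _) ((h.nonneg _).trans h1))

theorem PN.pow (h : PN v A ρ₁ ρ₂ c N) (p : MvPolynomial (Fin 2) K) {b : ℝ} (hb : N p ≤ b)
    (n : ℕ) : N (p ^ n) ≤ b ^ n := by
  have := h.prod (Finset.range n) (fun _ => p) (fun _ => b) (fun _ _ => hb)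
  simpa using this

theorem norm_nfP (h : PN v A ρ₁ ρ₂ c N) (hqu : QU v A) (hA : 1 ≤ A) (hd : 2 ≤ d)
    (hδ : v δ ≤ 1) (hζ : ∀ i, v (ζ i) ≤ R) {M : ℝ} (hR : 1 ≤ R) (hM : R ≤ M)
    {u : MvPolynomial (Fin 2) K} (hu : N u ≤ M) : N (nfP ζ δ u) ≤ A ^ (d + 1) * M ^ d := by
  have hA0 : 0 ≤ A := by linarith
  have hM1 : 1 ≤ M := hR.trans hM
  have hAM : 1 ≤ A * M := one_le_mul_of_one_le_of_one_le hA hM1
  have h1 : N (MvPolynomial.C (1 + δ) * u) ≤ A * M := by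
    refine (h.mul _ _).trans (mul_le_mul ((h.const _).trans ?_) hu (h.nonneg _) hA0)
    refine (hqu 1 δ).trans ?_
    rw [v.map_one, max_eq_left hδ, mul_one]
  have h2 : N (∏ i, (u - MvPolynomial.C (ζ i))) ≤ (A * M) ^ d := by
    have := h.prod Finset.univ (fun i => u - MvPolynomial.C (ζ i)) (fun _ => A * M) (fun i _ => by
      refine (h.sub hA0 _ _).trans (mul_le_mul_of_nonneg_left (max_le hu ?_) hA0)
      exact (h.const _).trans ((hζ i).trans hM))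
    simpa using this
  rw [nfP]
  refine (h.add _ _).trans ?_
  have h3 : A * M ≤ (A * M) ^ d := by
    calc A * M = (A * M) ^ 1 := (pow_one _).symm
      _ ≤ (A * M) ^ d := pow_le_pow_right₀ hAM (by omega)
  calc A * max (N (MvPolynomial.C (1 + δ) * u)) (N (∏ i, (u - MvPolynomial.C (ζ i))))
      ≤ A * (A * M) ^ d := mul_le_mul_of_nonneg_left (max_le (h1.trans h3) h2) hA0
    _ = A ^ (d + 1) * M ^ d := by rw [mul_pow]; ring

/-- Norms of the forward iterates. -/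
theorem norm_uP (h : PN v A ρ₁ ρ₂ c N) (hqu : QU v A) (hA : 1 ≤ A) (hd : 2 ≤ d)
    (hδ : v δ ≤ 1) (hζ : ∀ i, v (ζ i) ≤ R) (hR : 1 ≤ R) {m : ℝ} (hm : 1 ≤ m)
    (hmδ : m ^ (d - 1) * v δ = 1) (h1 : ρ₁ = A ^ (d + 3) * R ^ d * m ^ (d - 1))
    (h2 : ρ₂ = A ^ (d + 3) * R) {x₀ y₀ : K} (hx : v x₀ ≤ A ^ (d + 3) * R)
    (hy : v y₀ ≤ A ^ (d + 3) * R) (k : ℕ) :
    N (uP ζ δ x₀ y₀ k) ≤ (A ^ (2 * d + 6) * R) ^ (d ^ k) := by
  have hA0 : 0 ≤ A := by linarith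
  have hAd : 1 ≤ A ^ (d + 2) := one_le_pow₀ hA
  have hmd : 1 ≤ m ^ (d - 1) := one_le_pow₀ hm
  have hR0 : 0 ≤ R := by linarith
  have hRd : R ≤ R ^ d := by
    calc R = R ^ 1 := (pow_one _).symm
      _ ≤ R ^ d := pow_le_pow_right₀ hR (by omega)
  have hu0 : N (MvPolynomial.X 1 + MvPolynomial.C y₀) ≤ A ^ (d + 4) * R := by
    refine (h.add _ _).trans ?_
    calc A * max (N (MvPolynomial.X 1)) (N (MvPolynomial.C y₀)) ≤ A * (A ^ (d + 3) * R) := by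
          refine mul_le_mul_of_nonneg_left (max_le (h.var1.trans h2.le) ((h.const _).trans hy)) hA0
      _ = A ^ (d + 4) * R := by ring
  have hb0 : N (MvPolynomial.X 0 + MvPolynomial.C x₀) ≤ A ^ (d + 4) * R ^ d * m ^ (d - 1) := by
    refine (h.add _ _).trans ?_
    calc A * max (N (MvPolynomial.X 0)) (N (MvPolynomial.C x₀)) ≤
          A * (A ^ (d + 3) * R ^ d * m ^ (d - 1)) := by
          refine mul_le_mul_of_nonneg_left (max_le (h.var0.trans h1.le)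
            ((h.const _).trans (hx.trans ?_))) hA0
          calc A ^ (d + 3) * R ≤ A ^ (d + 3) * R ^ d := mul_le_mul_of_nonneg_left hRd (by positivity)
            _ ≤ A ^ (d + 3) * R ^ d * m ^ (d - 1) := le_mul_of_one_le_right (by positivity) hmd
      _ = A ^ (d + 4) * R ^ d * m ^ (d - 1) := by ring
  have hAd0 : A ^ (d + 2) ≠ 0 := by positivity
  have hM0 : A ^ (2 * d + 6) * R / (A ^ (d + 2) * 1) = A ^ (d + 4) * R := by
    rw [mul_one, div_eq_iff hAd0]; ring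
  have hstepall : ∀ (a b : MvPolynomial (Fin 2) K) (M : ℝ), R ≤ M → N a ≤ M →
      v δ * N b ≤ A ^ (d + 1) * M ^ d →
      N (nfP ζ δ a - MvPolynomial.C δ * b) ≤ 1 ^ (d - 1) * A ^ (d + 2) * M ^ d := by
    intro a b M hRM ha hb
    refine (h.sub hA0 _ _).trans ?_
    have h5 : N (MvPolynomial.C δ * b) ≤ A ^ (d + 1) * M ^ d :=
      ((h.mul _ _).trans (mul_le_mul_of_nonneg_right (h.const δ) (h.nonneg _))).trans hb
    calc A * max (N (nfP ζ δ a)) (N (MvPolynomial.C δ * b)) ≤ A * (A ^ (d + 1) * M ^ d) :=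
          mul_le_mul_of_nonneg_left (max_le (norm_nfP h hqu hA hd hδ hζ hR hRM ha) h5) hA0
      _ = 1 ^ (d - 1) * A ^ (d + 2) * M ^ d := by rw [one_pow]; ring
  have hA4 : 1 ≤ A ^ (d + 4) := one_le_pow₀ hA
  have hRA : R ≤ A ^ (d + 4) * R := le_mul_of_one_le_left hR0 hA4
  have main := growth (A := A) (μ := 1) (R := R) (Θ := A ^ (2 * d + 6) * R) hA le_rfl hR hd
    (fun k => N (uP ζ δ x₀ y₀ k))
    (by
      rw [mul_one]
      exact mul_le_mul_of_nonneg_right (pow_le_pow_right₀ hA (by omega)) hR0)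
    (by
      show N (uP ζ δ x₀ y₀ 0) ≤ _
      rw [hM0, uP]; exact hu0)
    (by
      show N (uP ζ δ x₀ y₀ 1) ≤ _
      rw [hM0, uP]
      refine hstepall _ _ _ hRA hu0 ?_
      calc v δ * N (MvPolynomial.X 0 + MvPolynomial.C x₀) ≤
            v δ * (A ^ (d + 4) * R ^ d * m ^ (d - 1)) :=
            mul_le_mul_of_nonneg_left hb0 (v.nonneg _)
        _ = A ^ (d + 4) * R ^ d * (m ^ (d - 1) * v δ) := by ring
        _ = A ^ (d + 4) * R ^ d := by rw [hmδ, mul_one]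
        _ ≤ A ^ (d + 1) * (A ^ (d + 4) * R) ^ d := by
            rw [mul_pow, ← mul_assoc]
            apply mul_le_mul_of_nonneg_right _ (by positivity)
            rw [← pow_mul, ← pow_add]
            apply pow_le_pow_right₀ hA
            nlinarith)
    (by
      intro k M hRM h3 h4
      show N (uP ζ δ x₀ y₀ (k + 2)) ≤ _
      rw [uP]
      refine hstepall _ _ _ hRM h4 ?_
      have hM1 : 1 ≤ M := hR.trans hRM
      calc v δ * N (uP ζ δ x₀ y₀ k) ≤ 1 * M :=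
            mul_le_mul hδ h3 (h.nonneg _) zero_le_one
        _ ≤ 1 * M ^ d := by
            rw [one_mul, one_mul]
            calc M = M ^ 1 := (pow_one _).symm
              _ ≤ M ^ d := pow_le_pow_right₀ hM1 (by omega)
        _ ≤ A ^ (d + 1) * M ^ d :=
            mul_le_mul_of_nonneg_right (one_le_pow₀ hA) (by positivity)) k
  refine main.trans ?_
  rw [mul_one]
  exact div_le_self (by positivity) hAd

/-- Norms of the backward iterates. -/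
theorem norm_bP (h : PN v A ρ₁ ρ₂ c N) (hqu : QU v A) (hA : 1 ≤ A) (hd : 2 ≤ d)
    (hδ : v δ ≤ 1) (hζ : ∀ i, v (ζ i) ≤ R) (hR : 1 ≤ R) {m : ℝ} (hm : 1 ≤ m)
    (hmδ : m ^ (d - 1) * v δ = 1) (h1 : ρ₁ = A ^ (d + 3) * R ^ d * m ^ (d - 1))
    (h2 : ρ₂ = A ^ (d + 3) * R) {x₀ y₀ : K} (hx : v x₀ ≤ A ^ (d + 3) * R)
    (hy : v y₀ ≤ A ^ (d + 3) * R) (k : ℕ) :
    N (bP ζ δ x₀ y₀ k) ≤ (A ^ (2 * d + 6) * R ^ d * m ^ d) ^ (d ^ k) := by
  have hA0 : 0 ≤ A := by linarith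
  have hAd : 1 ≤ A ^ (d + 2) := one_le_pow₀ hA
  have hmd : 1 ≤ m ^ (d - 1) := one_le_pow₀ hm
  have hm0 : 0 < m := by linarith
  have hR0 : 0 ≤ R := by linarith
  have hRd : R ≤ R ^ d := by
    calc R = R ^ 1 := (pow_one _).symm
      _ ≤ R ^ d := pow_le_pow_right₀ hR (by omega)
  have hu0 : N (MvPolynomial.X 1 + MvPolynomial.C y₀) ≤ A ^ (d + 4) * R := by
    refine (h.add _ _).trans ?_
    calc A * max (N (MvPolynomial.X 1)) (N (MvPolynomial.C y₀)) ≤ A * (A ^ (d + 3) * R) := by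
          refine mul_le_mul_of_nonneg_left (max_le (h.var1.trans h2.le) ((h.const _).trans hy)) hA0
      _ = A ^ (d + 4) * R := by ring
  have hb0 : N (MvPolynomial.X 0 + MvPolynomial.C x₀) ≤ A ^ (d + 4) * R ^ d * m ^ (d - 1) := by
    refine (h.add _ _).trans ?_
    calc A * max (N (MvPolynomial.X 0)) (N (MvPolynomial.C x₀)) ≤
          A * (A ^ (d + 3) * R ^ d * m ^ (d - 1)) := by
          refine mul_le_mul_of_nonneg_left (max_le (h.var0.trans h1.le)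
            ((h.const _).trans (hx.trans ?_))) hA0
          calc A ^ (d + 3) * R ≤ A ^ (d + 3) * R ^ d := mul_le_mul_of_nonneg_left hRd (by positivity)
            _ ≤ A ^ (d + 3) * R ^ d * m ^ (d - 1) := le_mul_of_one_le_right (by positivity) hmd
      _ = A ^ (d + 4) * R ^ d * m ^ (d - 1) := by ring
  have hAd0 : A ^ (d + 2) * m ≠ 0 := by positivity
  have hmd' : m ^ d = m ^ (d - 1) * m := by rw [← pow_succ, Nat.sub_add_cancel (by omega)]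
  have hM0 : A ^ (2 * d + 6) * R ^ d * m ^ d / (A ^ (d + 2) * m) =
      A ^ (d + 4) * R ^ d * m ^ (d - 1) := by
    rw [div_eq_iff hAd0, hmd']; ring
  have hvδ : v δ⁻¹ = m ^ (d - 1) := by
    rw [map_inv₀]
    exact (eq_inv_of_mul_eq_one_left hmδ).symm
  have hstepall : ∀ (a b : MvPolynomial (Fin 2) K) (M : ℝ), R ≤ M → N a ≤ M →
      N b ≤ A ^ (d + 1) * M ^ d →
      N (MvPolynomial.C δ⁻¹ * (nfP ζ δ a - b)) ≤ m ^ (d - 1) * A ^ (d + 2) * M ^ d := by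
    intro a b M hRM ha hb
    refine (h.mul _ _).trans ?_
    have h5 : N (nfP ζ δ a - b) ≤ A ^ (d + 2) * M ^ d := by
      refine (h.sub hA0 _ _).trans ?_
      calc A * max (N (nfP ζ δ a)) (N b) ≤ A * (A ^ (d + 1) * M ^ d) :=
          mul_le_mul_of_nonneg_left (max_le (norm_nfP h hqu hA hd hδ hζ hR hRM ha) hb) hA0
        _ = A ^ (d + 2) * M ^ d := by ring
    calc N (MvPolynomial.C δ⁻¹) * N (nfP ζ δ a - b) ≤ m ^ (d - 1) * (A ^ (d + 2) * M ^ d) :=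
          mul_le_mul ((h.const _).trans hvδ.le) h5 (h.nonneg _) (by positivity)
      _ = _ := by ring
  have hA4 : 1 ≤ A ^ (d + 4) := one_le_pow₀ hA
  have hRA : R ≤ A ^ (d + 4) * R ^ d * m ^ (d - 1) := by
    calc R ≤ R ^ d := hRd
      _ ≤ A ^ (d + 4) * R ^ d := le_mul_of_one_le_left (by positivity) hA4
      _ ≤ _ := le_mul_of_one_le_right (by positivity) hmd
  have hA1d : 1 ≤ A ^ (d + 1) := one_le_pow₀ hA
  have hpow : ∀ M : ℝ, 1 ≤ M → M ≤ A ^ (d + 1) * M ^ d := by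
    intro M hM
    calc M = M ^ 1 := (pow_one _).symm
      _ ≤ M ^ d := pow_le_pow_right₀ hM (by omega)
      _ ≤ A ^ (d + 1) * M ^ d := le_mul_of_one_le_left (by positivity) hA1d
  have main := growth (A := A) (μ := m) (R := R) (Θ := A ^ (2 * d + 6) * R ^ d * m ^ d) hA hm hR hd
    (fun k => N (bP ζ δ x₀ y₀ k))
    (by
      have e1 : A ^ (2 * d + 6) * R ^ d * m ^ d =
          (A ^ (d + 2) * m) * (A ^ (d + 4) * R ^ d * m ^ (d - 1)) := by rw [hmd']; ring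
      rw [e1]
      exact mul_le_mul_of_nonneg_left hRA (by positivity))
    (by
      show N (bP ζ δ x₀ y₀ 0) ≤ _
      rw [hM0, bP]; exact hb0)
    (by
      show N (bP ζ δ x₀ y₀ 1) ≤ _
      rw [hM0, bP]
      refine hstepall _ _ _ hRA hb0 ?_
      refine hu0.trans (le_trans ?_ (hpow _ (hR.trans hRA)))
      calc A ^ (d + 4) * R ≤ A ^ (d + 4) * R ^ d := mul_le_mul_of_nonneg_left hRd (by positivity)
        _ ≤ _ := le_mul_of_one_le_right (by positivity) hmd)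
    (by
      intro k M hRM h3 h4
      show N (bP ζ δ x₀ y₀ (k + 2)) ≤ _
      rw [bP]
      exact hstepall _ _ _ hRM h4 (h3.trans (hpow M (hR.trans hRM)))) k
  refine main.trans ?_
  exact div_le_self (by positivity) (one_le_mul_of_one_le_of_one_le hAd hm)

/-- Norm of a product of powers of iterates. -/
theorem norm_dynP (h : PN v A ρ₁ ρ₂ c N) (u : ℕ → MvPolynomial (Fin 2) K) {Θ : ℝ}
    (hΘ : 1 ≤ Θ) (hu : ∀ k, N (u k) ≤ Θ ^ (d ^ k)) (L i : ℕ) : N (dynP d u L i) ≤ Θ ^ i := by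
  rw [dynP]
  refine (h.prod _ _ (fun k => (Θ ^ (d ^ k)) ^ (i / d ^ k % d)) (fun k _ => h.pow _ (hu k) _)).trans
    ?_
  have h1 : ∏ k ∈ Finset.range L, (Θ ^ (d ^ k)) ^ (i / d ^ k % d) = Θ ^ (i % d ^ L) := by
    rw [← sum_digits d i L, ← Finset.prod_pow_eq_pow_sum]
    refine Finset.prod_congr rfl (fun k _ => ?_)
    rw [← pow_mul, mul_comm]
  rw [h1]
  exact pow_le_pow_right₀ hΘ (Nat.mod_le _ _)

/-- Norms of the dynamical monomials. -/
theorem norm_eP (h : PN v A ρ₁ ρ₂ c N) (hqu : QU v A) (hA : 1 ≤ A) (hd : 2 ≤ d)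
    (hδ : v δ ≤ 1) (hζ : ∀ i, v (ζ i) ≤ R) (hR : 1 ≤ R) {m : ℝ} (hm : 1 ≤ m)
    (hmδ : m ^ (d - 1) * v δ = 1) (h1 : ρ₁ = A ^ (d + 3) * R ^ d * m ^ (d - 1))
    (h2 : ρ₂ = A ^ (d + 3) * R) {x₀ y₀ : K} (hx : v x₀ ≤ A ^ (d + 3) * R)
    (hy : v y₀ ≤ A ^ (d + 3) * R) (L : ℕ) (s : ℕ × ℕ) :
    N (eP ζ δ x₀ y₀ L s) ≤
      (A ^ (2 * d + 6) * R ^ d * m ^ d) ^ s.1 * (A ^ (2 * d + 6) * R) ^ s.2 := by
  have hA6 : 1 ≤ A ^ (2 * d + 6) := one_le_pow₀ hA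
  have hRd : 1 ≤ R ^ d := one_le_pow₀ hR
  have hmd : 1 ≤ m ^ d := one_le_pow₀ hm
  have h3 : 1 ≤ A ^ (2 * d + 6) * R ^ d * m ^ d :=
    one_le_mul_of_one_le_of_one_le (one_le_mul_of_one_le_of_one_le hA6 hRd) hmd
  have h4 : 1 ≤ A ^ (2 * d + 6) * R := one_le_mul_of_one_le_of_one_le hA6 hR
  rw [eP]
  refine (h.mul _ _).trans (mul_le_mul ?_ ?_ (h.nonneg _) (by positivity))
  · exact norm_dynP h _ h3
      (norm_bP h hqu hA hd hδ hζ hR hm hmδ h1 h2 hx hy) L s.1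
  · exact norm_dynP h _ h4
      (norm_uP h hqu hA hd hδ hζ hR hm hmδ h1 h2 hx hy) L s.2

end Norms

/-- The interpolation determinant of a cell at the special place. -/
theorem loc_det {d : ℕ} {ζ : Fin d → K} {δ : K} {v : AbsoluteValue K ℝ} {A R : ℝ}
    (hbad : Bad ζ δ v A R 1) (hδ0 : δ ≠ 0) {c : ℕ → ℝ} {N : MvPolynomial (Fin 2) K → ℝ} {m : ℝ}
    (hm : 1 ≤ m) (hmδ : m ^ (d - 1) * v δ = 1)
    (h : PN v A (A ^ (d + 3) * R ^ d * m ^ (d - 1)) (A ^ (d + 3) * R) c N)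
    {ι : Type*} [Finite ι] (O : Orb ζ δ ι) (L : ℕ) {n : ℕ} (s : Fin n → ℕ × ℕ) (p : Fin n → ι)
    {r G : ℝ} (hc : 0 ≤ c n) (hG0 : 0 ≤ G)
    (hr : ∀ i j, v (O.y (p i) - O.y (p j)) ≤ r ∧ v (O.y (O.σ⁻¹ (p i)) - O.y (O.σ⁻¹ (p j))) ≤ r)
    (hG : ∀ τ : Fin n → ℕ × ℕ, Function.Injective τ →
      ∏ i, ((r / (A ^ (d + 3) * R ^ d * m ^ (d - 1))) ^ (τ i).1 *
        (r / (A ^ (d + 3) * R)) ^ (τ i).2) ≤ G) :
    v (Matrix.of (fun i j => ee O L (s i) (p j))).det ≤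
      c n * ((∏ i, ((A ^ (2 * d + 6) * R ^ d * m ^ d) ^ (s i).1 *
        (A ^ (2 * d + 6) * R) ^ (s i).2)) * G) := by
  have hA := hbad.hA
  have hR := hbad.hR.le
  have hs := O.size hbad.hd hbad.qu hbad.hA hbad.hR.le hbad.hζ (hbad.hδ.trans hbad.hR.le)
  rcases Nat.eq_zero_or_pos n with rfl | hn
  · have h1 := h.det 0 (fun i => 0) (fun j => 0) (fun j => 0) r r G (fun j => j.elim0)
      (fun j => j.elim0) hG0 hG
    simp only [Matrix.det_isEmpty, Finset.univ_eq_empty, Finset.prod_empty] at h1 ⊢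
    exact h1
  · set P₀ := p ⟨0, hn⟩ with hP₀
    have h1 := h.det n (fun i => eP ζ δ (O.y (O.σ⁻¹ P₀)) (O.y P₀) L (s i))
      (fun j => O.y (O.σ⁻¹ (p j)) - O.y (O.σ⁻¹ P₀)) (fun j => O.y (p j) - O.y P₀) r r G
      (fun j => (hr j _).2) (fun j => (hr j _).1) hG0 hG
    simp only [eval_eP hδ0] at h1
    refine h1.trans (mul_le_mul_of_nonneg_left (mul_le_mul_of_nonneg_right ?_ hG0) hc)
    refine Finset.prod_le_prod (fun _ _ => h.nonneg _) (fun i _ => ?_)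
    exact norm_eP h hbad.qu hA hbad.hd hbad.hδ hbad.hζ hR hm hmδ rfl rfl (hs _) (hs _) L (s i)

end Pool.Agent.H.MP_0e6b5f_nt.Eng
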